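import Pool.Agent.KQ4.St
import Pool.Agent.KSV.All

/-!
# KQ4 [Dg4]: the diagonal operator is a symmetry (helper1 for helper86)
-/

set_option autoImplicit false
set_option linter.unusedSectionVars false

namespace Pool.Agent.KQ4

open Module Matrix NumberField Pool.Agent.Helper7 Pool.Agent.KS Pool.Agent.Ball Pool.Agent.KSE
  Pool.Agent.Helper28.GPC Pool.Agent.KSR Pool.Agent.KSV Pool.Agent.K3P Pool.Agent.KTP
  Pool.Agent.KTW

/-! ### One place -/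

section lin

variable {m : ℕ}

theorem Dg4_en_add (A A' : Matrix (Fin m) (Fin m) ℂ) (a b : ℕ) :
    en (A + A') a b = en A a b + en A' a b := by
  unfold en
  split
  · rfl
  · rw [add_zero]

theorem Dg4_en_smul (r : ℂ) (A : Matrix (Fin m) (Fin m) ℂ) (a b : ℕ) :
    en (r • A) a b = r * en A a b := by
  unfold en
  split
  · rfl
  · rw [mul_zero]

theorem Dg4_cq_add (ε : ℂ) (A A' : Matrix (Fin m) (Fin m) ℂ) :
    cq ε (A + A') = cq ε A + cq ε A' := by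
  funext i
  fin_cases i <;> simp [cq, Dg4_en_add] <;> ring

theorem Dg4_cq_smul (ε r : ℂ) (A : Matrix (Fin m) (Fin m) ℂ) :
    cq ε (r • A) = r • cq ε A := by
  funext i
  fin_cases i <;> simp [cq, Dg4_en_smul] <;> ring

/-- signs -/
noncomputable def Dg4_ep (b : Bool) : ℂ := if b then 1 else -1

theorem Dg4_ep_or (b : Bool) : Dg4_ep b = 1 ∨ Dg4_ep b = -1 := by
  cases b
  · exact Or.inr rfl
  · exact Or.inl rfl

theorem Dg4_ep_sq (b : Bool) : Dg4_ep b * Dg4_ep b = 1 := by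
  rcases Dg4_ep_or b with h | h <;> rw [h] <;> norm_num

/-- the coordinates as a linear map -/
noncomputable def Dg4_cl (ε : ℂ) (H B : Matrix (Fin m) (Fin m) ℂ) :
    Matrix (Fin m) (Fin m) ℂ →ₗ[ℂ] (Fin 3 → ℂ) where
  toFun Z := cq ε (Bᵀ * H * Z * B)
  map_add' Z Z' := by rw [Matrix.mul_add, Matrix.add_mul, Dg4_cq_add]
  map_smul' r Z := by rw [Matrix.mul_smul, Matrix.smul_mul, Dg4_cq_smul]; rfl

/-- the components -/
noncomputable def Dg4_u (H B : Matrix (Fin m) (Fin m) ℂ) (b : Bool) :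
    Matrix (Fin m) (Fin m) ℂ →ₗ[ℂ] (Matrix (Fin m) (Fin m) ℂ × (Fin 3 → ℂ)) :=
  if m = 4 then LinearMap.inr ℂ (Matrix (Fin m) (Fin m) ℂ) (Fin 3 → ℂ) ∘ₗ Dg4_cl (Dg4_ep b) H B
  else LinearMap.inl ℂ (Matrix (Fin m) (Fin m) ℂ) (Fin 3 → ℂ)

theorem Dg4_u4 (hm : m = 4) (H B : Matrix (Fin m) (Fin m) ℂ) (b : Bool)
    (Z : Matrix (Fin m) (Fin m) ℂ) : Dg4_u H B b Z = (0, cq (Dg4_ep b) (Bᵀ * H * Z * B)) := by
  unfold Dg4_u
  rw [if_pos hm]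
  rfl

theorem Dg4_un (hm : m ≠ 4) (H B : Matrix (Fin m) (Fin m) ℂ) (b : Bool)
    (Z : Matrix (Fin m) (Fin m) ℂ) : Dg4_u H B b Z = (Z, 0) := by
  unfold Dg4_u
  rw [if_neg hm]
  rfl

theorem Dg4_u4_zero (hm : m = 4) {H B : Matrix (Fin m) (Fin m) ℂ} {b : Bool}
    {Z : Matrix (Fin m) (Fin m) ℂ} :
    Dg4_u H B b Z = 0 ↔ cq (Dg4_ep b) (Bᵀ * H * Z * B) = 0 := by
  rw [Dg4_u4 hm, Prod.ext_iff]
  exact ⟨fun h => h.2, fun h => ⟨rfl, h⟩⟩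

theorem Dg4_un_zero (hm : m ≠ 4) {H B : Matrix (Fin m) (Fin m) ℂ} {b : Bool}
    {Z : Matrix (Fin m) (Fin m) ℂ} : Dg4_u H B b Z = 0 ↔ Z = 0 := by
  rw [Dg4_un hm, Prod.ext_iff]
  exact ⟨fun h => h.1, fun h => ⟨h, rfl⟩⟩

theorem Dg4_u4_eq (hm : m = 4) {H B : Matrix (Fin m) (Fin m) ℂ} {b : Bool}
    {Z Z' : Matrix (Fin m) (Fin m) ℂ} : Dg4_u H B b Z = Dg4_u H B b Z' ↔
      cq (Dg4_ep b) (Bᵀ * H * Z * B) = cq (Dg4_ep b) (Bᵀ * H * Z' * B) := by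
  rw [Dg4_u4 hm, Dg4_u4 hm, Prod.ext_iff]
  exact ⟨fun h => h.2, fun h => ⟨rfl, h⟩⟩

theorem Dg4_un_eq (hm : m ≠ 4) {H B : Matrix (Fin m) (Fin m) ℂ} {b : Bool}
    {Z Z' : Matrix (Fin m) (Fin m) ℂ} : Dg4_u H B b Z = Dg4_u H B b Z' ↔ Z = Z' := by
  rw [Dg4_un hm, Dg4_un hm, Prod.ext_iff]
  exact ⟨fun h => h.1, fun h => ⟨h, rfl⟩⟩

/-! conjugation with the frame -/

theorem Dg4_right {H B : Matrix (Fin m) (Fin m) ℂ} (hB : Bᵀ * H * B = 1) : B * (Bᵀ * H) = 1 :=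
  mul_eq_one_comm.1 hB

theorem Dg4_tr_mul {H B : Matrix (Fin m) (Fin m) ℂ} (hB : Bᵀ * H * B = 1)
    (Z Z' : Matrix (Fin m) (Fin m) ℂ) :
    Bᵀ * H * (Z * Z') * B = (Bᵀ * H * Z * B) * (Bᵀ * H * Z' * B) := by
  have h1 := Dg4_right hB
  calc Bᵀ * H * (Z * Z') * B = Bᵀ * H * Z * 1 * Z' * B := by
        rw [mul_one, Matrix.mul_assoc (Bᵀ * H) Z Z']
    _ = Bᵀ * H * Z * (B * (Bᵀ * H)) * Z' * B := by rw [h1]
    _ = _ := by simp only [Matrix.mul_assoc]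

theorem Dg4_tr_br {H B : Matrix (Fin m) (Fin m) ℂ} (hB : Bᵀ * H * B = 1)
    (Z Z' : Matrix (Fin m) (Fin m) ℂ) :
    Bᵀ * H * (Z * Z' - Z' * Z) * B = (Bᵀ * H * Z * B) * (Bᵀ * H * Z' * B) -
      (Bᵀ * H * Z' * B) * (Bᵀ * H * Z * B) := by
  rw [Matrix.mul_sub, Matrix.sub_mul, Dg4_tr_mul hB, Dg4_tr_mul hB]

theorem Dg4_tr_skew {H B : Matrix (Fin m) (Fin m) ℂ} (hH : Hᵀ = H)
    {Z : Matrix (Fin m) (Fin m) ℂ} (hZ : Zᵀ * H + H * Z = 0) :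
    (Bᵀ * H * Z * B)ᵀ = -(Bᵀ * H * Z * B) := by
  have h1 : Zᵀ * H = -(H * Z) := eq_neg_of_add_eq_zero_left hZ
  rw [Matrix.transpose_mul, Matrix.transpose_mul, Matrix.transpose_mul, Matrix.transpose_transpose,
    hH, ← Matrix.mul_assoc Zᵀ, h1, Matrix.neg_mul, Matrix.mul_neg]
  simp only [Matrix.mul_assoc]

theorem Dg4_tr_back {H B : Matrix (Fin m) (Fin m) ℂ} (hH : Hᵀ = H) (hB : Bᵀ * H * B = 1)
    {A : Matrix (Fin m) (Fin m) ℂ} (hA : Aᵀ = -A) :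
    ∃ Z : Matrix (Fin m) (Fin m) ℂ, Zᵀ * H + H * Z = 0 ∧ Bᵀ * H * Z * B = A := by
  refine ⟨B * A * (Bᵀ * H), ?_, ?_⟩
  · rw [Matrix.transpose_mul, Matrix.transpose_mul, Matrix.transpose_mul,
      Matrix.transpose_transpose, hH, hA]
    simp only [Matrix.mul_assoc, Matrix.neg_mul, Matrix.mul_neg]
    exact neg_add_cancel _
  · calc Bᵀ * H * (B * A * (Bᵀ * H)) * B = (Bᵀ * H * B) * A * (Bᵀ * H * B) := by
          simp only [Matrix.mul_assoc]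
      _ = A := by rw [hB, one_mul, mul_one]

theorem Dg4_tr_zero {H B : Matrix (Fin m) (Fin m) ℂ} (hB : Bᵀ * H * B = 1)
    {Z : Matrix (Fin m) (Fin m) ℂ} (h0 : Bᵀ * H * Z * B = 0) : Z = 0 := by
  have h1 := Dg4_right hB
  calc Z = (B * (Bᵀ * H)) * Z * (B * (Bᵀ * H)) := by rw [h1, one_mul, mul_one]
    _ = B * (Bᵀ * H * Z * B) * (Bᵀ * H) := by simp only [Matrix.mul_assoc]
    _ = 0 := by rw [h0, mul_zero, zero_mul]

theorem Dg4_cross (x y z : Fin 3 → ℂ) :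
    crossProduct z (crossProduct y x) = (z ⬝ᵥ x) • y - (z ⬝ᵥ y) • x := by
  funext i
  simp only [Pi.sub_apply, Pi.smul_apply, smul_eq_mul, dotProduct, Fin.sum_univ_three]
  fin_cases i <;> simp [cross_apply] <;> ring

end lin

section place

variable {K : Type} [Field K] [NumberField K] {m : ℕ} {h : Matrix (Fin m) (Fin m) K} {σ : K →+* ℂ}
  {B : Matrix (Fin m) (Fin m) ℂ}

/-- the kernels of the components are ideals -/
theorem Dg4_ideal0 (hQ : St_Qcq) (hH : (h.map σ)ᵀ = h.map σ) (hB : Bᵀ * h.map σ * B = 1) (b : Bool)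
    {Z Z' : Matrix (Fin m) (Fin m) ℂ} (hZ : SkP h σ Z) (hZ' : SkP h σ Z')
    (h0 : Dg4_u (h.map σ) B b Z = 0) : Dg4_u (h.map σ) B b (Z' * Z - Z * Z') = 0 := by
  by_cases hm : m = 4
  · rw [Dg4_u4_zero hm] at h0 ⊢
    rw [Dg4_tr_br hB, (hQ m (Or.inr hm) _ (Dg4_ep_sq b)).2.2.1 _ _ (Dg4_tr_skew hH hZ')
      (Dg4_tr_skew hH hZ), h0, map_zero]
  · rw [Dg4_un_zero hm] at h0 ⊢
    rw [h0, mul_zero, zero_mul, sub_zero]

/-- the images of the components are not commutative -/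
theorem Dg4_noncomm (hQ : St_Qcq) (hσ : cj σ = σ) (hnd : h.det ≠ 0)
    (hG : (CoreR.GR h σ)ᵀ = CoreR.GR h σ) (hH : (h.map σ)ᵀ = h.map σ)
    (hB : Bᵀ * h.map σ * B = 1) (hm3 : 3 ≤ m) (b : Bool) :
    ∃ Z Z' : Matrix (Fin m) (Fin m) ℂ, SkP h σ Z ∧ SkP h σ Z' ∧
      Dg4_u (h.map σ) B b (Z * Z' - Z' * Z) ≠ 0 := by
  by_cases hm : m = 4
  · have hq := hQ m (Or.inr hm) _ (Dg4_ep_sq b)
    obtain ⟨A, hA, hA1, -⟩ := hq.2.2.2.1 ![1, 0, 0]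
    obtain ⟨A', hA', hA'1, -⟩ := hq.2.2.2.1 ![0, 1, 0]
    obtain ⟨Z, hZ, hZA⟩ := Dg4_tr_back hH hB hA
    obtain ⟨Z', hZ', hZA'⟩ := Dg4_tr_back hH hB hA'
    refine ⟨Z, Z', hZ, hZ', fun h0 => ?_⟩
    rw [Dg4_u4_zero hm, Dg4_tr_br hB, hZA, hZA', hq.2.2.1 _ _ hA hA', hA1, hA'1] at h0
    have h1 := congrFun h0 2
    simp [cross_apply] at h1
  · obtain ⟨A, C, hA, hC, hAC⟩ := KSP.Goursat.exists_noncomm hm3 (bil (CoreR.GR h σ))
      (bil_symm hG) (bil_nd hσ hnd)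
    refine ⟨_, _, skP_of_skw hσ hA, skP_of_skw hσ hC, fun h0 => hAC ?_⟩
    rw [Dg4_un_zero hm] at h0
    have h1 := congrArg Matrix.toLin' h0
    rw [map_sub, Matrix.toLin'_mul, Matrix.toLin'_mul, Matrix.toLin'_toMatrix',
      Matrix.toLin'_toMatrix', map_zero] at h1
    exact h1

/-- the images of the components are simple -/
theorem Dg4_simple (hQ : St_Qcq) (hσ : cj σ = σ) (hnd : h.det ≠ 0)
    (hG : (CoreR.GR h σ)ᵀ = CoreR.GR h σ) (hH : (h.map σ)ᵀ = h.map σ)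
    (hB : Bᵀ * h.map σ * B = 1) (hm3 : 3 ≤ m) (b : Bool)
    (𝔟 : Submodule ℂ (Matrix (Fin m) (Fin m) ℂ)) (hb : ∀ Z ∈ 𝔟, SkP h σ Z)
    (hbr : ∀ Z ∈ 𝔟, ∀ Y, SkP h σ Y → Y * Z - Z * Y ∈ 𝔟) {Z₀ : Matrix (Fin m) (Fin m) ℂ}
    (hZ₀ : Z₀ ∈ 𝔟) (h0 : Dg4_u (h.map σ) B b Z₀ ≠ 0) {Y : Matrix (Fin m) (Fin m) ℂ}
    (hY : SkP h σ Y) : ∃ Z ∈ 𝔟, Dg4_u (h.map σ) B b Z = Dg4_u (h.map σ) B b Y := by
  by_cases hm : m = 4
  · have hq := hQ m (Or.inr hm) _ (Dg4_ep_sq b)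
    have h1 : cq (Dg4_ep b) (Bᵀ * h.map σ * Z₀ * B) ≠ 0 := fun h2 => h0 ((Dg4_u4_zero hm).2 h2)
    obtain ⟨k, hk⟩ : ∃ k, cq (Dg4_ep b) (Bᵀ * h.map σ * Z₀ * B) k ≠ 0 := by
      by_contra hcon
      push Not at hcon
      exact h1 (funext hcon)
    have hzx : (Pi.single k (cq (Dg4_ep b) (Bᵀ * h.map σ * Z₀ * B) k)⁻¹ : Fin 3 → ℂ) ⬝ᵥ
        cq (Dg4_ep b) (Bᵀ * h.map σ * Z₀ * B) = 1 := by
      rw [single_dotProduct, inv_mul_cancel₀ hk]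
    generalize (Pi.single k (cq (Dg4_ep b) (Bᵀ * h.map σ * Z₀ * B) k)⁻¹ : Fin 3 → ℂ) = z at hzx
    obtain ⟨A, hA, hA1, -⟩ := hq.2.2.2.1 z
    obtain ⟨W, hW, hWA⟩ := Dg4_tr_back hH hB hA
    refine ⟨(W * (Y * Z₀ - Z₀ * Y) - (Y * Z₀ - Z₀ * Y) * W) +
      (z ⬝ᵥ cq (Dg4_ep b) (Bᵀ * h.map σ * Y * B)) • Z₀,
      𝔟.add_mem (hbr _ (hbr _ hZ₀ Y hY) W hW) (𝔟.smul_mem _ hZ₀), ?_⟩
    rw [Dg4_u4_eq hm, Matrix.mul_add, Matrix.add_mul, Matrix.mul_smul, Matrix.smul_mul, Dg4_cq_add,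
      Dg4_cq_smul, Dg4_tr_br hB W, hWA, hq.2.2.1 _ _ hA (Dg4_tr_skew hH (hY.bracket (hb _ hZ₀))),
      Dg4_tr_br hB Y, hq.2.2.1 _ _ (Dg4_tr_skew hH hY) (Dg4_tr_skew hH (hb _ hZ₀)), hA1, Dg4_cross,
      hzx, one_smul, sub_add_cancel]
  · have h1 := KSP.ideal_top (by omega) (bil (CoreR.GR h σ)) (bil_symm hG) (bil_nd hσ hnd)
      (𝔟.map (Matrix.toLin' : Matrix (Fin m) (Fin m) ℂ ≃ₗ[ℂ] _).toLinearMap) (by
        rintro _ ⟨Z, hZ, rfl⟩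
        exact skw_of_skP hσ (hb Z hZ)) (by
        rintro _ ⟨Z, hZ, rfl⟩ C hC
        refine ⟨_, hbr Z hZ _ (skP_of_skw hσ hC), ?_⟩
        show Matrix.toLin' _ = _
        rw [map_sub, Matrix.toLin'_mul, Matrix.toLin'_mul, Matrix.toLin'_toMatrix']
        rfl) (Matrix.toLin' Z₀) ⟨Z₀, hZ₀, rfl⟩ (fun h2 => h0 ((Dg4_un_zero hm).2
          ((LinearEquiv.map_eq_zero_iff _).1 h2))) (Matrix.toLin' Y) (skw_of_skP hσ hY)
    obtain ⟨Z, hZ, hZY⟩ := h1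
    have e : Z = Y := Matrix.toLin'.injective hZY
    exact ⟨Z, hZ, by rw [e]⟩

/-- links at one place -/
theorem Dg4_same (hQ : St_Qcq) (hH : (h.map σ)ᵀ = h.map σ) (hB : Bᵀ * h.map σ * B = 1)
    (b b' : Bool) (hl : ∀ Y, SkP h σ Y → Dg4_u (h.map σ) B b Y = 0 → Dg4_u (h.map σ) B b' Y = 0)
    {X X' : Matrix (Fin m) (Fin m) ℂ} (he : Dg4_u (h.map σ) B b X = Dg4_u (h.map σ) B b X') :
    Dg4_u (h.map σ) B b' X = Dg4_u (h.map σ) B b' X' := by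
  by_cases hm : m = 4
  · by_cases hbb : b = b'
    · subst hbb
      exact he
    · exfalso
      have hep : Dg4_ep b = -Dg4_ep b' := by
        cases b <;> cases b' <;> simp [Dg4_ep] at hbb ⊢
      obtain ⟨A, hA, hA1, hA2⟩ := (hQ m (Or.inr hm) _ (Dg4_ep_sq b')).2.2.2.1 ![1, 0, 0]
      obtain ⟨Z, hZ, hZA⟩ := Dg4_tr_back hH hB hA
      have h1 := hl Z hZ ((Dg4_u4_zero hm).2 (by rw [hZA, hep]; exact hA2 hm))
      rw [Dg4_u4_zero hm, hZA, hA1] at h1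
      have h2 := congrFun h1 0
      simp at h2
  · rw [Dg4_un_eq hm] at he
    rw [he]

/-- the components for `m = 3`, `m = 4` -/
theorem Dg4_u34 (hQ : St_Qcq) (hH : (h.map σ)ᵀ = h.map σ) (hB : Bᵀ * h.map σ * B = 1)
    (hm : m = 3 ∨ m = 4) (b : Bool) {Z : Matrix (Fin m) (Fin m) ℂ} (hZ : SkP h σ Z) :
    Dg4_u (h.map σ) B b Z = 0 ↔ cf (Dg4_ep b) h σ B Z = 0 := by
  rcases hm with hm | hm
  · have hm4 : m ≠ 4 := by omega
    rw [Dg4_un_zero hm4]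
    constructor
    · rintro rfl
      exact map_zero (Dg4_cl (Dg4_ep b) (h.map σ) B)
    · intro h0
      exact Dg4_tr_zero hB ((hQ m (Or.inl hm) _ (Dg4_ep_sq b)).2.2.2.2 _ (Dg4_tr_skew hH hZ) h0
        (fun h4 => absurd h4 hm4))
  · exact Dg4_u4_zero hm

theorem Dg4_u34_eq (hQ : St_Qcq) (hH : (h.map σ)ᵀ = h.map σ) (hB : Bᵀ * h.map σ * B = 1)
    (hm : m = 3 ∨ m = 4) (b : Bool) {Z Z' : Matrix (Fin m) (Fin m) ℂ} (hZ : SkP h σ Z)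
    (hZ' : SkP h σ Z') :
    Dg4_u (h.map σ) B b Z = Dg4_u (h.map σ) B b Z' ↔
      cf (Dg4_ep b) h σ B Z = cf (Dg4_ep b) h σ B Z' := by
  have h1 : SkP h σ (Z - Z') := by
    have h2 := hZ.add (hZ'.smul (-1))
    rwa [neg_one_smul, ← sub_eq_add_neg] at h2
  have h2 := Dg4_u34 hQ hH hB hm b h1
  have h3 : cf (Dg4_ep b) h σ B (Z - Z') = cf (Dg4_ep b) h σ B Z - cf (Dg4_ep b) h σ B Z' :=
    map_sub (Dg4_cl (Dg4_ep b) (h.map σ) B) Z Z'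
  rw [map_sub, h3, sub_eq_zero, sub_eq_zero] at h2
  exact h2

/-- both components together determine a skew matrix -/
theorem Dg4_inj (hQ : St_Qcq) (hH : (h.map σ)ᵀ = h.map σ) (hB : Bᵀ * h.map σ * B = 1)
    {Z Z' : Matrix (Fin m) (Fin m) ℂ} (hZ : SkP h σ Z) (hZ' : SkP h σ Z')
    (he : ∀ b, Dg4_u (h.map σ) B b Z = Dg4_u (h.map σ) B b Z') : Z = Z' := by
  by_cases hm : m = 4
  · have h1 : SkP h σ (Z - Z') := by
      have h2 := hZ.add (hZ'.smul (-1))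
      rwa [neg_one_smul, ← sub_eq_add_neg] at h2
    have h3 : ∀ b, cq (Dg4_ep b) (Bᵀ * h.map σ * (Z - Z') * B) = 0 := by
      intro b
      rw [← Dg4_u4_zero hm, map_sub, he b, sub_self]
    have h4 := (hQ m (Or.inr hm) 1 (one_mul 1)).2.2.2.2 _ (Dg4_tr_skew hH h1) (h3 true)
      (fun _ => h3 false)
    exact sub_eq_zero.1 (Dg4_tr_zero hB h4)
  · exact (Dg4_un_eq hm).1 (he true)

/-- four independent skew matrices -/
theorem Dg4_indep (hH : (h.map σ)ᵀ = h.map σ) (hB : Bᵀ * h.map σ * B = 1) (hm : 5 ≤ m) :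
    ∃ Z : Fin 4 → Matrix (Fin m) (Fin m) ℂ, (∀ a, SkP h σ (Z a)) ∧
      ∀ x : Fin 4 → ℂ, ∑ a, x a • Z a = 0 → x = 0 := by
  let o : Fin m := ⟨0, by omega⟩
  let p : Fin 4 → Fin m := fun a => ⟨(a : ℕ) + 1, by omega⟩
  have hpo : ∀ a, p a ≠ o := fun a ha => by
    have h1 := congrArg Fin.val ha
    simp [p, o] at h1
  have hpi : ∀ a a', p a = p a' → a = a' := fun a a' ha => by
    have h1 := congrArg Fin.val ha
    simp only [p] at h1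
    exact Fin.ext (by omega)
  have hA : ∀ a, (Matrix.single o (p a) (1 : ℂ) - Matrix.single (p a) o 1)ᵀ =
      -(Matrix.single o (p a) (1 : ℂ) - Matrix.single (p a) o 1) := by
    intro a
    rw [Matrix.transpose_sub, Matrix.transpose_single, Matrix.transpose_single, neg_sub]
  choose Z hZ hZA using fun a => Dg4_tr_back hH hB (hA a)
  refine ⟨Z, hZ, fun x hx => ?_⟩
  have h1 : ∑ a, x a • (Matrix.single o (p a) (1 : ℂ) - Matrix.single (p a) o 1) = 0 := by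
    calc ∑ a, x a • (Matrix.single o (p a) (1 : ℂ) - Matrix.single (p a) o 1)
        = ∑ a, x a • (Bᵀ * h.map σ * Z a * B) := Finset.sum_congr rfl fun a _ => by rw [hZA a]
      _ = Bᵀ * h.map σ * (∑ a, x a • Z a) * B := by
          rw [Finset.mul_sum, Finset.sum_mul]
          refine Finset.sum_congr rfl fun a _ => ?_
          rw [Matrix.mul_smul, Matrix.smul_mul]
      _ = 0 := by rw [hx, mul_zero, zero_mul]
  funext a'
  have h2 := congrFun (congrFun h1 o) (p a')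
  rw [Matrix.sum_apply, Finset.sum_eq_single a'] at h2
  · rw [Matrix.smul_apply, Matrix.sub_apply, Matrix.single_apply_same,
      Matrix.single_apply_of_row_ne (hpo a'), sub_zero, smul_eq_mul, mul_one] at h2
    exact h2
  · intro a _ haa
    rw [Matrix.smul_apply, Matrix.sub_apply, Matrix.single_apply_of_row_ne (hpo a), sub_zero,
      Matrix.single_apply_of_col_ne _ _ (fun h3 => haa (hpi _ _ h3)), smul_zero]
  · intro h3
    exact absurd (Finset.mem_univ a') h3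

/-- four vectors of `ℂ³` are dependent -/
theorem Dg4_dep (v : Fin 4 → Fin 3 → ℂ) : ∃ x : Fin 4 → ℂ, x ≠ 0 ∧ ∑ a, x a • v a = 0 := by
  have h1 : LinearMap.ker (Fintype.linearCombination ℂ v) ≠ ⊥ :=
    LinearMap.ker_ne_bot_of_finrank_lt (by simp)
  obtain ⟨x, hx, hx0⟩ := Submodule.exists_mem_ne_zero_of_ne_bot h1
  refine ⟨x, hx0, ?_⟩
  rw [LinearMap.mem_ker, Fintype.linearCombination_apply] at hx
  exact hx

end place

/-! ### The theorem -/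

theorem thm_Dg4 (hFrm : St_Frm) (hQcq : St_Qcq) (hRpa : St_Rpa) (hLn4 : St_Ln4) (hFt4 : St_Ft4)
    (hLq4 : St_Lq4) : St_Dg4 := by
  intro I _ _ n κ _ _ ϖ P K _ _ c m h t k γ σ₀ H Z N hZ hZN hN hN0 hinj hcomm
  classical
  have hG : ∀ i, (CoreR.GR (h i) (σ₀ i))ᵀ = CoreR.GR (h i) (σ₀ i) := fun i =>
    CoreR.GR_tr (H.S i).conj (H.S i).herm (H.real i (σ₀ i))
  have hH : ∀ i, ((h i).map (σ₀ i))ᵀ = (h i).map (σ₀ i) := by
    intro i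
    ext a b
    rw [Matrix.transpose_apply, Matrix.map_apply, Matrix.map_apply, ← (H.S i).herm a b,
      ← (H.S i).conj, H.real i]
  have hdet : ∀ i, IsUnit ((h i).map (σ₀ i)).det := by
    intro i
    have h1 : ((h i).map (σ₀ i)).det = σ₀ i (h i).det := (RingHom.map_det (σ₀ i) (h i)).symm
    rw [h1, isUnit_iff_ne_zero]
    exact (map_ne_zero (σ₀ i)).2 (H.S i).nd
  choose B hB using fun i => hFrm (m i) ((h i).map (σ₀ i)) (hH i) (hdet i)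
  let R : Submodule ℂ (∀ p : PL K, Matrix (Fin (m p.1)) (Fin (m p.1)) ℂ) :=
    { carrier := RR0 n P h t γ σ₀
      add_mem' := by
        rintro M M' hM hM'
        refine ⟨Submodule.add_mem _ hM.1 hM'.1, fun p hp => ?_⟩
        rw [Pi.add_apply, hM.2 p hp, hM'.2 p hp, add_zero]
      zero_mem' := ⟨Submodule.zero_mem _, fun p _ => rfl⟩
      smul_mem' := by
        rintro r M hM
        refine ⟨Submodule.smul_mem _ r hM.1, fun p hp => ?_⟩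
        rw [Pi.smul_apply, hM.2 p hp, smul_zero] }
  have hR : ∀ M, M ∈ R ↔ M ∈ RR0 n P h t γ σ₀ := fun _ => Iff.rfl
  have hRsk : ∀ M ∈ R, ∀ i, SkP (h i) (σ₀ i) (M ⟨i, σ₀ i⟩) := fun M hM i => hM.1.1 ⟨i, σ₀ i⟩
  have hRbr : ∀ M ∈ R, ∀ M' ∈ R, M * M' - M' * M ∈ R := by
    intro M hM M' hM'
    refine ⟨RRE_bracket hM.1 hM'.1, fun p hp => ?_⟩
    show M p * M' p - M' p * M p = 0
    rw [hM.2 p hp, hM'.2 p hp, Matrix.mul_zero, sub_zero]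
  have hcore : ∀ i Y, SkP (h i) (σ₀ i) Y → ∃ M ∈ R, M ⟨i, σ₀ i⟩ = Y := by
    intro i Y hY
    obtain ⟨M, hM, hMA, hM0⟩ := coreB n H.pi P H.S γ H.B H.A H.nd H.real σ₀ H.sig H.defi H.T
      H.Tg Hall5_ i (H.ne i) (H.m3 i) (H.m5 i) Y hY
    exact ⟨M, ⟨hM, hM0⟩, hMA⟩
  let cc : ∀ q : I × Bool, (∀ p : PL K, Matrix (Fin (m p.1)) (Fin (m p.1)) ℂ) →ₗ[ℂ]
      (Matrix (Fin (m q.1)) (Fin (m q.1)) ℂ × (Fin 3 → ℂ)) := fun q =>
    Dg4_u ((h q.1).map (σ₀ q.1)) (B q.1) q.2 ∘ₗ LinearMap.proj (⟨q.1, σ₀ q.1⟩ : PL K)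
  have hcc : ∀ q M, cc q M = Dg4_u ((h q.1).map (σ₀ q.1)) (B q.1) q.2 (M ⟨q.1, σ₀ q.1⟩) :=
    fun _ _ => rfl
  -- no links between `m = 4` and `m ≥ 5`
  have hno : ∀ (i j : I) (b b' : Bool), m i = 4 → 5 ≤ m j →
      (∀ Y ∈ R, cc (i, b) Y = 0 → cc (j, b') Y = 0) → False := by
    intro i j b b' hi hj hl
    obtain ⟨Y, hY, hYi⟩ := Dg4_indep (hH j) (hB j) hj
    choose M hM hMY using fun a => hcore j (Y a) (hY a)
    obtain ⟨x, hx0, hx⟩ := Dg4_dep (fun a => cq (Dg4_ep b)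
      ((B i)ᵀ * (h i).map (σ₀ i) * (M a ⟨i, σ₀ i⟩) * B i))
    have h1 : cc (i, b) (∑ a, x a • M a) = 0 := by
      rw [map_sum]
      have h2 : ∀ a, cc (i, b) (x a • M a) = (0, x a • cq (Dg4_ep b)
          ((B i)ᵀ * (h i).map (σ₀ i) * (M a ⟨i, σ₀ i⟩) * B i)) := by
        intro a
        rw [map_smul, hcc, Dg4_u4 hi, Prod.smul_mk, smul_zero]
      rw [Finset.sum_congr rfl fun a _ => h2 a]
      have h3 : (∑ a, ((0 : Matrix (Fin (m i)) (Fin (m i)) ℂ), x a • cq (Dg4_ep b)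
          ((B i)ᵀ * (h i).map (σ₀ i) * (M a ⟨i, σ₀ i⟩) * B i))) = (0, 0) := by
        rw [Prod.ext_iff, Prod.fst_sum, Prod.snd_sum]
        exact ⟨Finset.sum_const_zero, hx⟩
      exact h3
    have h2 := hl _ (R.sum_mem fun a _ => R.smul_mem _ (hM a)) h1
    rw [hcc, Dg4_un_zero (by show m j ≠ 4; omega)] at h2
    have h3 : (∑ a, x a • M a) ⟨j, σ₀ j⟩ = ∑ a, x a • Y a := by
      rw [Finset.sum_apply]
      refine Finset.sum_congr rfl fun a _ => ?_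
      rw [Pi.smul_apply, hMY a]
    have h4 : (∑ a, x a • M a) ⟨j, σ₀ j⟩ = 0 := h2
    rw [h3] at h4
    exact hx0 (hYi x h4)
  obtain ⟨M, hM, hMq⟩ := hRpa (∀ p : PL K, Matrix (Fin (m p.1)) (Fin (m p.1)) ℂ) R hRbr (I × Bool)
    (fun q => Matrix (Fin (m q.1)) (Fin (m q.1)) ℂ × (Fin 3 → ℂ)) cc
    (by
      rintro ⟨i, b⟩ X hX Y hY h0
      rw [hcc] at h0 ⊢
      exact Dg4_ideal0 hQcq (hH i) (hB i) b (hRsk X hX i) (hRsk Y hY i) h0)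
    (by
      rintro ⟨i, b⟩
      obtain ⟨Z₁, Z₂, hZ₁, hZ₂, h12⟩ := Dg4_noncomm hQcq (H.real i (σ₀ i)) (H.S i).nd (hG i) (hH i)
        (hB i) (H.m3 i) b
      obtain ⟨M₁, hM₁, hMZ₁⟩ := hcore i Z₁ hZ₁
      obtain ⟨M₂, hM₂, hMZ₂⟩ := hcore i Z₂ hZ₂
      refine ⟨M₁, hM₁, M₂, hM₂, ?_⟩
      rw [hcc]
      show Dg4_u ((h i).map (σ₀ i)) (B i) b (M₁ ⟨i, σ₀ i⟩ * M₂ ⟨i, σ₀ i⟩ -
        M₂ ⟨i, σ₀ i⟩ * M₁ ⟨i, σ₀ i⟩) ≠ 0
      rw [hMZ₁, hMZ₂]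
      exact h12)
    (by
      rintro ⟨i, b⟩ 𝔞 h𝔞 hbr ⟨X, hX, hX0⟩ Y hY
      obtain ⟨W, ⟨M, hM, hMW⟩, hWY⟩ := Dg4_simple hQcq (H.real i (σ₀ i)) (H.S i).nd (hG i) (hH i)
        (hB i) (H.m3 i) b (𝔞.map (LinearMap.proj (⟨i, σ₀ i⟩ : PL K) :
          (∀ p : PL K, Matrix (Fin (m p.1)) (Fin (m p.1)) ℂ) →ₗ[ℂ] _)) (by
          rintro _ ⟨M, hM, rfl⟩
          exact hRsk M (h𝔞 hM) i) (by
          rintro _ ⟨M, hM, rfl⟩ V hV
          obtain ⟨M', hM', rfl⟩ := hcore i V hV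
          exact ⟨M' * M - M * M', hbr M hM M' hM', rfl⟩) (Z₀ := X ⟨i, σ₀ i⟩) ⟨X, hX, rfl⟩ hX0
        (hRsk Y hY i)
      refine ⟨M, hM, ?_⟩
      rw [hcc, hcc]
      rw [← hMW] at hWY
      exact hWY)
    (fun q => Dg4_u ((h q.1).map (σ₀ q.1)) (B q.1) q.2 (N q.1 (σ₀ q.1)))
    (by
      rintro ⟨i, b⟩
      obtain ⟨M, hM, hMN⟩ := hcore i (N i (σ₀ i)) (hN i (σ₀ i))
      refine ⟨M, hM, ?_⟩
      rw [hcc]
      show Dg4_u ((h i).map (σ₀ i)) (B i) b (M ⟨i, σ₀ i⟩) = _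
      rw [hMN])
    (by
      rintro ⟨i, b⟩ ⟨j, b'⟩ hl X hX hXD
      rw [hcc] at hXD ⊢
      by_cases hij : i = j
      · subst hij
        refine Dg4_same hQcq (hH i) (hB i) b b' ?_ hXD
        intro V hV hV0
        obtain ⟨M', hM', rfl⟩ := hcore i V hV
        exact (hl M' hM').1 hV0
      · have hi3 := H.m3 i
        have hj3 := H.m3 j
        by_cases h34 : (m i = 3 ∨ m i = 4) ∧ (m j = 3 ∨ m j = 4)
        · have h1 := hLq4 I n κ ϖ P K c m h t k γ σ₀ H i j h34.1 h34.2 (Dg4_ep b) (Dg4_ep b')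
            (Dg4_ep_or b) (Dg4_ep_or b') (B i) (B j) (hB i) (hB j) (fun M' hM' =>
              ((Dg4_u34 hQcq (hH i) (hB i) h34.1 b (hRsk M' hM' i)).symm.trans (hl M' hM')).trans
                (Dg4_u34 hQcq (hH j) (hB j) h34.2 b' (hRsk M' hM' j)))
          have h2 := h1.2 Z N hZ hZN hN hN0 (hcomm i j) X hX
            ((Dg4_u34_eq hQcq (hH i) (hB i) h34.1 b (hRsk X hX i) (hN i (σ₀ i))).1 hXD)
          exact (Dg4_u34_eq hQcq (hH j) (hB j) h34.2 b' (hRsk X hX j) (hN j (σ₀ j))).2 h2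
        · by_cases hi4 : m i = 4
          · have hj5 : 5 ≤ m j := by omega
            exact (hno i j b b' hi4 hj5 fun V hV hV0 => (hl V hV).1 hV0).elim
          · by_cases hj4 : m j = 4
            · have hi5 : 5 ≤ m i := by omega
              exact (hno j i b' b hj4 hi5 fun V hV hV0 => (hl V hV).2 hV0).elim
            · obtain ⟨f, hf, hf0⟩ := hLn4 I n κ ϖ P K c m h t k γ σ₀ H i j hij hi4 hj4 (by
                intro M' hM'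
                have h1 := hl M' hM'
                rw [hcc, hcc] at h1
                exact (Dg4_un_zero hi4).symm.trans (h1.trans (Dg4_un_zero hj4)))
              have h2 := hFt4 I n κ ϖ P K c m h t k γ σ₀ H Z N hZ hZN hN hN0 hinj i j hj4 f hf hf0
                (hcomm i j f hf) X hX ((Dg4_un_eq hi4).1 hXD)
              exact (Dg4_un_eq hj4).2 h2)
  obtain ⟨⟨hM1, X, hX, hX2, hXM⟩, hM2⟩ := hM
  refine ⟨X, hX, hX2, ?_⟩
  funext i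
  refine eq_of_act (H.S i).conj (H.S i).herm (H.S i).nd (H.S i).cliff
    (mem_bvE n P i (H.S i) γ X hX hX2 _ (hXM i)) (hZ i) (hXM i) ?_
  have e : (fun σ => M ⟨i, σ⟩) = N i := by
    funext σ
    by_cases hσ : σ = σ₀ i
    · subst hσ
      exact Dg4_inj hQcq (hH i) (hB i) (hM1 ⟨i, σ₀ i⟩) (hN i (σ₀ i)) (fun b => hMq (i, b))
    · rw [hN0 i σ hσ]
      exact hM2 ⟨i, σ⟩ hσ
  rw [e]
  exact hZN i

end Pool.Agent.KQ4
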