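import Pool.Agent.KQ4.St
import Pool.Agent.KTW.Klz

/-!
# KQ4 [Kz4]: the Hodge projectors kill the Grothendieck forms, all real fields
-/

set_option autoImplicit false

namespace Pool.Agent.KQ4

open Module Matrix NumberField Pool.Agent.Helper7 Pool.Agent.KS Pool.Agent.Ball Pool.Agent.KSE
  Pool.Agent.Helper28.GPC Pool.Agent.KSR Pool.Agent.KSV Pool.Agent.K3P Pool.Agent.KTP
  Pool.Agent.KTW
open Pool.Agent.GPC (AbVar)

/-- **Kz4** -/
theorem thm_Kz4 (hDg4 : St_Dg4) (hKil : St_Kil) : St_Kz4 := by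
  intro I _ _ A K _ _ c m S hg hAdm hI n k α hB hA
  have hϖ := Complex.two_pi_I_ne_zero
  have hκ : ∀ i, Nonempty (Fin (A i).g ⊕ Fin (A i).g) := fun i =>
    ⟨Sum.inl ⟨0, Nat.pos_of_ne_zero (hg i)⟩⟩
  choose σ₀ x hx hx1 hx2 using fun i => (S i).hodge
  have hnd := fun i => k3_nd (S i).conjugation (S i).hermitian (hx i)
  have MM := fun i => mde (A i) (S i) (hnd i)
  have hZ : ∀ i, (1 / 2 : ℂ) • 1 - hod (A i) ∈ bvS (lt (A i) (S i)) := by
    intro i
    rw [hod_eq (A i) (S i) (hnd i) (σ₀ i) (x i) (k3_ne (hx i)) (hx1 i) (hx2 i)]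
    rw [sub_sub_cancel]
    exact Submodule.smul_mem _ _ (tau_mem_bvS _ _ _ _)
  rcases hI with hI | hI
  · refine Klz_sum n α _ fun i => ?_
    exact hKil A S hg hAdm (Or.inl hI) (fun i j hij => absurd (Subsingleton.elim i j) hij) n k α
      hB hA i _ (hZ i)
  rcases Nat.eq_zero_or_pos k with rfl | hk
  · apply MultilinearMap.ext
    intro v
    rw [actForm_apply]
    exact Finset.sum_eq_zero fun r _ => Fin.elim0 r
  have hc : ∀ i, c i = RingHom.id (K i) := hI
  have hreal : ∀ i (σ : K i →+* ℂ), cj σ = σ := by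
    intro i σ
    ext y
    rw [(S i).conjugation, hc i]
    rfl
  have hxx : ∀ i, pr (S i).h (σ₀ i) (x i) (x i) = 0 := by
    intro i
    have h1 := tau_pair (MM i).conj (MM i).cliff (σ₀ i) (x i) (x i)
    rw [hreal i (σ₀ i)] at h1
    have h3 : tau (ts (lt (A i) (S i)) (σ₀ i)) (x i) * tau (ts (lt (A i) (S i)) (σ₀ i)) (x i) = 0 := by
      apply LinearMap.ext
      intro v
      have hev : ∀ v, tau (ts (lt (A i) (S i)) (σ₀ i)) (x i) v =
          ∑ a, x i a • (S i).e (σ₀ i) a v := by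
        intro v
        rw [tau_apply, LinearMap.sum_apply]
        refine Finset.sum_congr rfl fun a _ => ?_
        rw [LinearMap.smul_apply, ts_lt]
        rfl
      show tau (ts (lt (A i) (S i)) (σ₀ i)) (x i) (tau (ts (lt (A i) (S i)) (σ₀ i)) (x i) v) = 0
      rw [hev (tau (ts (lt (A i) (S i)) (σ₀ i)) (x i) v)]
      apply hx2
      rw [hev]
      exact hx1 i v
    rw [h3, add_zero] at h1
    rcases smul_eq_zero.mp h1.symm with h4 | h4
    · simpa using h4
    · exact absurd h4 one_ne_zero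
  have h35 : ∀ i, 3 ≤ m i ∧ Ok (pData (A i)) (K i) (m i) := by
    intro i
    rcases hAdm i with ⟨-, hm, h5⟩ | ⟨hc', -⟩
    · refine ⟨hm, ?_⟩
      rcases h5 with h1 | ⟨h1, B, hB, f, hf, hf0⟩
      · exact Or.inl h1
      · exact Or.inr ⟨h1, Pool.Agent.KSV.thm_Surf Pool.Agent.KT.thm_KT B (A i) hB f hf hf0⟩
    · exact absurd (hc i) hc'
  obtain ⟨n', k', γ, hγB, hγA, hγ1, hγ2⟩ := exists_gam_allE (fun i => pData (A i)) MM n hk α hB hA
  choose N hN hNs using fun i => exists_act_of_mem (MM i).conj (MM i).herm (MM i).nd (MM i).cliff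
    _ (hZ i)
  obtain ⟨X, hX, hX2, hX1⟩ := hDg4 I n' (fun i => Fin (A i).g ⊕ Fin (A i).g) _
    (fun i => pData (A i)) K c m (fun i => (S i).h) (fun i => lt (A i) (S i)) k' γ σ₀
    { pi := hϖ
      S := MM
      B := hγB
      A := hγA
      nd := fun i => hnd_pData (A i)
      real := hreal
      sig := fun i => k3_sig2 (S i).conjugation (S i).hermitian (hx i) (hreal i (σ₀ i)) (hxx i)
      defi := fun i σ hσ => k3_def (S i).conjugation (S i).hermitian (hx i) σ hσ (by
        rw [hreal i (σ₀ i)]; exact hσ)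
      T := fun X hX => (hγ1 X hX).2
      Tg := fun g hg => (hγ2 g hg).2
      ne := hκ
      m3 := fun i => (h35 i).1
      m5 := fun i => (h35 i).2 }
    (fun i => (1 / 2 : ℂ) • 1 - hod (A i)) N hZ hN
    (fun i σ => by
      have h1 := hNs i σ
      rw [hreal i σ] at h1
      exact h1)
    (fun i σ hσ => Klz_supp (S i) (hg i) (hc i) (σ₀ i) (x i) (k3_ne (hx i)) (hnd i) (hx1 i)
      (hx2 i) (N i) (hN i) σ hσ)
    (by
      intro i u hu
      have h1 : (1 / 2 : ℂ) • u - hod (A i) u = 0 := hu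
      have h2 : hod (A i) u = (1 / 2 : ℂ) • u := (sub_eq_zero.mp h1).symm
      have h3 := hod_idem (A i) u
      rw [h2, map_smul, h2, smul_smul] at h3
      have h4 : ((1 / 2 : ℂ) * (1 / 2) - 1 / 2) • u = 0 := by
        rw [sub_smul, h3, sub_self]
      rcases smul_eq_zero.mp h4 with h5 | h5
      · norm_num at h5
      · exact h5)
    (by
      intro i j f hf v
      show (1 / 2 : ℂ) • f v - hod (A j) (f v) = f ((1 / 2 : ℂ) • v - hod (A i) v)
      rw [map_sub, map_smul, hod_comm f hf])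
  have h3 := ((hγ1 X hX).1).form
  rw [hX2, mul_zero, zero_smul, hX1] at h3
  exact h3

end Pool.Agent.KQ4
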