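import Pool.Agent.KQ4.St

/-!
# KQ4 [Lq4]: links between components of dimension three (helper41)
-/

set_option autoImplicit false

namespace Pool.Agent.KQ4

open Module Matrix NumberField Pool.Agent.Helper7 Pool.Agent.KS Pool.Agent.Ball Pool.Agent.KSE
  Pool.Agent.Helper28.GPC Pool.Agent.KSR Pool.Agent.KSV Pool.Agent.K3P Pool.Agent.KTP
  Pool.Agent.KTW

private lemma Lq4_en_sub {m : ℕ} (A A' : Matrix (Fin m) (Fin m) ℂ) (a b : ℕ) :
    en (A - A') a b = en A a b - en A' a b := by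
  unfold en
  split_ifs
  · rfl
  · rw [sub_zero]

private lemma Lq4_cq_sub (ε : ℂ) {m : ℕ} (A A' : Matrix (Fin m) (Fin m) ℂ) :
    cq ε (A - A') = cq ε A - cq ε A' := by
  unfold cq
  simp only [Lq4_en_sub]
  funext k
  fin_cases k
  · change _ = (en A 2 1 + ε * en A 0 3) - (en A' 2 1 + ε * en A' 0 3)
    change (en A 2 1 - en A' 2 1) + ε * (en A 0 3 - en A' 0 3) = _
    ring
  · change (en A 0 2 - en A' 0 2) + ε * (en A 1 3 - en A' 1 3) =
      (en A 0 2 + ε * en A 1 3) - (en A' 0 2 + ε * en A' 1 3)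
    ring
  · change (en A 1 0 - en A' 1 0) + ε * (en A 2 3 - en A' 2 3) =
      (en A 1 0 + ε * en A 2 3) - (en A' 1 0 + ε * en A' 2 3)
    ring

private lemma Lq4_cf_sub (ε : ℂ) {K : Type} [Field K] {m : ℕ} (h : Matrix (Fin m) (Fin m) K)
    (σ : K →+* ℂ) (B M M' : Matrix (Fin m) (Fin m) ℂ) :
    cf ε h σ B (M - M') = cf ε h σ B M - cf ε h σ B M' := by
  unfold cf
  rw [Matrix.mul_sub, Matrix.sub_mul, Lq4_cq_sub]

private lemma Lq4_cf_zero (ε : ℂ) {K : Type} [Field K] {m : ℕ} (h : Matrix (Fin m) (Fin m) K)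
    (σ : K →+* ℂ) (B : Matrix (Fin m) (Fin m) ℂ) : cf ε h σ B 0 = 0 := by
  have h1 := Lq4_cf_sub ε h σ B 0 0
  rw [sub_self, sub_self] at h1
  exact h1

private lemma Lq4_sq {ε : ℂ} (hε : ε = 1 ∨ ε = -1) : ε * ε = 1 := by
  rcases hε with h | h
  · rw [h, one_mul]
  · rw [h]
    norm_num

/-- [LQ4] links between components of dimension three -/
theorem thm_Lq4 (hQlk : St_Qlk) (hQhm : St_Qhm) (hQdr : St_Qdr) : St_Lq4 := by
  intro I _ _ n κ _ _ ϖ P K _ _ c m h t k γ σ₀ H i j hmi hmj ε ε' hε hε' B B' hB hB' hlk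
  classical
  have hsym : ∀ l, (h l)ᵀ = h l := by
    intro l
    ext a b
    rw [Matrix.transpose_apply]
    apply (σ₀ l).injective
    rw [← (H.S l).herm a b, ← (H.S l).conj, H.real l]
  have hcore : ∀ l, l = i ∨ l = j → ∀ Z, SkP (h l) (σ₀ l) Z →
      ∃ M ∈ RRE n P h t γ, M ⟨l, σ₀ l⟩ = Z ∧ ∀ p : PL K, p.2 ≠ σ₀ p.1 → M p = 0 :=
    fun l _ Z hZ => coreB n H.pi P H.S γ H.B H.A H.nd H.real σ₀ H.sig H.defi H.T H.Tg Hall5_ l
      (H.ne l) (H.m3 l) (H.m5 l) Z hZ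
  obtain ⟨φ, C, C', g, hφ, hφ0, hC0, hC'0, hC, hC', hgb, hgx, hlast⟩ :=
    hQlk I K m h σ₀ hsym (fun l => (H.S l).nd) (RRE n P h t γ) (fun M hM => hM.1)
      (fun M hM M' hM' => RRE_bracket hM hM') (fun M hM τ => RRE_twist H.pi H.S H.B hM τ)
      i j hmi hmj hcore ε ε' (Lq4_sq hε) (Lq4_sq hε') B B' hB hB' hε hε'
      (fun M hM hM0 => hlk M ⟨hM, hM0⟩)
  have hκ := H.ne i
  have hκ' := H.ne j
  obtain ⟨F, hF0, hF1, hF2⟩ := hQhm (κ i) (κ j) (K i) (K j) (c i) (c j) (m i) (m j) (h i) (h j)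
    (t i) (t j) (H.S i).conj (H.S j).conj (H.S i).herm (H.S j).herm (H.S i).nd (H.S j).nd
    (H.S i).cliff (H.S j).cliff (H.real i) (H.real j) hmi hmj ε ε' (Lq4_sq hε) (Lq4_sq hε') φ hφ
    C C' g hC hC' hgb hgx
  have hFI : ∀ X : GG κ, IsInv n P γ X → X.2 = 0 → F ∘ₗ X.1 i = X.1 j ∘ₗ F := by
    intro X hX hX2
    obtain ⟨M, hMR, hMX⟩ := exists_famE H.S H.real H.T X hX hX2
    exact hF1 _ (mem_bvE n P i (H.S i) γ X hX hX2 _ (hMX i)) _ (hMX i) _
      (mem_bvE n P j (H.S j) γ X hX hX2 _ (hMX j)) _ (hMX j) (fun σ => hlast M hMR σ)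
  have hspan := hQdr I n κ ϖ H.pi P k γ H.B H.A i j F hFI
  refine ⟨?_, ?_⟩
  · by_contra hcon
    push Not at hcon
    apply hF0
    have hle : Submodule.span ℂ {f : (κ i → ℂ) →ₗ[ℂ] (κ j → ℂ) | IsDRB (P i) (P j) f} ≤ ⊥ := by
      rw [Submodule.span_le]
      intro f hf
      exact hcon f hf
    exact hle hspan
  · intro Z N hZ hZN _ hN0 hZc M hM hMN
    have hFZ : ∀ v, Z j (F v) = F (Z i v) := by
      refine Submodule.span_induction (p := fun f _ => ∀ v, Z j (f v) = f (Z i v)) ?_ ?_ ?_ ?_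
        hspan
      · intro f hf
        exact hZc f hf
      · intro v
        rw [LinearMap.zero_apply, LinearMap.zero_apply, map_zero]
      · intro f f' _ _ h1 h2 v
        rw [LinearMap.add_apply, LinearMap.add_apply, map_add, h1, h2]
      · intro a f _ h1 v
        rw [LinearMap.smul_apply, LinearMap.smul_apply, map_smul, h1]
    obtain ⟨hM1, hM2⟩ := hM
    obtain ⟨_, X, hX, hX2, hXM⟩ := mem_RRE.1 hM1
    have hXi := mem_bvE n P i (H.S i) γ X hX hX2 _ (hXM i)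
    have hXj := mem_bvE n P j (H.S j) γ X hX hX2 _ (hXM j)
    have h1 : F ∘ₗ (X.1 i - Z i) = (0 : Module.End ℂ (κ j → ℂ)) ∘ₗ F := by
      refine hF1 _ (Submodule.sub_mem _ hXi (hZ i)) _ ((hXM i).sub (hZN i)) _
        (Submodule.zero_mem _) _ ActM.zero ?_
      intro σ
      have h2 : cf ε (h i) σ (C σ) (M ⟨i, σ⟩ - N i σ) = 0 := by
        by_cases hσ : σ = σ₀ i
        · subst hσ
          rw [hC0, Lq4_cf_sub, hMN, sub_self]
        · rw [hN0 i σ hσ, hM2 ⟨i, σ⟩ hσ, sub_zero]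
          exact Lq4_cf_zero _ _ _ _
      change cf ε' (h j) (φ σ) (C' σ) 0 = g σ (cf ε (h i) σ (C σ) (M ⟨i, σ⟩ - N i σ))
      rw [h2, map_zero]
      exact Lq4_cf_zero _ _ _ _
    have h3 : (X.1 j - Z j) ∘ₗ F = 0 := by
      apply LinearMap.ext
      intro v
      have h4 : F (X.1 i v - Z i v) = 0 := LinearMap.congr_fun h1 v
      have h5 : F (X.1 i v) = X.1 j (F v) := LinearMap.congr_fun (hFI X hX hX2) v
      change X.1 j (F v) - Z j (F v) = 0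
      rw [← h5, hFZ, ← map_sub]
      exact h4
    have h6 := hF2 _ (Submodule.sub_mem _ hXj (hZ j)) _ ((hXM j).sub (hZN j)) h3 (σ₀ i)
    rw [hC'0, hφ0] at h6
    have h7 : cf ε' (h j) (σ₀ j) B' (M ⟨j, σ₀ j⟩ - N j (σ₀ j)) = 0 := h6
    rw [Lq4_cf_sub, sub_eq_zero] at h7
    exact h7

end Pool.Agent.KQ4
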