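import Pool.Agent.KQ4.St

/-!
# KQ4 [QAV]: averaging over quaternion groups
-/

set_option autoImplicit false

namespace Pool.Agent.KQ4

open Module Matrix

section

variable {S V V' : Type} [AddCommGroup V] [Module ℂ V] [AddCommGroup V'] [Module ℂ V']

/-- the unit vectors -/
def qe (a : Fin 3) : Fin 3 → ℂ := Pi.single a 1

lemma Qav_cross (a b : Fin 3) : crossProduct (qe a) (qe b) =
    if a = b then 0 else if b = a + 1 then qe (a + 2) else -qe (b + 2) := by
  rw [cross_apply]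
  fin_cases a <;> fin_cases b <;> ext r <;> fin_cases r <;> simp [qe]

lemma Qav_dot (a b : Fin 3) : qe a ⬝ᵥ qe b = if a = b then 1 else 0 := by
  rw [qe, qe, single_dotProduct, one_mul, Pi.single_apply]

/-- right multiplication -/
lemma Qav_right {s : S → (Fin 3 → ℂ) →ₗ[ℂ] Module.End ℂ V} {p : Module.End ℂ V} (h : QP s p)
    {f : V →ₗ[ℂ] V'} (hf : f ∘ₗ p = f) (σ : S) (x y : Fin 3 → ℂ) (v : V) :
    f (s σ x (s σ y v)) = (-(x ⬝ᵥ y) / 4) • f v + (1 / 2 : ℂ) • f (s σ (crossProduct x y) v) := by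
  have hfp : ∀ u, f (p u) = f u := fun u => LinearMap.congr_fun hf u
  have h1 : p (s σ x (s σ y v)) = (s σ x * s σ y * p) v := by
    have e : p * s σ x * s σ y = s σ x * s σ y * p := by
      rw [h.ps, mul_assoc, h.ps, mul_assoc]
    rw [← e]
    rfl
  have h2 : (s σ (crossProduct x y) * p) v = p (s σ (crossProduct x y) v) := by
    rw [← h.ps]
    rfl
  rw [← hfp (s σ x (s σ y v)), h1, h.mul, LinearMap.add_apply, LinearMap.smul_apply,
    LinearMap.smul_apply, h2, map_add, map_smul, map_smul, hfp, hfp]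

/-- left multiplication -/
lemma Qav_left {s' : S → (Fin 3 → ℂ) →ₗ[ℂ] Module.End ℂ V'} {p' : Module.End ℂ V'}
    (h : QP s' p') {f : V →ₗ[ℂ] V'} (hf : p' ∘ₗ f = f) (σ : S) (x y : Fin 3 → ℂ) (v : V) :
    s' σ x (s' σ y (f v)) = (-(x ⬝ᵥ y) / 4) • f v +
      (1 / 2 : ℂ) • s' σ (crossProduct x y) (f v) := by
  have hfp : p' (f v) = f v := LinearMap.congr_fun hf v
  have h1 := LinearMap.congr_fun (h.mul σ x y) (f v)
  rw [LinearMap.add_apply, LinearMap.smul_apply, LinearMap.smul_apply, Module.End.mul_apply,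
    Module.End.mul_apply, Module.End.mul_apply, hfp] at h1
  exact h1

/-- the average -/
noncomputable def QavA (s : (Fin 3 → ℂ) →ₗ[ℂ] Module.End ℂ V)
    (s' : (Fin 3 → ℂ) →ₗ[ℂ] Module.End ℂ V') (f : V →ₗ[ℂ] V') : V →ₗ[ℂ] V' :=
  f - (4 : ℂ) • ∑ a, s' (qe a) ∘ₗ f ∘ₗ s (qe a)

lemma QavA_apply (s : (Fin 3 → ℂ) →ₗ[ℂ] Module.End ℂ V)
    (s' : (Fin 3 → ℂ) →ₗ[ℂ] Module.End ℂ V') (f : V →ₗ[ℂ] V') (v : V) :
    QavA s s' f v = f v - (4 : ℂ) • (s' (qe 0) (f (s (qe 0) v)) + s' (qe 1) (f (s (qe 1) v)) +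
      s' (qe 2) (f (s (qe 2) v))) := by
  rw [QavA, LinearMap.sub_apply, LinearMap.smul_apply, LinearMap.sum_apply, Fin.sum_univ_three]
  rfl

lemma Qav_vec (x : Fin 3 → ℂ) : x = x 0 • qe 0 + x 1 • qe 1 + x 2 • qe 2 := by
  ext r
  fin_cases r <;> simp [qe]

/-- the properties of the maps in the induction -/
structure QavP (s : S → (Fin 3 → ℂ) →ₗ[ℂ] Module.End ℂ V) (p : Module.End ℂ V)
    (s' : S → (Fin 3 → ℂ) →ₗ[ℂ] Module.End ℂ V') (p' : Module.End ℂ V') (T : Finset S)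
    (f : V →ₗ[ℂ] V') : Prop where
  r : f ∘ₗ p = f
  l : p' ∘ₗ f = f
  c : ∀ σ ∈ T, ∀ x v, f (s σ x v) = s' σ x (f v)

variable {s : S → (Fin 3 → ℂ) →ₗ[ℂ] Module.End ℂ V} {p : Module.End ℂ V}
  {s' : S → (Fin 3 → ℂ) →ₗ[ℂ] Module.End ℂ V'} {p' : Module.End ℂ V'}

lemma QavP_comp (h : QP s p) {T : Finset S} {f : V →ₗ[ℂ] V'} (hf : QavP s p s' p' T f) {σ : S}
    (hσ : σ ∉ T) (x : Fin 3 → ℂ) : QavP s p s' p' T (f ∘ₗ s σ x) where
  r := by
    rw [LinearMap.comp_assoc]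
    have e : s σ x ∘ₗ p = p ∘ₗ s σ x := (h.ps σ x).symm
    rw [e, ← LinearMap.comp_assoc, hf.r]
  l := by rw [← LinearMap.comp_assoc, hf.l]
  c := fun ρ hρ y v => by
    have e : s σ x (s ρ y v) = s ρ y (s σ x v) :=
      LinearMap.congr_fun (h.cc σ ρ (fun h0 => hσ (h0 ▸ hρ)) x y) v
    show f (s σ x (s ρ y v)) = s' ρ y (f (s σ x v))
    rw [e, hf.c ρ hρ]

lemma QavP_avg (h : QP s p) (h' : QP s' p') {T : Finset S} {f : V →ₗ[ℂ] V'}
    (hf : QavP s p s' p' T f) {σ : S} (hσ : σ ∉ T) [DecidableEq S] :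
    QavP s p s' p' (insert σ T) (QavA (s σ) (s' σ) f) := by
  have hc := fun x => QavP_comp h hf hσ x
  have hp' : ∀ x w, p' (s' σ x w) = s' σ x (p' w) := fun x w =>
    LinearMap.congr_fun (h'.ps σ x) w
  have hp : ∀ x w, p (s σ x w) = s σ x (p w) := fun x w => LinearMap.congr_fun (h.ps σ x) w
  have hfp : ∀ u, f (p u) = f u := fun u => LinearMap.congr_fun hf.r u
  have hfp' : ∀ u, p' (f u) = f u := fun u => LinearMap.congr_fun hf.l u
  refine ⟨?_, ?_, ?_⟩
  · apply LinearMap.ext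
    intro v
    show QavA (s σ) (s' σ) f (p v) = _
    rw [QavA_apply, QavA_apply, ← hp, ← hp, ← hp, hfp, hfp, hfp, hfp]
  · apply LinearMap.ext
    intro v
    show p' (QavA (s σ) (s' σ) f v) = _
    rw [QavA_apply, map_sub, map_smul, map_add, map_add, hp', hp', hp', hfp', hfp', hfp', hfp']
  · intro ρ hρ x v
    rcases Finset.mem_insert.1 hρ with rfl | hρ
    · -- the new place
      have key : ∀ a v, QavA (s ρ) (s' ρ) f (s ρ (qe a) v) =
          s' ρ (qe a) (QavA (s ρ) (s' ρ) f v) := by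
        intro a v
        rw [QavA_apply, QavA_apply]
        simp only [map_sub, map_smul, map_add]
        simp only [Qav_right h hf.r, Qav_left h' hf.l, Qav_cross, Qav_dot]
        fin_cases a <;> simp <;> module
      rw [Qav_vec x]
      simp only [map_add, map_smul, LinearMap.add_apply, LinearMap.smul_apply, key]
    · have hne : ρ ≠ σ := fun h0 => hσ (h0 ▸ hρ)
      have e1 : ∀ y u, s σ y (s ρ x u) = s ρ x (s σ y u) := fun y u =>
        LinearMap.congr_fun (h.cc σ ρ hne.symm y x) u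
      have e2 : ∀ y u, s' σ y (s' ρ x u) = s' ρ x (s' σ y u) := fun y u =>
        LinearMap.congr_fun (h'.cc σ ρ hne.symm y x) u
      rw [QavA_apply, QavA_apply]
      simp only [map_sub, map_smul, map_add, e1, hf.c ρ hρ, e2]

/-- one of the averages is not zero -/
lemma Qav_ne (h : QP s p) (h' : QP s' p') {f : V →ₗ[ℂ] V'} (hr : f ∘ₗ p = f)
    (hl : p' ∘ₗ f = f) (σ : S) (h0 : QavA (s σ) (s' σ) f = 0)
    (ha : ∀ a, QavA (s σ) (s' σ) (f ∘ₗ s σ (qe a)) = 0) : f = 0 := by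
  apply LinearMap.ext
  intro v
  have e0 := LinearMap.congr_fun h0 v
  have e1 := fun a => LinearMap.congr_fun (ha a) (s σ (qe a) v)
  rw [QavA_apply, LinearMap.zero_apply] at e0
  simp only [QavA_apply, LinearMap.zero_apply, LinearMap.comp_apply] at e1
  have k0 := e1 0
  have k1 := e1 1
  have k2 := e1 2
  simp only [Qav_right h hr, Qav_cross, Qav_dot] at k0 k1 k2
  simp at k0 k1 k2
  simp only [Qav_cross, Qav_dot] at k0 k1 k2
  simp at k0 k1 k2
  rw [LinearMap.zero_apply]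
  linear_combination (norm := module) (1 / 4 : ℂ) • e0 - k0 - k1 - k2

end

theorem thm_Qav : St_Qav := by
  intro S V V' _ _ _ _ _ _ s p s' p' h h'
  -- a map to start with
  obtain ⟨v, hv⟩ : ∃ v, p v ≠ 0 := by
    by_contra h0
    push Not at h0
    exact h.ne (LinearMap.ext h0)
  obtain ⟨w, hw⟩ : ∃ w, p' w ≠ 0 := by
    by_contra h0
    push Not at h0
    exact h'.ne (LinearMap.ext h0)
  obtain ⟨l, hl⟩ : ∃ l : V →ₗ[ℂ] ℂ, l (p v) ≠ 0 := by
    by_contra h0
    push Not at h0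
    exact hv ((Module.forall_dual_apply_eq_zero_iff ℂ (p v)).1 h0)
  have hpp : ∀ u, p (p u) = p u := fun u => LinearMap.congr_fun h.pp u
  have hpp' : ∀ u, p' (p' u) = p' u := fun u => LinearMap.congr_fun h'.pp u
  have key : ∀ T : Finset S, ∃ f : V →ₗ[ℂ] V', f ≠ 0 ∧ QavP s p s' p' T f := by
    intro T
    induction T using Finset.induction_on with
    | empty =>
      refine ⟨(l ∘ₗ p).smulRight (p' w), fun h0 => ?_, ?_, ?_, ?_⟩
      · have h1 := LinearMap.congr_fun h0 v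
        rw [LinearMap.smulRight_apply, LinearMap.zero_apply] at h1
        exact (smul_ne_zero hl hw) h1
      · apply LinearMap.ext
        intro u
        show l (p (p u)) • p' w = l (p u) • p' w
        rw [hpp]
      · apply LinearMap.ext
        intro u
        show p' (l (p u) • p' w) = l (p u) • p' w
        rw [map_smul, hpp']
      · intro σ hσ
        exact absurd hσ (Finset.notMem_empty σ)
    | insert σ T hσ ih =>
      obtain ⟨f, hf0, hf⟩ := ih
      by_cases h0 : QavA (s σ) (s' σ) f = 0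
      · by_cases h1 : ∀ a, QavA (s σ) (s' σ) (f ∘ₗ s σ (qe a)) = 0
        · exact absurd (Qav_ne h h' hf.r hf.l σ h0 h1) hf0
        · push Not at h1
          obtain ⟨a, ha⟩ := h1
          exact ⟨_, ha, QavP_avg h h' (QavP_comp h hf hσ (qe a)) hσ⟩
      · exact ⟨_, h0, QavP_avg h h' hf hσ⟩
  obtain ⟨f, hf0, hf⟩ := key Finset.univ
  exact ⟨f, hf0, hf.r, hf.l, fun σ x => LinearMap.ext fun v => hf.c σ (Finset.mem_univ σ) x v⟩

end Pool.Agent.KQ4
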