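import Pool.Agent.KQ4.St

/-!
# KQ4: the algebra of three or four anticommuting involutions
-/

set_option autoImplicit false

namespace Pool.Agent.KQ4

open Module Matrix

/-- the linear map `s` -/
noncomputable def Qc1_s {𝓐 : Type} [Ring 𝓐] [Algebra ℂ 𝓐] (t0 t1 t2 : 𝓐) :
    (Fin 3 → ℂ) →ₗ[ℂ] 𝓐 where
  toFun x := (-(1 / 2 : ℂ)) • (x 0 • (t1 * t2) + x 1 • (t2 * t0) + x 2 • (t0 * t1))
  map_add' x y := by
    simp only [Pi.add_apply]
    module
  map_smul' c x := by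
    simp only [Pi.smul_apply, smul_eq_mul, RingHom.id_apply]
    module

theorem Qc1_s_apply {𝓐 : Type} [Ring 𝓐] [Algebra ℂ 𝓐] (t0 t1 t2 : 𝓐) (x : Fin 3 → ℂ) :
    Qc1_s t0 t1 t2 x =
      (-(1 / 2 : ℂ)) • (x 0 • (t1 * t2) + x 1 • (t2 * t0) + x 2 • (t0 * t1)) := rfl

theorem Qc1_mul {𝓐 : Type} [Ring 𝓐] [Algebra ℂ 𝓐] (t0 t1 t2 : 𝓐)
    (h0 : t0 * t0 = 1) (h1 : t1 * t1 = 1) (h2 : t2 * t2 = 1)
    (h10 : t1 * t0 = -(t0 * t1)) (h20 : t2 * t0 = -(t0 * t2)) (h21 : t2 * t1 = -(t1 * t2))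
    (x y : Fin 3 → ℂ) :
    Qc1_s t0 t1 t2 x * Qc1_s t0 t1 t2 y =
      (-(x ⬝ᵥ y) / 4) • (1 : 𝓐) + (1 / 2 : ℂ) • Qc1_s t0 t1 t2 (crossProduct x y) := by
  have a0 : ∀ z, t0 * (t0 * z) = z := fun z => by rw [← mul_assoc, h0, one_mul]
  have a1 : ∀ z, t1 * (t1 * z) = z := fun z => by rw [← mul_assoc, h1, one_mul]
  have a2 : ∀ z, t2 * (t2 * z) = z := fun z => by rw [← mul_assoc, h2, one_mul]
  have a10 : ∀ z, t1 * (t0 * z) = -(t0 * (t1 * z)) := fun z => by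
    rw [← mul_assoc, h10, neg_mul, mul_assoc]
  have a20 : ∀ z, t2 * (t0 * z) = -(t0 * (t2 * z)) := fun z => by
    rw [← mul_assoc, h20, neg_mul, mul_assoc]
  have a21 : ∀ z, t2 * (t1 * z) = -(t1 * (t2 * z)) := fun z => by
    rw [← mul_assoc, h21, neg_mul, mul_assoc]
  simp only [Qc1_s_apply, cross_apply, Matrix.cons_val_zero, Matrix.cons_val_one,
    Matrix.cons_val, dotProduct, Fin.sum_univ_three, add_mul, mul_add, smul_mul_assoc,
    mul_smul_comm, smul_add, mul_assoc, h0, h1, h2, h10, h20, h21, a0, a1, a2, a10, a20, a21,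
    neg_mul, mul_neg, mul_one, one_mul, smul_neg, neg_neg]
  module

theorem Qc1_mul_e {𝓐 : Type} [Ring 𝓐] [Algebra ℂ 𝓐] (t0 t1 t2 e : 𝓐)
    (h0 : t0 * t0 = 1) (h1 : t1 * t1 = 1) (h2 : t2 * t2 = 1)
    (h10 : t1 * t0 = -(t0 * t1)) (h20 : t2 * t0 = -(t0 * t2)) (h21 : t2 * t1 = -(t1 * t2))
    (x y : Fin 3 → ℂ) :
    Qc1_s t0 t1 t2 x * Qc1_s t0 t1 t2 y * e =
      (-(x ⬝ᵥ y) / 4) • e + (1 / 2 : ℂ) • (Qc1_s t0 t1 t2 (crossProduct x y) * e) := by
  rw [Qc1_mul t0 t1 t2 h0 h1 h2 h10 h20 h21, add_mul, smul_mul_assoc, smul_mul_assoc, one_mul]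

/-- products of two elements which anticommute with `y` commute with `y` -/
theorem Qc1_anti {𝓐 : Type} [Ring 𝓐] {a b y : 𝓐} (ha : a * y = -(y * a)) (hb : b * y = -(y * b)) :
    a * b * y = y * (a * b) := by
  rw [mul_assoc, hb, mul_neg, ← mul_assoc, ha, neg_mul, neg_neg, mul_assoc]

theorem Qc1_comm {𝓐 : Type} [Ring 𝓐] {a b y : 𝓐} (ha : a * y = y * a) (hb : b * y = y * b) :
    a * b * y = y * (a * b) := by
  rw [mul_assoc, hb, ← mul_assoc, ha, mul_assoc]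

theorem Qc1_s_comm {𝓐 : Type} [Ring 𝓐] [Algebra ℂ 𝓐] {t0 t1 t2 y : 𝓐}
    (h0 : t1 * t2 * y = y * (t1 * t2)) (h1 : t2 * t0 * y = y * (t2 * t0))
    (h2 : t0 * t1 * y = y * (t0 * t1)) (x : Fin 3 → ℂ) :
    Qc1_s t0 t1 t2 x * y = y * Qc1_s t0 t1 t2 x := by
  simp only [Qc1_s_apply, smul_mul_assoc, mul_smul_comm, add_mul, mul_add, h0, h1, h2]

theorem Qc1_three {𝓐 : Type} [Ring 𝓐] [Algebra ℂ 𝓐] (T : Fin 3 → 𝓐)
    (sq : ∀ a, T a * T a = 1) (ac : ∀ a b, a ≠ b → T a * T b = -(T b * T a)) (ε : ℂ) :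
    ∃ (s : (Fin 3 → ℂ) →ₗ[ℂ] 𝓐) (e : 𝓐), e * e = e ∧
    (∀ x y, s x * s y * e = (-(x ⬝ᵥ y) / 4) • e + (1 / 2 : ℂ) • (s (crossProduct x y) * e)) ∧
    (∀ A, Aᵀ = -A → (∑ a, ∑ b, (A a b / 4) • (T a * T b)) * e = s (cq ε A) * e) ∧
    (∀ a b, T a * T b * e = e * (T a * T b)) ∧ (∀ x, s x * e = e * s x) ∧
    (e = 1 ∨ ∃ a, e * T a = T a * (1 - e)) ∧
    (∀ y, (∀ a, T a * y = -(y * T a)) → (∀ x, s x * y = y * s x) ∧ e * y = y * e) ∧
    ∀ y, (∀ a, T a * y = y * T a) → (∀ x, s x * y = y * s x) ∧ e * y = y * e := by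
  have h10 := ac 1 0 (by decide)
  have h20 := ac 2 0 (by decide)
  have h21 := ac 2 1 (by decide)
  refine ⟨Qc1_s (T 0) (T 1) (T 2), 1, one_mul _,
    Qc1_mul_e _ _ _ _ (sq 0) (sq 1) (sq 2) h10 h20 h21, fun A hA => ?_,
    fun a b => by rw [mul_one, one_mul], fun x => by rw [mul_one, one_mul], Or.inl rfl,
    fun y hy => ⟨Qc1_s_comm (Qc1_anti (hy 1) (hy 2)) (Qc1_anti (hy 2) (hy 0))
      (Qc1_anti (hy 0) (hy 1)), by rw [mul_one, one_mul]⟩,
    fun y hy => ⟨Qc1_s_comm (Qc1_comm (hy 1) (hy 2)) (Qc1_comm (hy 2) (hy 0))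
      (Qc1_comm (hy 0) (hy 1)), by rw [mul_one, one_mul]⟩⟩
  have hs : ∀ i j, A i j = -A j i := fun i j => by
    have := congrFun (congrFun hA j) i
    simpa [Matrix.transpose_apply, Matrix.neg_apply] using this
  have hd : ∀ i, A i i = 0 := fun i => by
    have := hs i i
    linear_combination this / 2
  have e1 : en A 2 1 = A 2 1 := by simp [en] <;> rfl
  have e2 : en A 0 2 = A 0 2 := by simp [en] <;> rfl
  have e3 : en A 1 0 = A 1 0 := by simp [en]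
  have e4 : en A 0 3 = 0 := by simp [en]
  have e5 : en A 1 3 = 0 := by simp [en]
  have e6 : en A 2 3 = 0 := by simp [en]
  simp only [Qc1_s_apply, cq, Matrix.cons_val_zero, Matrix.cons_val_one, Matrix.cons_val,
    Fin.sum_univ_three, e1, e2, e3, e4, e5, e6, hd, hs 0 1, hs 1 2, hs 2 0, h10, h20, h21,
    mul_one, sq]
  module

theorem Qc1_four {𝓐 : Type} [Ring 𝓐] [Algebra ℂ 𝓐] (T : Fin 4 → 𝓐)
    (sq : ∀ a, T a * T a = 1) (ac : ∀ a b, a ≠ b → T a * T b = -(T b * T a)) (ε : ℂ)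
    (hε : ε * ε = 1) :
    ∃ (s : (Fin 3 → ℂ) →ₗ[ℂ] 𝓐) (e : 𝓐), e * e = e ∧
    (∀ x y, s x * s y * e = (-(x ⬝ᵥ y) / 4) • e + (1 / 2 : ℂ) • (s (crossProduct x y) * e)) ∧
    (∀ A, Aᵀ = -A → (∑ a, ∑ b, (A a b / 4) • (T a * T b)) * e = s (cq ε A) * e) ∧
    (∀ a b, T a * T b * e = e * (T a * T b)) ∧ (∀ x, s x * e = e * s x) ∧
    (e = 1 ∨ ∃ a, e * T a = T a * (1 - e)) ∧
    (∀ y, (∀ a, T a * y = -(y * T a)) → (∀ x, s x * y = y * s x) ∧ e * y = y * e) ∧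
    ∀ y, (∀ a, T a * y = y * T a) → (∀ x, s x * y = y * s x) ∧ e * y = y * e := by
  have h10 := ac 1 0 (by decide)
  have h20 := ac 2 0 (by decide)
  have h21 := ac 2 1 (by decide)
  have h30 := ac 3 0 (by decide)
  have h31 := ac 3 1 (by decide)
  have h32 := ac 3 2 (by decide)
  have q : ∀ a z, T a * (T a * z) = z := fun a z => by rw [← mul_assoc, sq, one_mul]
  have qc : ∀ a b, a ≠ b → ∀ z, T a * (T b * z) = -(T b * (T a * z)) := fun a b hab z => by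
    rw [← mul_assoc, ac a b hab, neg_mul, mul_assoc]
  have a10 := qc 1 0 (by decide)
  have a20 := qc 2 0 (by decide)
  have a21 := qc 2 1 (by decide)
  have a30 := qc 3 0 (by decide)
  have a31 := qc 3 1 (by decide)
  have a32 := qc 3 2 (by decide)
  obtain ⟨w, hw⟩ : ∃ w, w = T 0 * (T 1 * (T 2 * T 3)) := ⟨_, rfl⟩
  have ww : w * w = 1 := by
    simp only [hw, mul_assoc, q, sq, a10, a20, a21, a30, a31, a32, h10, h20, h21, h30, h31, h32,
      neg_mul, mul_neg, neg_neg, mul_one]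
  have wT : ∀ a, T a * w = -(w * T a) := by
    intro a
    fin_cases a <;>
    simp [hw, mul_assoc, q, sq, a10, a20, a21, a30, a31, a32, h10, h20, h21, h30, h31, h32]
  have w03 : T 0 * T 3 = -(T 1 * T 2 * w) := by
    simp only [hw, mul_assoc, q, sq, a10, a20, a21, a30, a31, a32, h10, h20, h21, h30, h31, h32,
      neg_mul, mul_neg, neg_neg, mul_one]
  have w13 : T 1 * T 3 = -(T 2 * T 0 * w) := by
    simp only [hw, mul_assoc, q, sq, a10, a20, a21, a30, a31, a32, h10, h20, h21, h30, h31, h32,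
      neg_mul, mul_neg, neg_neg, mul_one]
  have w23 : T 2 * T 3 = -(T 0 * T 1 * w) := by
    simp only [hw, mul_assoc, q, sq, a10, a20, a21, a30, a31, a32, h10, h20, h21, h30, h31, h32,
      neg_mul, mul_neg, neg_neg, mul_one]
  obtain ⟨e, he⟩ : ∃ e, e = (1 / 2 : ℂ) • (1 + ε • w) := ⟨_, rfl⟩
  have we : w * e = ε • e := by
    rw [he, mul_smul_comm, mul_add, mul_smul_comm, ww, mul_one, smul_comm ε (1 / 2 : ℂ)]
    congr 1
    rw [smul_add, smul_smul, hε, one_smul, add_comm]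
  have comm_e : ∀ y, w * y = y * w → y * e = e * y := fun y hy => by
    rw [he, mul_smul_comm, mul_add, smul_mul_assoc, add_mul, mul_smul_comm, smul_mul_assoc, hy,
      one_mul, mul_one]
  have ee : e * e = e := by
    have : (1 / 2 : ℂ) • (e + ε • (w * e)) = e := by
      rw [we, smul_smul, hε, one_smul]
      module
    calc e * e = ((1 / 2 : ℂ) • (1 + ε • w)) * e := by rw [← he]
      _ = (1 / 2 : ℂ) • (e + ε • (w * e)) := by
        rw [smul_mul_assoc, add_mul, one_mul, smul_mul_assoc]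
      _ = e := this
  have TTw : ∀ a b, w * (T a * T b) = T a * T b * w := fun a b => (Qc1_anti (wT a) (wT b)).symm
  have TTe : ∀ a b, T a * T b * e = e * (T a * T b) := fun a b => comm_e _ (TTw a b)
  refine ⟨Qc1_s (T 0) (T 1) (T 2), e, ee,
    Qc1_mul_e _ _ _ _ (sq 0) (sq 1) (sq 2) h10 h20 h21, fun A hA => ?_,
    TTe, Qc1_s_comm (TTe 1 2) (TTe 2 0) (TTe 0 1), Or.inr ⟨0, ?_⟩,
    fun y hy => ⟨Qc1_s_comm (Qc1_anti (hy 1) (hy 2)) (Qc1_anti (hy 2) (hy 0))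
      (Qc1_anti (hy 0) (hy 1)), ?_⟩,
    fun y hy => ⟨Qc1_s_comm (Qc1_comm (hy 1) (hy 2)) (Qc1_comm (hy 2) (hy 0))
      (Qc1_comm (hy 0) (hy 1)), ?_⟩⟩
  · have hs : ∀ i j, A i j = -A j i := fun i j => by
      have := congrFun (congrFun hA j) i
      simpa [Matrix.transpose_apply, Matrix.neg_apply] using this
    have hd : ∀ i, A i i = 0 := fun i => by
      have := hs i i
      linear_combination this / 2
    have e1 : en A 2 1 = A 2 1 := by simp [en] <;> rfl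
    have e2 : en A 0 2 = A 0 2 := by simp [en] <;> rfl
    have e3 : en A 1 0 = A 1 0 := by simp [en]
    have e4 : en A 0 3 = A 0 3 := by simp [en] <;> rfl
    have e5 : en A 1 3 = A 1 3 := by simp [en] <;> rfl
    have e6 : en A 2 3 = A 2 3 := by simp [en] <;> rfl
    have key : (∑ a, ∑ b, (A a b / 4) • (T a * T b)) =
        (-(1 / 2 : ℂ)) • (A 2 1 • (T 1 * T 2) + A 0 2 • (T 2 * T 0) + A 1 0 • (T 0 * T 1)) +
        (-(1 / 2 : ℂ)) • (A 0 3 • (T 1 * T 2 * w) + A 1 3 • (T 2 * T 0 * w) +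
          A 2 3 • (T 0 * T 1 * w)) := by
      have k1 : T 1 * T 2 * w = -(T 0 * T 3) := by rw [w03, neg_neg]
      have k2 : T 2 * T 0 * w = -(T 1 * T 3) := by rw [w13, neg_neg]
      have k3 : T 0 * T 1 * w = -(T 2 * T 3) := by rw [w23, neg_neg]
      rw [k1, k2, k3]
      simp only [Fin.sum_univ_four, hd, hs 0 1, hs 1 2, hs 2 0, hs 3 0, hs 3 1, hs 3 2,
        h10, h20, h21, h30, h31, h32, sq]
      module
    rw [key, add_mul]
    simp only [Qc1_s_apply, cq, Matrix.cons_val_zero, Matrix.cons_val_one, Matrix.cons_val,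
      e1, e2, e3, e4, e5, e6, smul_mul_assoc, add_mul]
    rw [mul_assoc (T 1 * T 2) w e, mul_assoc (T 2 * T 0) w e, mul_assoc (T 0 * T 1) w e, we]
    simp only [mul_smul_comm]
    module
  · have h0 : e * T 0 = T 0 * ((1 / 2 : ℂ) • (1 - ε • w)) := by
      have h1 : w * T 0 = -(T 0 * w) := by rw [wT 0, neg_neg]
      rw [he, smul_mul_assoc, add_mul, one_mul, smul_mul_assoc, h1, mul_smul_comm, mul_sub,
        mul_one, mul_smul_comm, smul_neg, sub_eq_add_neg]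
    rw [h0, he]
    congr 1
    module
  · have h1 : T 0 * T 1 * y = y * (T 0 * T 1) := Qc1_anti (hy 0) (hy 1)
    have h2 : T 2 * T 3 * y = y * (T 2 * T 3) := Qc1_anti (hy 2) (hy 3)
    have h3 : w * y = y * w := by
      rw [hw, ← mul_assoc (T 0) (T 1)]
      exact Qc1_comm h1 h2
    exact (comm_e y h3).symm
  · have h1 : T 0 * T 1 * y = y * (T 0 * T 1) := Qc1_comm (hy 0) (hy 1)
    have h2 : T 2 * T 3 * y = y * (T 2 * T 3) := Qc1_comm (hy 2) (hy 3)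
    have h3 : w * y = y * w := by
      rw [hw, ← mul_assoc (T 0) (T 1)]
      exact Qc1_comm h1 h2
    exact (comm_e y h3).symm

theorem thm_Qc1 : St_Qc1 := by
  intro 𝓐 _ _ m hm T hT ε hε
  have sq : ∀ a, T a * T a = 1 := fun a => by
    have h := hT a a
    rw [if_pos rfl, ← two_smul ℂ (T a * T a)] at h
    have h2 : (2 : 𝓐) = (2 : ℂ) • (1 : 𝓐) := by
      rw [two_smul]
      norm_num
    rw [h2] at h
    exact smul_right_injective 𝓐 (two_ne_zero) h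
  have ac : ∀ a b, a ≠ b → T a * T b = -(T b * T a) := fun a b hab => by
    have h := hT a b
    rw [if_neg hab] at h
    exact eq_neg_of_add_eq_zero_left h
  rcases hm with rfl | rfl
  · exact Qc1_three T sq ac ε
  · exact Qc1_four T sq ac ε hε

end Pool.Agent.KQ4
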