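import Pool.Agent.KQ4.St

/-!
# KQ4 [Qcl]: commuting actions of the quaternions at all places (helper82)
-/

set_option autoImplicit false

namespace Pool.Agent.KQ4

open Module Matrix NumberField Pool.Agent.Helper7 Pool.Agent.KS Pool.Agent.Ball Pool.Agent.KSE
  Pool.Agent.Helper28.GPC Pool.Agent.KSR Pool.Agent.KSV

section proj

variable {S V : Type} [AddCommGroup V] [Module ℂ V] {m : ℕ}

/-- the product of commuting projectors -/
private lemma Qcl_proj [Nontrivial V] (T : S → Fin m → Module.End ℂ V) (e : S → Module.End ℂ V)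
    (hT : ∀ σ a, T σ a * T σ a = 1) (he : ∀ σ, e σ * e σ = e σ)
    (hc : ∀ σ ρ, e σ * e ρ = e ρ * e σ)
    (h6 : ∀ σ, e σ = 1 ∨ ∃ a, e σ * T σ a = T σ a * (1 - e σ))
    (h7 : ∀ σ ρ a, ρ ≠ σ → e ρ * T σ a = T σ a * e ρ) (F : Finset S) :
    ∃ p : Module.End ℂ V, p * p = p ∧ (∀ σ ∈ F, e σ * p = p) ∧
      (∀ y : Module.End ℂ V, (∀ σ ∈ F, e σ * y = y * e σ) → p * y = y * p) ∧
      ∃ v : V, v ≠ 0 ∧ p v = v := by
  classical
  induction F using Finset.induction_on with
  | empty =>
    obtain ⟨v, hv⟩ := exists_ne (0 : V)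
    refine ⟨1, one_mul _, ?_, ?_, v, hv, rfl⟩
    · intro σ hσ
      exact absurd hσ (Finset.notMem_empty σ)
    · intro y _
      rw [one_mul, mul_one]
  | insert σ F hσ ih =>
    obtain ⟨p, h1, h2, h3, v, hv, hpv⟩ := ih
    have hp : p * e σ = e σ * p := h3 (e σ) fun ρ _ => hc ρ σ
    refine ⟨e σ * p, ?_, ?_, ?_, ?_⟩
    · rw [mul_assoc, ← mul_assoc p (e σ) p, hp, mul_assoc (e σ) p p, h1, ← mul_assoc, he]
    · intro ρ hρ
      rcases Finset.mem_insert.1 hρ with h | h
      · rw [h, ← mul_assoc, he]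
      · rw [← mul_assoc, hc ρ σ, mul_assoc, h2 ρ h]
    · intro y hy
      rw [mul_assoc, h3 y fun ρ hρ => hy ρ (Finset.mem_insert_of_mem hρ), ← mul_assoc,
        hy σ (Finset.mem_insert_self σ F), mul_assoc]
    · by_cases hz : e σ v = 0
      · rcases h6 σ with h | ⟨a, ha⟩
        · rw [h] at hz
          exact absurd hz hv
        · refine ⟨T σ a v, ?_, ?_⟩
          · intro h0
            have h4 : (T σ a * T σ a) v = 0 := by
              rw [Module.End.mul_apply, h0, map_zero]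
            rw [hT] at h4
            exact hv h4
          · have h5 : p * T σ a = T σ a * p :=
              h3 (T σ a) fun ρ hρ => h7 σ ρ a fun h => hσ (h ▸ hρ)
            have h8 : p (T σ a v) = T σ a v := by
              rw [← Module.End.mul_apply, h5, Module.End.mul_apply, hpv]
            have h9 : e σ (T σ a v) = T σ a v := by
              rw [← Module.End.mul_apply, ha, Module.End.mul_apply, LinearMap.sub_apply, hz,
                sub_zero, Module.End.one_apply]
            rw [Module.End.mul_apply, h8, h9]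
      · refine ⟨e σ v, hz, ?_⟩
        rw [Module.End.mul_apply, ← Module.End.mul_apply p, hp, Module.End.mul_apply, hpv,
          ← Module.End.mul_apply, he]

end proj

section act

variable {V : Type} [AddCommGroup V] [Module ℂ V] {K : Type} [Field K] [NumberField K]
  {c : K →+* K} {m : ℕ} {h : Matrix (Fin m) (Fin m) K} {t : Fin m → K → Module.End ℂ V}

private lemma Qcl_actsum {ι : Type} (s : Finset ι) (X : ι → Module.End ℂ V)
    (M : ι → (K →+* ℂ) → Matrix (Fin m) (Fin m) ℂ) (hX : ∀ i, ActM t (X i) (M i)) :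
    ActM t (∑ i ∈ s, X i) (∑ i ∈ s, M i) := by
  classical
  induction s using Finset.induction_on with
  | empty => rw [Finset.sum_empty, Finset.sum_empty]; exact ActM.zero
  | insert i s hi ih =>
    rw [Finset.sum_insert hi, Finset.sum_insert hi]
    exact ActM.add (hX i) ih

omit [NumberField K] in
private lemma Qcl_M (σ : K →+* ℂ) (A B : Matrix (Fin m) (Fin m) ℂ) (hA : Aᵀ = -A) :
    ∑ a, ∑ b, (A a b / 8) • TransA.WM h σ (fun d => B d a) (fun d => B d b) =
      B * A * (Bᵀ * h.map σ) := by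
  have hv : ∀ a j, ((fun d => B d a) ᵥ* h.map σ) j = (Bᵀ * h.map σ) a j := fun a j => rfl
  have hsk : ∀ a b, A b a = -A a b := fun a b => congrFun (congrFun hA a) b
  ext i j
  simp only [Matrix.sum_apply, Matrix.smul_apply, smul_eq_mul, TransA.WM, Matrix.of_apply, hv]
  have e1 : (B * A * (Bᵀ * h.map σ)) i j = ∑ a, ∑ b, B i a * A a b * (Bᵀ * h.map σ) b j := by
    rw [Matrix.mul_apply]
    have e3 : ∀ b, (B * A) i b * (Bᵀ * h.map σ) b j =
        ∑ a, B i a * A a b * (Bᵀ * h.map σ) b j := fun b => by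
      rw [Matrix.mul_apply, Finset.sum_mul]
    rw [Finset.sum_congr rfl fun b _ => e3 b, Finset.sum_comm]
  have e2 : ∑ a, ∑ b, A a b / 8 * (4 * (B i a * (Bᵀ * h.map σ) b j - B i b * (Bᵀ * h.map σ) a j)) =
      (∑ a, ∑ b, (1 / 2) * (B i a * A a b * (Bᵀ * h.map σ) b j)) -
      ∑ a, ∑ b, (1 / 2) * (A a b * (B i b * (Bᵀ * h.map σ) a j)) := by
    rw [← Finset.sum_sub_distrib]
    refine Finset.sum_congr rfl fun a _ => ?_
    rw [← Finset.sum_sub_distrib]
    refine Finset.sum_congr rfl fun b _ => ?_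
    ring
  rw [e2, e1, Finset.sum_comm (f := fun a b => (1 / 2) * (A a b * (B i b * (Bᵀ * h.map σ) a j))),
    ← Finset.sum_sub_distrib]
  refine Finset.sum_congr rfl fun a _ => ?_
  rw [← Finset.sum_sub_distrib]
  refine Finset.sum_congr rfl fun b _ => ?_
  rw [hsk]
  ring

end act

theorem thm_Qcl (hQc1 : St_Qc1) : St_Qcl := by
  intro κ K _ _ _ _ _ c m h t hconj herm hnd hcl hreal hm ε hε B hB
  classical
  have hsym : ∀ σ : K →+* ℂ, (h.map σ)ᵀ = h.map σ := by
    intro σ
    ext a b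
    rw [Matrix.transpose_apply, Matrix.map_apply, Matrix.map_apply, ← herm a b, ← hconj, hreal]
  have hBi : ∀ σ, B σ * ((B σ)ᵀ * h.map σ) = 1 := fun σ => mul_eq_one_comm.1 (hB σ)
  obtain ⟨T, hTd⟩ : ∃ T : (K →+* ℂ) → Fin m → Module.End ℂ (κ → ℂ),
      ∀ σ a, T σ a = tau (ts t σ) (fun d => B σ d a) := ⟨_, fun _ _ => rfl⟩
  have hpr : ∀ σ a b, pr h σ (fun d => B σ d a) (fun d => B σ d b) =
      (1 : Matrix (Fin m) (Fin m) ℂ) a b := by
    intro σ a b
    rw [← hB σ, pr, Matrix.mul_assoc]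
    rfl
  have hT : ∀ σ a b, T σ a * T σ b + T σ b * T σ a = if a = b then 2 else 0 := by
    intro σ a b
    have h1 := tau_pair hconj hcl σ (fun d => B σ d a) (fun d => B σ d b)
    rw [hreal, hpr, ← hTd, ← hTd, Matrix.one_apply] at h1
    rw [h1]
    split_ifs
    · rw [mul_one, ← one_add_one_eq_two, add_smul, one_smul, one_add_one_eq_two]
    · rw [mul_zero, zero_smul]
  have hTT : ∀ σ a, T σ a * T σ a = 1 := by
    intro σ a
    have h1 := hT σ a a
    rw [if_pos rfl, ← two_mul] at h1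
    have h2 : (2 : ℂ) • (T σ a * T σ a) = (2 : ℂ) • (1 : Module.End ℂ (κ → ℂ)) := by
      rw [two_smul, two_smul, ← two_mul, h1, one_add_one_eq_two]
    exact smul_right_injective _ two_ne_zero h2
  have hTa : ∀ σ ρ, ρ ≠ σ → ∀ a b, T σ a * T ρ b = -(T ρ b * T σ a) := by
    intro σ ρ hne a b
    have h1 := tau_anti hconj hcl (σ := σ) (τ := ρ) (by rw [hreal]; exact hne)
      (fun d => B σ d a) (fun d => B ρ d b)
    rw [← hTd, ← hTd] at h1
    exact eq_neg_of_add_eq_zero_left h1
  have hq := fun σ => hQc1 (Module.End ℂ (κ → ℂ)) m hm (T σ) (hT σ) ε hε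
  choose s e h1 h2 h3 h4 h5 h6 h7 h8 using hq
  -- commutation with the operators of other places
  have hsT : ∀ σ ρ, ρ ≠ σ → ∀ x a, s σ x * T ρ a = T ρ a * s σ x :=
    fun σ ρ hne x a => (h7 σ (T ρ a) fun b => hTa σ ρ hne b a).1 x
  have heT : ∀ σ ρ, ρ ≠ σ → ∀ a, e σ * T ρ a = T ρ a * e σ :=
    fun σ ρ hne a => (h7 σ (T ρ a) fun b => hTa σ ρ hne b a).2
  have hss : ∀ σ ρ, σ ≠ ρ → ∀ x y, s σ x * s ρ y = s ρ y * s σ x :=
    fun σ ρ hne x y => (h8 σ (s ρ y) fun a => (hsT ρ σ hne y a).symm).1 x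
  have hes : ∀ σ ρ x, e σ * s ρ x = s ρ x * e σ := by
    intro σ ρ x
    by_cases hne : σ = ρ
    · rw [hne]
      exact (h5 ρ x).symm
    · exact (h8 σ (s ρ x) fun a => (hsT ρ σ hne x a).symm).2
  have hee : ∀ σ ρ, e σ * e ρ = e ρ * e σ := by
    intro σ ρ
    by_cases hne : σ = ρ
    · rw [hne]
    · exact (h8 σ (e ρ) fun a => (heT ρ σ hne a).symm).2
  obtain ⟨p, hpp, hep, hpc, v, hv, hpv⟩ := Qcl_proj T e hTT h1 hee h6
    (fun σ ρ a hne => heT ρ σ hne.symm a) Finset.univ
  have hep' : ∀ σ, e σ * p = p := fun σ => hep σ (Finset.mem_univ σ)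
  refine ⟨s, p, ⟨hpp, ?_, ?_, ?_, hss⟩, ?_⟩
  · intro h0
    rw [h0, LinearMap.zero_apply] at hpv
    exact hv hpv.symm
  · exact fun σ x => hpc (s σ x) fun ρ _ => hes ρ σ x
  · intro σ x y
    have h9 := congrArg (fun z => z * p) (h2 σ x y)
    simp only [add_mul, smul_mul_assoc, mul_assoc, hep'] at h9
    rw [mul_assoc]
    exact h9
  · intro X hX M hM
    have hM' : ∀ σ, (M σ)ᵀ * h.map σ + h.map σ * M σ = 0 := by
      intro σ
      have h9 := (skewM_iff M).2 (ActM.skew hconj hcl hM) σ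
      rw [hreal] at h9
      exact h9
    obtain ⟨A, hAd⟩ : ∃ A : (K →+* ℂ) → Matrix (Fin m) (Fin m) ℂ,
        ∀ σ, A σ = (B σ)ᵀ * h.map σ * M σ * B σ := ⟨_, fun _ => rfl⟩
    have hA : ∀ σ, (A σ)ᵀ = -A σ := by
      intro σ
      have h9 : (M σ)ᵀ * h.map σ = -(h.map σ * M σ) := eq_neg_of_add_eq_zero_left (hM' σ)
      rw [hAd, Matrix.transpose_mul, Matrix.transpose_mul, Matrix.transpose_mul,
        Matrix.transpose_transpose, hsym]
      have h10 : (B σ)ᵀ * ((M σ)ᵀ * (h.map σ * B σ)) = (B σ)ᵀ * (((M σ)ᵀ * h.map σ) * B σ) := by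
        rw [Matrix.mul_assoc]
      rw [h10, h9, Matrix.neg_mul, Matrix.mul_neg, Matrix.mul_assoc, Matrix.mul_assoc,
        Matrix.mul_assoc]
    have hBAB : ∀ σ, B σ * A σ * ((B σ)ᵀ * h.map σ) = M σ := by
      intro σ
      have h9 : B σ * A σ * ((B σ)ᵀ * h.map σ) =
          (B σ * ((B σ)ᵀ * h.map σ)) * M σ * (B σ * ((B σ)ᵀ * h.map σ)) := by
        rw [hAd]
        simp only [Matrix.mul_assoc]
      rw [h9, hBi, Matrix.one_mul, Matrix.mul_one]
    -- the operator of the family
    have hXX : X = ∑ σ, ∑ a, ∑ b, (A σ a b / 8) • (T σ a * T σ b - T σ b * T σ a) := by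
      refine eq_of_act hconj herm hnd hcl hX ?_ hM ?_
      · refine Submodule.sum_mem _ fun σ _ => Submodule.sum_mem _ fun a _ =>
          Submodule.sum_mem _ fun b _ => Submodule.smul_mem _ _ ?_
        rw [hTd, hTd]
        exact TransA.mem_bvS hreal t σ _ _
      · have h9 : ActM t (∑ σ, ∑ a, ∑ b, (A σ a b / 8) • (T σ a * T σ b - T σ b * T σ a))
            (∑ σ, ∑ a, ∑ b, (A σ a b / 8) • fun τ : K →+* ℂ =>
              if τ = σ then TransA.WM h σ (fun d => B σ d a) (fun d => B σ d b) else 0) := by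
          refine Qcl_actsum _ _ _ fun σ => Qcl_actsum _ _ _ fun a => Qcl_actsum _ _ _ fun b => ?_
          refine ActM.smul _ ?_
          rw [hTd, hTd]
          exact TransA.act_gen hconj hcl hreal σ _ _
        have h10 : (∑ σ, ∑ a, ∑ b, (A σ a b / 8) • fun τ : K →+* ℂ =>
              if τ = σ then TransA.WM h σ (fun d => B σ d a) (fun d => B σ d b) else 0) = M := by
          funext τ
          simp only [Finset.sum_apply, Pi.smul_apply, smul_ite, smul_zero]
          rw [Finset.sum_eq_single τ]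
          · simp only [if_true]
            rw [Qcl_M τ (A τ) (B τ) (hA τ), hBAB]
          · intro σ _ hσ
            refine Finset.sum_eq_zero fun a _ => Finset.sum_eq_zero fun b _ => ?_
            rw [if_neg hσ.symm]
          · intro h11
            exact absurd (Finset.mem_univ _) h11
        rw [h10] at h9
        exact h9
    have hXT : X = ∑ σ, ∑ a, ∑ b, (A σ a b / 4) • (T σ a * T σ b) := by
      rw [hXX]
      refine Finset.sum_congr rfl fun σ _ => ?_
      have hsk : ∀ a b, A σ b a = -A σ a b := fun a b => congrFun (congrFun (hA σ) a) b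
      have h9 : ∑ a, ∑ b, (A σ a b / 8) • (T σ b * T σ a) =
          -∑ a, ∑ b, (A σ a b / 8) • (T σ a * T σ b) := by
        rw [Finset.sum_comm, ← Finset.sum_neg_distrib]
        refine Finset.sum_congr rfl fun a _ => ?_
        rw [← Finset.sum_neg_distrib]
        refine Finset.sum_congr rfl fun b _ => ?_
        rw [hsk, neg_div]
        exact neg_smul (A σ a b / 8) (T σ a * T σ b)
      simp only [smul_sub, Finset.sum_sub_distrib]
      rw [h9, sub_neg_eq_add, ← Finset.sum_add_distrib]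
      refine Finset.sum_congr rfl fun a _ => ?_
      rw [← Finset.sum_add_distrib]
      refine Finset.sum_congr rfl fun b _ => ?_
      rw [← add_smul]
      congr 1
      ring
    constructor
    · refine (hpc X fun ρ _ => ?_).symm
      rw [hXT, Finset.mul_sum, Finset.sum_mul]
      refine Finset.sum_congr rfl fun σ _ => ?_
      rw [Finset.mul_sum, Finset.sum_mul]
      refine Finset.sum_congr rfl fun a _ => ?_
      rw [Finset.mul_sum, Finset.sum_mul]
      refine Finset.sum_congr rfl fun b _ => ?_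
      rw [mul_smul_comm, smul_mul_assoc]
      congr 1
      by_cases hne : σ = ρ
      · rw [hne]
        exact (h4 ρ a b).symm
      · rw [← mul_assoc, heT ρ σ hne a, mul_assoc, heT ρ σ hne b, ← mul_assoc]
    · rw [hXT, Finset.sum_mul, Finset.sum_mul]
      refine Finset.sum_congr rfl fun σ _ => ?_
      have h9 := congrArg (fun z => z * p) (h3 σ (A σ) (hA σ))
      simp only [mul_assoc, hep'] at h9
      rw [h9, cf, hAd]

end Pool.Agent.KQ4
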