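import Pool.Agent.KQ4.St

/-!
# KQ4 [Qcq]: coordinates of skew matrices of size three and four (helper2)
-/

set_option autoImplicit false

namespace Pool.Agent.KQ4

open Matrix

private theorem Qcq_c3 (ε : ℂ) (A : Matrix (Fin 3) (Fin 3) ℂ) :
    cq ε A = ![A 2 1, A 0 2, A 1 0] := by
  have h1 : en A 2 1 = A 2 1 := by simp [en]
  have h2 : en A 0 2 = A 0 2 := by simp [en]
  have h3 : en A 1 0 = A 1 0 := by simp [en]
  have h4 : en A 0 3 = 0 := by simp [en]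
  have h5 : en A 1 3 = 0 := by simp [en]
  have h6 : en A 2 3 = 0 := by simp [en]
  rw [cq, h1, h2, h3, h4, h5, h6, mul_zero, add_zero, add_zero, add_zero]

private theorem Qcq_c4 (ε : ℂ) (A : Matrix (Fin 4) (Fin 4) ℂ) :
    cq ε A = ![A 2 1 + ε * A 0 3, A 0 2 + ε * A 1 3, A 1 0 + ε * A 2 3] := by
  have h1 : en A 2 1 = A 2 1 := by simp [en]
  have h2 : en A 0 2 = A 0 2 := by simp [en]
  have h3 : en A 1 0 = A 1 0 := by simp [en]
  have h4 : en A 0 3 = A 0 3 := by simp [en]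
  have h5 : en A 1 3 = A 1 3 := by simp [en]
  have h6 : en A 2 3 = A 2 3 := by simp [en]
  rw [cq, h1, h2, h3, h4, h5, h6]

private theorem Qcq_sk {m : ℕ} {A : Matrix (Fin m) (Fin m) ℂ} (h : Aᵀ = -A) (i j : Fin m) :
    A i j = -A j i := by
  have h1 := congrFun (congrFun h j) i
  rw [Matrix.transpose_apply, Matrix.neg_apply] at h1
  exact h1

private theorem Qcq_dg {m : ℕ} {A : Matrix (Fin m) (Fin m) ℂ} (h : Aᵀ = -A) (i : Fin m) :
    A i i = 0 := by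
  have h1 := Qcq_sk h i i
  have h2 : (2 : ℂ) * A i i = 0 := by linear_combination h1
  rcases mul_eq_zero.mp h2 with h3 | h3
  · norm_num at h3
  · exact h3

private theorem Qcq_m3 (ε : ℂ) :
    (∀ A A' : Matrix (Fin 3) (Fin 3) ℂ, cq ε (A + A') = cq ε A + cq ε A') ∧
    (∀ (r : ℂ) (A : Matrix (Fin 3) (Fin 3) ℂ), cq ε (r • A) = r • cq ε A) ∧
    (∀ A A' : Matrix (Fin 3) (Fin 3) ℂ, Aᵀ = -A → A'ᵀ = -A' →
      cq ε (A * A' - A' * A) = crossProduct (cq ε A) (cq ε A')) ∧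
    (∀ x : Fin 3 → ℂ, ∃ A : Matrix (Fin 3) (Fin 3) ℂ, Aᵀ = -A ∧ cq ε A = x) ∧
    ∀ A : Matrix (Fin 3) (Fin 3) ℂ, Aᵀ = -A → cq ε A = 0 → A = 0 := by
  refine ⟨fun A A' => ?_, fun r A => ?_, fun A A' hA hA' => ?_, fun x => ?_, fun A hA h0 => ?_⟩
  · rw [Qcq_c3, Qcq_c3, Qcq_c3]
    ext i
    fin_cases i <;> simp
  · rw [Qcq_c3, Qcq_c3]
    ext i
    fin_cases i <;> simp
  · rw [Qcq_c3, Qcq_c3, Qcq_c3, cross_apply]
    have a0 := Qcq_dg hA 0
    have a1 := Qcq_dg hA 1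
    have a2 := Qcq_dg hA 2
    have a01 := Qcq_sk hA 0 1
    have a20 := Qcq_sk hA 2 0
    have a12 := Qcq_sk hA 1 2
    have b0 := Qcq_dg hA' 0
    have b1 := Qcq_dg hA' 1
    have b2 := Qcq_dg hA' 2
    have b01 := Qcq_sk hA' 0 1
    have b20 := Qcq_sk hA' 2 0
    have b12 := Qcq_sk hA' 1 2
    ext i
    fin_cases i
    · simp only [Matrix.sub_apply, Matrix.mul_apply, Fin.sum_univ_three]
      simp [a0, a1, a2, a01, a20, a12, b0, b1, b2, b01, b20, b12]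
      ring
    · simp only [Matrix.sub_apply, Matrix.mul_apply, Fin.sum_univ_three]
      simp [a0, a1, a2, a01, a20, a12, b0, b1, b2, b01, b20, b12]
      ring
    · simp only [Matrix.sub_apply, Matrix.mul_apply, Fin.sum_univ_three]
      simp [a0, a1, a2, a01, a20, a12, b0, b1, b2, b01, b20, b12]
      ring
  · refine ⟨!![0, -x 2, x 1; x 2, 0, -x 0; -x 1, x 0, 0], ?_, ?_⟩
    · ext i j
      fin_cases i <;> fin_cases j <;> simp
    · rw [Qcq_c3]
      ext i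
      fin_cases i <;> simp
  · rw [Qcq_c3] at h0
    have e0 : A 2 1 = 0 := congrFun h0 0
    have e1 : A 0 2 = 0 := congrFun h0 1
    have e2 : A 1 0 = 0 := congrFun h0 2
    have a0 := Qcq_dg hA 0
    have a1 := Qcq_dg hA 1
    have a2 := Qcq_dg hA 2
    have a01 := Qcq_sk hA 0 1
    have a20 := Qcq_sk hA 2 0
    have a12 := Qcq_sk hA 1 2
    ext i j
    fin_cases i <;> fin_cases j <;> simp [e0, e1, e2, a0, a1, a2, a01, a20, a12]

private theorem Qcq_m4 (ε : ℂ) (hε : ε * ε = 1) :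
    (∀ A A' : Matrix (Fin 4) (Fin 4) ℂ, cq ε (A + A') = cq ε A + cq ε A') ∧
    (∀ (r : ℂ) (A : Matrix (Fin 4) (Fin 4) ℂ), cq ε (r • A) = r • cq ε A) ∧
    (∀ A A' : Matrix (Fin 4) (Fin 4) ℂ, Aᵀ = -A → A'ᵀ = -A' →
      cq ε (A * A' - A' * A) = crossProduct (cq ε A) (cq ε A')) ∧
    (∀ x : Fin 3 → ℂ, ∃ A : Matrix (Fin 4) (Fin 4) ℂ, Aᵀ = -A ∧ cq ε A = x ∧ cq (-ε) A = 0) ∧
    ∀ A : Matrix (Fin 4) (Fin 4) ℂ, Aᵀ = -A → cq ε A = 0 → cq (-ε) A = 0 → A = 0 := by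
  have hne : ε ≠ 0 := by
    rintro rfl
    norm_num at hε
  refine ⟨fun A A' => ?_, fun r A => ?_, fun A A' hA hA' => ?_, fun x => ?_,
    fun A hA h0 h0' => ?_⟩
  · rw [Qcq_c4, Qcq_c4, Qcq_c4]
    ext i
    fin_cases i <;> simp <;> ring
  · rw [Qcq_c4, Qcq_c4]
    ext i
    fin_cases i <;> simp <;> ring
  · rw [Qcq_c4, Qcq_c4, Qcq_c4, cross_apply]
    have a0 := Qcq_dg hA 0
    have a1 := Qcq_dg hA 1
    have a2 := Qcq_dg hA 2
    have a3 := Qcq_dg hA 3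
    have a01 := Qcq_sk hA 0 1
    have a20 := Qcq_sk hA 2 0
    have a12 := Qcq_sk hA 1 2
    have a30 := Qcq_sk hA 3 0
    have a31 := Qcq_sk hA 3 1
    have a32 := Qcq_sk hA 3 2
    have b0 := Qcq_dg hA' 0
    have b1 := Qcq_dg hA' 1
    have b2 := Qcq_dg hA' 2
    have b3 := Qcq_dg hA' 3
    have b01 := Qcq_sk hA' 0 1
    have b20 := Qcq_sk hA' 2 0
    have b12 := Qcq_sk hA' 1 2
    have b30 := Qcq_sk hA' 3 0
    have b31 := Qcq_sk hA' 3 1
    have b32 := Qcq_sk hA' 3 2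
    ext i
    fin_cases i
    · simp only [Matrix.sub_apply, Matrix.mul_apply, Fin.sum_univ_four]
      simp [a0, a1, a2, a3, a01, a20, a12, a30, a31, a32, b0, b1, b2, b3, b01, b20, b12, b30, b31,
        b32]
      linear_combination (A 2 3 * A' 1 3 - A 1 3 * A' 2 3) * hε
    · simp only [Matrix.sub_apply, Matrix.mul_apply, Fin.sum_univ_four]
      simp [a0, a1, a2, a3, a01, a20, a12, a30, a31, a32, b0, b1, b2, b3, b01, b20, b12, b30, b31,
        b32]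
      linear_combination (A 0 3 * A' 2 3 - A 2 3 * A' 0 3) * hε
    · simp only [Matrix.sub_apply, Matrix.mul_apply, Fin.sum_univ_four]
      simp [a0, a1, a2, a3, a01, a20, a12, a30, a31, a32, b0, b1, b2, b3, b01, b20, b12, b30, b31,
        b32]
      linear_combination (A 1 3 * A' 0 3 - A 0 3 * A' 1 3) * hε
  · refine ⟨!![0, -x 2 / 2, x 1 / 2, ε * x 0 / 2; x 2 / 2, 0, -x 0 / 2, ε * x 1 / 2;
      -x 1 / 2, x 0 / 2, 0, ε * x 2 / 2; -(ε * x 0 / 2), -(ε * x 1 / 2), -(ε * x 2 / 2), 0],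
      ?_, ?_, ?_⟩
    · ext i j
      fin_cases i <;> fin_cases j <;> simp <;> ring
    · rw [Qcq_c4]
      ext i
      fin_cases i
      · simp
        linear_combination (x 0 / 2) * hε
      · simp
        linear_combination (x 1 / 2) * hε
      · simp
        linear_combination (x 2 / 2) * hε
    · rw [Qcq_c4]
      ext i
      fin_cases i
      · simp
        linear_combination (-x 0 / 2) * hε
      · simp
        linear_combination (-x 1 / 2) * hε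
      · simp
        linear_combination (-x 2 / 2) * hε
  · rw [Qcq_c4] at h0 h0'
    have e0 : A 2 1 + ε * A 0 3 = 0 := congrFun h0 0
    have e1 : A 0 2 + ε * A 1 3 = 0 := congrFun h0 1
    have e2 : A 1 0 + ε * A 2 3 = 0 := congrFun h0 2
    have d0 : A 2 1 + -ε * A 0 3 = 0 := congrFun h0' 0
    have d1 : A 0 2 + -ε * A 1 3 = 0 := congrFun h0' 1
    have d2 : A 1 0 + -ε * A 2 3 = 0 := congrFun h0' 2
    have c0 : A 2 1 = 0 := by linear_combination (1 / 2 : ℂ) * e0 + (1 / 2 : ℂ) * d0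
    have c1 : A 0 2 = 0 := by linear_combination (1 / 2 : ℂ) * e1 + (1 / 2 : ℂ) * d1
    have c2 : A 1 0 = 0 := by linear_combination (1 / 2 : ℂ) * e2 + (1 / 2 : ℂ) * d2
    have k0 : A 0 3 = 0 := by
      have h : ε * A 0 3 = 0 := by linear_combination (1 / 2 : ℂ) * e0 - (1 / 2 : ℂ) * d0
      exact (mul_eq_zero.mp h).resolve_left hne
    have k1 : A 1 3 = 0 := by
      have h : ε * A 1 3 = 0 := by linear_combination (1 / 2 : ℂ) * e1 - (1 / 2 : ℂ) * d1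
      exact (mul_eq_zero.mp h).resolve_left hne
    have k2 : A 2 3 = 0 := by
      have h : ε * A 2 3 = 0 := by linear_combination (1 / 2 : ℂ) * e2 - (1 / 2 : ℂ) * d2
      exact (mul_eq_zero.mp h).resolve_left hne
    have a0 := Qcq_dg hA 0
    have a1 := Qcq_dg hA 1
    have a2 := Qcq_dg hA 2
    have a3 := Qcq_dg hA 3
    have a01 := Qcq_sk hA 0 1
    have a20 := Qcq_sk hA 2 0
    have a12 := Qcq_sk hA 1 2
    have a30 := Qcq_sk hA 3 0
    have a31 := Qcq_sk hA 3 1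
    have a32 := Qcq_sk hA 3 2
    ext i j
    fin_cases i <;> fin_cases j <;>
      simp [c0, c1, c2, k0, k1, k2, a0, a1, a2, a3, a01, a20, a12, a30, a31, a32]

theorem thm_Qcq : St_Qcq := by
  rintro m (rfl | rfl) ε hε
  · obtain ⟨h1, h2, h3, h4, h5⟩ := Qcq_m3 ε
    refine ⟨h1, h2, h3, fun x => ?_, fun A hA h0 _ => h5 A hA h0⟩
    obtain ⟨A, hA, hx⟩ := h4 x
    exact ⟨A, hA, hx, fun h => absurd h (by norm_num)⟩
  · obtain ⟨h1, h2, h3, h4, h5⟩ := Qcq_m4 ε hε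
    refine ⟨h1, h2, h3, fun x => ?_, fun A hA h0 h0' => h5 A hA h0 (h0' rfl)⟩
    obtain ⟨A, hA, hx, hy⟩ := h4 x
    exact ⟨A, hA, hx, fun _ => hy⟩

end Pool.Agent.KQ4
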