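import Pool.Agent.KQ4.St

/-!
# KQ4, module QHM: the map of Clifford modules
-/

set_option autoImplicit false

namespace Pool.Agent.KQ4

open Module Matrix NumberField Pool.Agent.Helper7 Pool.Agent.KS Pool.Agent.Ball Pool.Agent.KSE
  Pool.Agent.Helper28.GPC Pool.Agent.KSR Pool.Agent.KSV Pool.Agent.K3P Pool.Agent.KTP
  Pool.Agent.KTW

/-- the actions after bijections of places and orthogonal maps -/
private theorem Qhm_QP {S S' V : Type} [AddCommGroup V] [Module ℂ V]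
    {s' : S' → (Fin 3 → ℂ) →ₗ[ℂ] Module.End ℂ V} {p' : Module.End ℂ V} (hQ : QP s' p')
    {φ : S → S'} (hφ : Function.Injective φ) {g : S → (Fin 3 → ℂ) →ₗ[ℂ] (Fin 3 → ℂ)}
    (hd : ∀ σ x y, g σ x ⬝ᵥ g σ y = x ⬝ᵥ y)
    (hg : ∀ σ x y, g σ (crossProduct x y) = crossProduct (g σ x) (g σ y)) :
    QP (fun σ => s' (φ σ) ∘ₗ g σ) p' where
  pp := hQ.pp
  ne := hQ.ne
  ps := fun σ x => hQ.ps (φ σ) (g σ x)
  mul := fun σ x y => by
    simp only [LinearMap.comp_apply]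
    rw [hQ.mul (φ σ) (g σ x) (g σ y), hd, hg]
  cc := fun σ ρ hne x y => hQ.cc (φ σ) (φ ρ) (fun h => hne (hφ h)) (g σ x) (g ρ y)

private theorem Qhm_cross (y : Fin 3 → ℂ) (h : ∀ w : Fin 3 → ℂ, crossProduct w y = 0) : y = 0 := by
  have h1 := h ![1, 0, 0]
  have h2 := h ![0, 1, 0]
  rw [cross_apply] at h1 h2
  have a1 := congrFun h1 1
  have a2 := congrFun h1 2
  have a3 := congrFun h2 2
  simp at a1 a2 a3
  funext i
  fin_cases i
  · exact a3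
  · exact a2
  · exact a1

private theorem Qhm_dot (z : Fin 3 → ℂ) (h : ∀ w : Fin 3 → ℂ, w ⬝ᵥ z = 0) : z = 0 := by
  funext i
  have h1 := h (Pi.single i 1)
  rw [single_dotProduct, one_mul] at h1
  exact h1

/-- the second part: the coordinates vanish -/
private theorem Qhm_zero {S S' V V' : Type} [Fintype S] [AddCommGroup V] [Module ℂ V]
    [AddCommGroup V'] [Module ℂ V'] {s : S → (Fin 3 → ℂ) →ₗ[ℂ] Module.End ℂ V}
    {s' : S' → (Fin 3 → ℂ) →ₗ[ℂ] Module.End ℂ V'} {p' : Module.End ℂ V'} (hQ : QP s' p')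
    {φ : S → S'} (hφ : Function.Injective φ) {g : S → (Fin 3 → ℂ) →ₗ[ℂ] (Fin 3 → ℂ)}
    (hgs : ∀ σ, Function.Surjective (g σ)) {F : V →ₗ[ℂ] V'} (hF : F ≠ 0)
    (hpF : ∀ v, p' (F v) = F v) (hFs : ∀ σ x v, F (s σ x v) = s' (φ σ) (g σ x) (F v))
    (y : S → (Fin 3 → ℂ)) (h0 : ∀ v, ∑ σ, s' (φ σ) (y σ) (F v) = 0) (ρ : S) : y ρ = 0 := by
  classical
  have hmul : ∀ (a b : Fin 3 → ℂ) (v : V), s' (φ ρ) a (s' (φ ρ) b (F v)) =
      (-(a ⬝ᵥ b) / 4) • F v + (1 / 2 : ℂ) • s' (φ ρ) (crossProduct a b) (F v) := by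
    intro a b v
    have h1 := LinearMap.congr_fun (hQ.mul (φ ρ) a b) (F v)
    simp only [Module.End.mul_apply, LinearMap.add_apply, LinearMap.smul_apply, hpF v] at h1
    exact h1
  -- brackets
  have h1 : ∀ (a : Fin 3 → ℂ) (v : V), s' (φ ρ) (crossProduct a (y ρ)) (F v) = 0 := by
    intro a v
    obtain ⟨x, rfl⟩ := hgs ρ a
    have e1 : ∑ σ, s' (φ ρ) (g ρ x) (s' (φ σ) (y σ) (F v)) = 0 := by
      rw [← map_sum, h0 v, map_zero]
    have e2 : ∑ σ, s' (φ σ) (y σ) (s' (φ ρ) (g ρ x) (F v)) = 0 := by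
      rw [← hFs]
      exact h0 _
    have e3 : ∑ σ, (s' (φ ρ) (g ρ x) (s' (φ σ) (y σ) (F v)) -
        s' (φ σ) (y σ) (s' (φ ρ) (g ρ x) (F v))) = 0 := by
      rw [Finset.sum_sub_distrib, e1, e2, sub_zero]
    rw [Finset.sum_eq_single ρ (by
      intro σ _ hne
      have h2 := LinearMap.congr_fun (hQ.cc (φ ρ) (φ σ) (fun h => hne (hφ h).symm) (g ρ x) (y σ))
        (F v)
      simp only [Module.End.mul_apply] at h2
      rw [h2, sub_self]) (fun h => absurd (Finset.mem_univ _) h)] at e3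
    rw [hmul, hmul, dotProduct_comm (y ρ) (g ρ x), ← cross_anticomm (g ρ x) (y ρ), map_neg,
      LinearMap.neg_apply] at e3
    have e4 : s' (φ ρ) (crossProduct (g ρ x) (y ρ)) (F v) =
        ((-(g ρ x ⬝ᵥ y ρ) / 4) • F v + (1 / 2 : ℂ) • s' (φ ρ) (crossProduct (g ρ x) (y ρ)) (F v)) -
        ((-(g ρ x ⬝ᵥ y ρ) / 4) • F v + (1 / 2 : ℂ) •
          -(s' (φ ρ) (crossProduct (g ρ x) (y ρ)) (F v))) := by
      rw [smul_neg]
      module
    rw [e4]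
    exact e3
  have h2 : ∀ z : Fin 3 → ℂ, (∀ v, s' (φ ρ) z (F v) = 0) → z = 0 := by
    intro z hz
    refine Qhm_dot z fun a => ?_
    obtain ⟨x, rfl⟩ := hgs ρ a
    by_contra hne
    refine hF (LinearMap.ext fun v => ?_)
    have e1 : s' (φ ρ) (g ρ x) (s' (φ ρ) z (F v)) = 0 := by rw [hz v, map_zero]
    have e2 : s' (φ ρ) z (s' (φ ρ) (g ρ x) (F v)) = 0 := by rw [← hFs]; exact hz _
    rw [hmul] at e1 e2
    rw [dotProduct_comm z (g ρ x), ← cross_anticomm (g ρ x) z, map_neg, LinearMap.neg_apply] at e2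
    have e3 : (g ρ x ⬝ᵥ z) • F v = 0 := by
      have e4 : (g ρ x ⬝ᵥ z) • F v = (-2 : ℂ) •
          (((-(g ρ x ⬝ᵥ z) / 4) • F v + (1 / 2 : ℂ) • s' (φ ρ) (crossProduct (g ρ x) z) (F v)) +
          ((-(g ρ x ⬝ᵥ z) / 4) • F v + (1 / 2 : ℂ) •
            -(s' (φ ρ) (crossProduct (g ρ x) z) (F v)))) := by
        rw [smul_neg]
        module
      rw [e4, e1, e2, add_zero, smul_zero]
    rw [LinearMap.zero_apply]
    exact (smul_eq_zero.1 e3).resolve_left hne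
  exact Qhm_cross (y ρ) fun w => h2 _ (h1 w)

theorem thm_Qhm (hQcl : St_Qcl) (hQav : St_Qav) (hQso : St_Qso) : St_Qhm := by
  classical
  intro κ κ' K K' _ _ _ _ _ _ _ _ _ _ c c' m m' h h' t t' hc hc' hh hh' hd hd' ht ht' hr hr' hm hm'
    ε ε' hε hε' φ hφ C C' g hC hC' hg hgc
  obtain ⟨s, p, hQ, hX⟩ := hQcl κ K c m h t hc hh hd ht hr hm ε hε C hC
  let e : (K →+* ℂ) ≃ (K' →+* ℂ) := Equiv.ofBijective φ hφ
  have heφ : ∀ ρ, φ (e.symm ρ) = ρ := fun ρ => e.apply_symm_apply ρ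
  have heσ : ∀ σ, e.symm (φ σ) = σ := fun σ => e.symm_apply_apply σ
  obtain ⟨s', p', hQ', hY⟩ := hQcl κ' K' c' m' h' t' hc' hh' hd' ht' hr' hm' ε' hε'
    (fun ρ => C' (e.symm ρ)) (fun ρ => by
      have h1 := hC' (e.symm ρ)
      rw [heφ ρ] at h1
      exact h1)
  have hdot : ∀ σ x y, g σ x ⬝ᵥ g σ y = x ⬝ᵥ y := fun σ => hQso (g σ) (hg σ) (hgc σ)
  obtain ⟨F, hF, hFp, hpF, hFs⟩ := hQav (K →+* ℂ) (κ → ℂ) (κ' → ℂ) s p
    (fun σ => s' (φ σ) ∘ₗ g σ) p' hQ (Qhm_QP hQ' hφ.1 hdot hgc)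
  have hFp' : ∀ v, F (p v) = F v := fun v => LinearMap.congr_fun hFp v
  have hpF' : ∀ v, p' (F v) = F v := fun v => LinearMap.congr_fun hpF v
  have hFs' : ∀ σ x v, F (s σ x v) = s' (φ σ) (g σ x) (F v) := fun σ x v =>
    LinearMap.congr_fun (hFs σ x) v
  have hYF : ∀ Y ∈ bvS t', ∀ M', ActM t' Y M' → ∀ v, Y (F v) =
      ∑ σ, s' (φ σ) (cf ε' h' (φ σ) (C' σ) (M' (φ σ))) (F v) := by
    intro Y hYm M' hA v
    have h1 := LinearMap.congr_fun (hY Y hYm M' hA).2 (F v)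
    simp only [Module.End.mul_apply, hpF' v, LinearMap.sum_apply] at h1
    rw [h1, ← Equiv.sum_comp e]
    refine Finset.sum_congr rfl fun σ _ => ?_
    have h2 : e σ = φ σ := rfl
    rw [h2, heσ σ]
  refine ⟨F, hF, ?_, ?_⟩
  · intro X hXm M hA Y hYm M' hA' hl
    refine LinearMap.ext fun v => ?_
    rw [LinearMap.comp_apply, LinearMap.comp_apply, hYF Y hYm M' hA' v]
    obtain ⟨x1, x2⟩ := hX X hXm M hA
    have h1 := LinearMap.congr_fun x1 v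
    have h2 := LinearMap.congr_fun x2 v
    simp only [Module.End.mul_apply, LinearMap.sum_apply] at h1 h2
    rw [← hFp' (X v), ← h1, h2, map_sum]
    refine Finset.sum_congr rfl fun σ _ => ?_
    rw [hFs', hFp' v, hl σ]
  · intro Y hYm M' hA' h0 σ
    refine Qhm_zero hQ' hφ.1 (fun σ => (hg σ).2) hF hpF' hFs'
      (fun σ => cf ε' h' (φ σ) (C' σ) (M' (φ σ))) (fun v => ?_) σ
    rw [← hYF Y hYm M' hA' v]
    exact LinearMap.congr_fun h0 v

end Pool.Agent.KQ4
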