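import Pool.Agent.KQ4.St

/-!
# KQ4 [Qlk]: a link at the Hodge places gives links at all places (helper82)
-/

set_option autoImplicit false

namespace Pool.Agent.KQ4

open Module Matrix NumberField Pool.Agent.Helper7 Pool.Agent.KS Pool.Agent.Ball Pool.Agent.KSE
  Pool.Agent.Helper28.GPC Pool.Agent.KSR Pool.Agent.KSV

section one

variable {K : Type} [Field K] {m : ℕ} {h : Matrix (Fin m) (Fin m) K} {σ : K →+* ℂ}
  {B : Matrix (Fin m) (Fin m) ℂ}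

private lemma Qlk_inv (hB : Bᵀ * h.map σ * B = 1) : B * (Bᵀ * h.map σ) = 1 :=
  mul_eq_one_comm.1 hB

private lemma Qlk_skew (hs : hᵀ = h) {M : Matrix (Fin m) (Fin m) ℂ} (hM : SkP h σ M) :
    (Bᵀ * h.map σ * M * B)ᵀ = -(Bᵀ * h.map σ * M * B) := by
  have hH : (h.map σ)ᵀ = h.map σ := by rw [← Matrix.transpose_map, hs]
  have h1 : Mᵀ * h.map σ = -(h.map σ * M) := eq_neg_of_add_eq_zero_left hM
  rw [Matrix.transpose_mul, Matrix.transpose_mul, Matrix.transpose_mul, Matrix.transpose_transpose,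
    hH]
  have h2 : Bᵀ * (Mᵀ * (h.map σ * B)) = Bᵀ * ((Mᵀ * h.map σ) * B) := by
    rw [Matrix.mul_assoc]
  rw [h2, h1, Matrix.neg_mul, Matrix.mul_neg, Matrix.mul_assoc, Matrix.mul_assoc, Matrix.mul_assoc]

private lemma Qlk_mul (hB : Bᵀ * h.map σ * B = 1) (M M' : Matrix (Fin m) (Fin m) ℂ) :
    Bᵀ * h.map σ * (M * M') * B = (Bᵀ * h.map σ * M * B) * (Bᵀ * h.map σ * M' * B) := by
  have h1 : (Bᵀ * h.map σ * M * B) * (Bᵀ * h.map σ * M' * B) =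
      Bᵀ * h.map σ * M * (B * (Bᵀ * h.map σ)) * M' * B := by
    simp only [Matrix.mul_assoc]
  rw [h1, Qlk_inv hB, Matrix.mul_one]
  simp only [Matrix.mul_assoc]

private lemma Qlk_br (hB : Bᵀ * h.map σ * B = 1) (M M' : Matrix (Fin m) (Fin m) ℂ) :
    Bᵀ * h.map σ * (M * M' - M' * M) * B = (Bᵀ * h.map σ * M * B) * (Bᵀ * h.map σ * M' * B) -
      (Bᵀ * h.map σ * M' * B) * (Bᵀ * h.map σ * M * B) := by
  rw [Matrix.mul_sub, Matrix.sub_mul, Qlk_mul hB, Qlk_mul hB]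

private lemma Qlk_ex (hs : hᵀ = h) (hB : Bᵀ * h.map σ * B = 1) (A : Matrix (Fin m) (Fin m) ℂ)
    (hA : Aᵀ = -A) : ∃ M, SkP h σ M ∧ Bᵀ * h.map σ * M * B = A := by
  have hH : (h.map σ)ᵀ = h.map σ := by rw [← Matrix.transpose_map, hs]
  refine ⟨B * A * (Bᵀ * h.map σ), ?_, ?_⟩
  · rw [SkP]
    have h1 : (B * A * (Bᵀ * h.map σ))ᵀ = h.map σ * B * Aᵀ * Bᵀ := by
      rw [Matrix.transpose_mul, Matrix.transpose_mul, Matrix.transpose_mul,
        Matrix.transpose_transpose, hH]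
      simp only [Matrix.mul_assoc]
    rw [h1, hA]
    simp only [Matrix.mul_assoc, Matrix.mul_neg, Matrix.neg_mul]
    exact neg_add_cancel _
  · have h1 : Bᵀ * h.map σ * (B * A * (Bᵀ * h.map σ)) * B =
        (Bᵀ * h.map σ * B) * A * (Bᵀ * h.map σ * B) := by
      simp only [Matrix.mul_assoc]
    rw [h1, hB, Matrix.one_mul, Matrix.mul_one]

private lemma Qlk_en (τ : ℂ ≃+* ℂ) (A : Matrix (Fin m) (Fin m) ℂ) (a b : ℕ) :
    en (A.map τ) a b = τ (en A a b) := by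
  unfold en
  by_cases h1 : a < m ∧ b < m
  · rw [dif_pos h1, dif_pos h1, Matrix.map_apply]
  · rw [dif_neg h1, dif_neg h1, map_zero]

private lemma Qlk_cq (τ : ℂ ≃+* ℂ) {ε : ℂ} (hε : ε = 1 ∨ ε = -1) (A : Matrix (Fin m) (Fin m) ℂ)
    (k : Fin 3) : cq ε (A.map τ) k = τ (cq ε A k) := by
  have h1 : τ ε = ε := by
    rcases hε with rfl | rfl
    · exact map_one τ
    · rw [map_neg, map_one]
  unfold cq
  fin_cases k
  · show en (A.map τ) 2 1 + ε * en (A.map τ) 0 3 = τ (en A 2 1 + ε * en A 0 3)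
    rw [Qlk_en, Qlk_en, map_add, map_mul, h1]
  · show en (A.map τ) 0 2 + ε * en (A.map τ) 1 3 = τ (en A 0 2 + ε * en A 1 3)
    rw [Qlk_en, Qlk_en, map_add, map_mul, h1]
  · show en (A.map τ) 1 0 + ε * en (A.map τ) 2 3 = τ (en A 1 0 + ε * en A 2 3)
    rw [Qlk_en, Qlk_en, map_add, map_mul, h1]

private lemma Qlk_map (τ : ℂ ≃+* ℂ) : h.map ((τ : ℂ →+* ℂ).comp σ) = (h.map σ).map τ := by
  ext a b
  rfl

private lemma Qlk_tw (τ : ℂ ≃+* ℂ) {ε : ℂ} (hε : ε = 1 ∨ ε = -1) (M : Matrix (Fin m) (Fin m) ℂ)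
    (k : Fin 3) : cf ε h ((τ : ℂ →+* ℂ).comp σ) (B.map τ) (M.map τ) k = τ (cf ε h σ B M k) := by
  unfold cf
  rw [← Qlk_cq τ hε, Qlk_map]
  congr 2
  have h1 : ∀ X Y : Matrix (Fin m) (Fin m) ℂ, (X * Y).map τ = X.map τ * Y.map τ := by
    intro X Y
    exact Matrix.map_mul (f := (τ : ℂ →+* ℂ))
  rw [h1, h1, h1, Matrix.transpose_map]

private lemma Qlk_frame (τ : ℂ ≃+* ℂ) (hB : Bᵀ * h.map σ * B = 1) :
    (B.map τ)ᵀ * h.map ((τ : ℂ →+* ℂ).comp σ) * B.map τ = 1 := by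
  have h1 : ∀ X Y : Matrix (Fin m) (Fin m) ℂ, (X * Y).map τ = X.map τ * Y.map τ := by
    intro X Y
    exact Matrix.map_mul (f := (τ : ℂ →+* ℂ))
  rw [Qlk_map, ← Matrix.transpose_map, ← h1, ← h1, hB]
  exact Matrix.map_one _ (map_zero τ) (map_one τ)

end one

private lemma Qlk_zero {y : Fin 3 → ℂ} (hy : ∀ x, crossProduct y x = 0) : y = 0 := by
  have h0 := hy (Pi.single 0 1)
  have h1 := hy (Pi.single 1 1)
  rw [cross_apply] at h0 h1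
  have a1 := congrFun h0 1
  have a2 := congrFun h0 2
  have b0 := congrFun h1 0
  simp at a1 a2 b0
  funext k
  fin_cases k
  · have b2 := congrFun h1 2
    simp at b2
    exact b2
  · exact a2
  · exact a1

private lemma Qlk_cross (τ : ℂ ≃+* ℂ) (x y : Fin 3 → ℂ) :
    crossProduct (fun k => τ (x k)) (fun k => τ (y k)) = fun k => τ (crossProduct x y k) := by
  funext k
  rw [cross_apply, cross_apply]
  fin_cases k
  · show τ (x 1) * τ (y 2) - τ (x 2) * τ (y 1) = τ (x 1 * y 2 - x 2 * y 1)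
    rw [map_sub, map_mul, map_mul]
  · show τ (x 2) * τ (y 0) - τ (x 0) * τ (y 2) = τ (x 2 * y 0 - x 0 * y 2)
    rw [map_sub, map_mul, map_mul]
  · show τ (x 0) * τ (y 1) - τ (x 1) * τ (y 0) = τ (x 0 * y 1 - x 1 * y 0)
    rw [map_sub, map_mul, map_mul]

theorem thm_Qlk (hQ : St_Qcq) : St_Qlk := by
  classical
  intro I _ _ K _ _ m h σ₀ hsym hnd R hsk hbr htw i j hmi hmj core ε ε' hε2 hε'2 B B' hB hB' hε hε'
    hlink
  -- coordinates of brackets, linearity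
  have cadd : ∀ (l : I), (m l = 3 ∨ m l = 4) → ∀ (e : ℂ), e * e = 1 → ∀ (σ : K l →+* ℂ)
      (D M N : Matrix (Fin (m l)) (Fin (m l)) ℂ),
      cf e (h l) σ D (M + N) = cf e (h l) σ D M + cf e (h l) σ D N := by
    intro l hl e he σ D M N
    unfold cf
    rw [Matrix.mul_add, Matrix.add_mul, (hQ (m l) hl e he).1]
  have csmul : ∀ (l : I), (m l = 3 ∨ m l = 4) → ∀ (e : ℂ), e * e = 1 → ∀ (σ : K l →+* ℂ)
      (D M : Matrix (Fin (m l)) (Fin (m l)) ℂ) (r : ℂ),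
      cf e (h l) σ D (r • M) = r • cf e (h l) σ D M := by
    intro l hl e he σ D M r
    unfold cf
    rw [Matrix.mul_smul, Matrix.smul_mul, (hQ (m l) hl e he).2.1]
  have cbr : ∀ (l : I), (m l = 3 ∨ m l = 4) → ∀ (e : ℂ), e * e = 1 → ∀ (σ : K l →+* ℂ)
      (D M N : Matrix (Fin (m l)) (Fin (m l)) ℂ), Dᵀ * (h l).map σ * D = 1 → SkP (h l) σ M →
      SkP (h l) σ N → cf e (h l) σ D (M * N - N * M) =
        crossProduct (cf e (h l) σ D M) (cf e (h l) σ D N) := by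
    intro l hl e he σ D M N hD hM hN
    unfold cf
    rw [Qlk_br hD, (hQ (m l) hl e he).2.2.1 _ _ (Qlk_skew (hsym l) hM) (Qlk_skew (hsym l) hN)]
  have onto : ∀ (l : I), (l = i ∨ l = j) → (m l = 3 ∨ m l = 4) → ∀ (e : ℂ), e * e = 1 →
      ∀ (D : Matrix (Fin (m l)) (Fin (m l)) ℂ), Dᵀ * (h l).map (σ₀ l) * D = 1 →
      ∀ x : Fin 3 → ℂ, ∃ M ∈ R, (∀ p : PL K, p.2 ≠ σ₀ p.1 → M p = 0) ∧
        cf e (h l) (σ₀ l) D (M ⟨l, σ₀ l⟩) = x := by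
    intro l hlij hl e he D hD x
    obtain ⟨A, hA, hAx, -⟩ := (hQ (m l) hl e he).2.2.2.1 x
    obtain ⟨Z, hZ, hZA⟩ := Qlk_ex (hsym l) hD A hA
    obtain ⟨M, hM, hMZ, hM0⟩ := core l hlij Z hZ
    refine ⟨M, hM, hM0, ?_⟩
    rw [hMZ]
    unfold cf
    rw [hZA, hAx]
  -- the two coordinate maps
  obtain ⟨ci, hci⟩ : ∃ ci : (∀ p : PL K, Matrix (Fin (m p.1)) (Fin (m p.1)) ℂ) → (Fin 3 → ℂ),
    ci = fun M => cf ε (h i) (σ₀ i) B (M ⟨i, σ₀ i⟩) := ⟨_, rfl⟩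
  obtain ⟨cj', hcj⟩ : ∃ cj' : (∀ p : PL K, Matrix (Fin (m p.1)) (Fin (m p.1)) ℂ) → (Fin 3 → ℂ),
    cj' = fun M => cf ε' (h j) (σ₀ j) B' (M ⟨j, σ₀ j⟩) := ⟨_, rfl⟩
  have hci' : ∀ M, ci M = cf ε (h i) (σ₀ i) B (M ⟨i, σ₀ i⟩) := fun M => by rw [hci]
  have hcj'' : ∀ M, cj' M = cf ε' (h j) (σ₀ j) B' (M ⟨j, σ₀ j⟩) := fun M => by rw [hcj]
  have ci_br : ∀ M ∈ R, ∀ N ∈ R, ci (M * N - N * M) = crossProduct (ci M) (ci N) := by
    intro M hM N hN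
    rw [hci', hci', hci']
    exact cbr i hmi ε hε2 (σ₀ i) B (M ⟨i, σ₀ i⟩) (N ⟨i, σ₀ i⟩) hB (hsk M hM ⟨i, σ₀ i⟩)
      (hsk N hN ⟨i, σ₀ i⟩)
  have cj_br : ∀ M ∈ R, ∀ N ∈ R, cj' (M * N - N * M) = crossProduct (cj' M) (cj' N) := by
    intro M hM N hN
    rw [hcj'', hcj'', hcj'']
    exact cbr j hmj ε' hε'2 (σ₀ j) B' (M ⟨j, σ₀ j⟩) (N ⟨j, σ₀ j⟩) hB' (hsk M hM ⟨j, σ₀ j⟩)
      (hsk N hN ⟨j, σ₀ j⟩)
  have ci_add : ∀ M N, ci (M + N) = ci M + ci N := by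
    intro M N
    rw [hci', hci', hci', Pi.add_apply, cadd i hmi ε hε2]
  have cj_add : ∀ M N, cj' (M + N) = cj' M + cj' N := by
    intro M N
    rw [hcj'', hcj'', hcj'', Pi.add_apply, cadd j hmj ε' hε'2]
  have ci_smul : ∀ (r : ℂ) M, ci (r • M) = r • ci M := by
    intro r M
    rw [hci', hci', Pi.smul_apply, csmul i hmi ε hε2]
  have cj_smul : ∀ (r : ℂ) M, cj' (r • M) = r • cj' M := by
    intro r M
    rw [hcj'', hcj'', Pi.smul_apply, csmul j hmj ε' hε'2]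
  have ci_onto : ∀ x, ∃ M ∈ R, (∀ p : PL K, p.2 ≠ σ₀ p.1 → M p = 0) ∧ ci M = x := by
    intro x
    obtain ⟨M, hM, hM0, hMx⟩ := onto i (Or.inl rfl) hmi ε hε2 B hB x
    exact ⟨M, hM, hM0, by rw [hci', hMx]⟩
  have cj_onto : ∀ x, ∃ M ∈ R, (∀ p : PL K, p.2 ≠ σ₀ p.1 → M p = 0) ∧ cj' M = x := by
    intro x
    obtain ⟨M, hM, hM0, hMx⟩ := onto j (Or.inr rfl) hmj ε' hε'2 B' hB' x
    exact ⟨M, hM, hM0, by rw [hcj'', hMx]⟩
  have br0 : ∀ M N : (∀ p : PL K, Matrix (Fin (m p.1)) (Fin (m p.1)) ℂ),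
      (∀ p : PL K, p.2 ≠ σ₀ p.1 → N p = 0) →
      ∀ p : PL K, p.2 ≠ σ₀ p.1 → (M * N - N * M) p = 0 := by
    intro M N hN p hp
    rw [Pi.sub_apply, Pi.mul_apply, Pi.mul_apply, hN p hp, mul_zero, zero_mul, sub_zero]
  -- (1) the link on R
  have link : ∀ M ∈ R, ci M = 0 ↔ cj' M = 0 := by
    intro M hM
    constructor
    · intro h0
      apply Qlk_zero
      intro x
      obtain ⟨N, hN, hN0, hNx⟩ := cj_onto x
      have h1 := hlink (M * N - N * M) (hbr M hM N hN) (br0 M N hN0)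
      rw [← hNx, ← cj_br M hM N hN, hcj'']
      rw [← hci', ci_br M hM N hN, h0, map_zero, LinearMap.zero_apply] at h1
      exact h1.1 rfl
    · intro h0
      apply Qlk_zero
      intro x
      obtain ⟨N, hN, hN0, hNx⟩ := ci_onto x
      have h1 := hlink (M * N - N * M) (hbr M hM N hN) (br0 M N hN0)
      rw [← hNx, ← ci_br M hM N hN, hci']
      rw [← hcj'', cj_br M hM N hN, h0, map_zero, LinearMap.zero_apply] at h1
      exact h1.2 rfl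
  -- (2) the linear map
  choose Me hMe hMe0 hMex using fun k : Fin 3 => ci_onto (Pi.single k 1)
  obtain ⟨g₀, hg₀⟩ : ∃ g₀ : (Fin 3 → ℂ) →ₗ[ℂ] (Fin 3 → ℂ), ∀ x, g₀ x = ∑ k, x k • cj' (Me k) :=
    ⟨{ toFun := fun x => ∑ k, x k • cj' (Me k)
       map_add' := fun x y => by
        simp only [Pi.add_apply, add_smul, Finset.sum_add_distrib]
       map_smul' := fun r x => by
        simp only [Pi.smul_apply, smul_eq_mul, mul_smul, Finset.smul_sum, RingHom.id_apply] },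
      fun _ => rfl⟩
  have sum_ci : ∀ (x : Fin 3 → ℂ), (∑ k, x k • Me k) ∈ R ∧ ci (∑ k, x k • Me k) = x ∧
      cj' (∑ k, x k • Me k) = g₀ x := by
    intro x
    refine ⟨Submodule.sum_mem _ fun k _ => Submodule.smul_mem _ _ (hMe k), ?_, ?_⟩
    · rw [Fin.sum_univ_three, ci_add, ci_add, ci_smul, ci_smul, ci_smul, hMex, hMex, hMex]
      funext k
      fin_cases k <;> simp
    · rw [hg₀, Fin.sum_univ_three, Fin.sum_univ_three, cj_add, cj_add, cj_smul, cj_smul, cj_smul]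
  have hg : ∀ M ∈ R, cj' M = g₀ (ci M) := by
    intro M hM
    obtain ⟨h1, h2, h3⟩ := sum_ci (ci M)
    have h4 : ci (M + (-1 : ℂ) • ∑ k, ci M k • Me k) = 0 := by
      rw [ci_add, ci_smul, h2, neg_one_smul, add_neg_cancel]
    have h5 := (link _ (Submodule.add_mem _ hM (Submodule.smul_mem _ _ h1))).1 h4
    rw [cj_add, cj_smul, h3, neg_one_smul, add_neg_eq_zero] at h5
    exact h5
  have hginj : Function.Injective g₀ := by
    rw [← LinearMap.ker_eq_bot, LinearMap.ker_eq_bot']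
    intro x hx
    obtain ⟨h1, h2, h3⟩ := sum_ci x
    rw [← h2]
    apply (link _ h1).2
    rw [h3, hx]
  have hgx : ∀ x y, g₀ (crossProduct x y) = crossProduct (g₀ x) (g₀ y) := by
    intro x y
    obtain ⟨h1, h2, h3⟩ := sum_ci x
    obtain ⟨h1', h2', h3'⟩ := sum_ci y
    rw [← h3, ← h3', ← cj_br _ h1 _ h1', hg _ (hbr _ h1 _ h1'), ci_br _ h1 _ h1', h2, h2']
  -- (3) stabilisers
  have twi : ∀ (τ : ℂ ≃+* ℂ) (M : ∀ p : PL K, Matrix (Fin (m p.1)) (Fin (m p.1)) ℂ) (k : Fin 3),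
      cf ε (h i) ((τ : ℂ →+* ℂ).comp (σ₀ i)) (B.map τ) (M ⟨i, (τ : ℂ →+* ℂ).comp (σ₀ i)⟩) k =
        τ (ci (twP τ.symm M) k) := by
    intro τ M k
    rw [hci', KSR.IsoA.twP_symm, ← Qlk_tw τ hε]
    congr 2
    ext a b
    rw [Matrix.map_apply, Matrix.map_apply, RingEquiv.apply_symm_apply]
  have twj : ∀ (τ : ℂ ≃+* ℂ) (M : ∀ p : PL K, Matrix (Fin (m p.1)) (Fin (m p.1)) ℂ) (k : Fin 3),
      cf ε' (h j) ((τ : ℂ →+* ℂ).comp (σ₀ j)) (B'.map τ) (M ⟨j, (τ : ℂ →+* ℂ).comp (σ₀ j)⟩) k =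
        τ (cj' (twP τ.symm M) k) := by
    intro τ M k
    rw [hcj'', KSR.IsoA.twP_symm, ← Qlk_tw τ hε']
    congr 2
    ext a b
    rw [Matrix.map_apply, Matrix.map_apply, RingEquiv.apply_symm_apply]
  have nz : ∀ (y : Fin 3 → ℂ) (τ : ℂ ≃+* ℂ), (∀ k, τ (y k) = 0) → y = 0 := by
    intro y τ h1
    funext k
    exact (map_eq_zero_iff τ τ.injective).1 (h1 k)
  have cf0 : ∀ (l : I), (m l = 3 ∨ m l = 4) → ∀ (e : ℂ), e * e = 1 → ∀ (σ : K l →+* ℂ)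
      (D : Matrix (Fin (m l)) (Fin (m l)) ℂ), cf e (h l) σ D 0 = 0 := by
    intro l hl e he σ D
    have h1 := csmul l hl e he σ D 0 0
    rw [zero_smul, zero_smul] at h1
    exact h1
  have stab1 : ∀ τ : ℂ ≃+* ℂ, (τ : ℂ →+* ℂ).comp (σ₀ i) = σ₀ i →
      (τ : ℂ →+* ℂ).comp (σ₀ j) = σ₀ j := by
    intro τ hτ
    by_contra hρ
    have hfr := Qlk_frame τ hB
    rw [hτ] at hfr
    obtain ⟨M, hM, hM0, hMx⟩ := onto i (Or.inl rfl) hmi ε hε2 (B.map τ) hfr (Pi.single 0 1)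
    have h1 : cj' (twP τ.symm M) = 0 := by
      apply nz _ τ
      intro k
      rw [← twj, hM0 ⟨j, (τ : ℂ →+* ℂ).comp (σ₀ j)⟩ hρ, cf0 j hmj ε' hε'2]
      rfl
    have h2 := (link _ (htw M hM τ.symm)).2 h1
    have h3 := twi τ M 0
    rw [h2, Pi.zero_apply, map_zero, hτ, hMx, Pi.single_eq_same] at h3
    exact one_ne_zero h3
  have stab2 : ∀ τ : ℂ ≃+* ℂ, (τ : ℂ →+* ℂ).comp (σ₀ j) = σ₀ j →
      (τ : ℂ →+* ℂ).comp (σ₀ i) = σ₀ i := by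
    intro τ hτ
    by_contra hρ
    have hfr := Qlk_frame τ hB'
    rw [hτ] at hfr
    obtain ⟨M, hM, hM0, hMx⟩ := onto j (Or.inr rfl) hmj ε' hε'2 (B'.map τ) hfr (Pi.single 0 1)
    have h1 : ci (twP τ.symm M) = 0 := by
      apply nz _ τ
      intro k
      rw [← twi, hM0 ⟨i, (τ : ℂ →+* ℂ).comp (σ₀ i)⟩ hρ, cf0 i hmi ε hε2]
      rfl
    have h2 := (link _ (htw M hM τ.symm)).1 h1
    have h3 := twj τ M 0
    rw [h2, Pi.zero_apply, map_zero, hτ, hMx, Pi.single_eq_same] at h3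
    exact one_ne_zero h3
  have key : ∀ {F : Type} [Field F] (s : F →+* ℂ) (τ τ' : ℂ ≃+* ℂ),
      ((τ.trans τ'.symm : ℂ ≃+* ℂ) : ℂ →+* ℂ).comp s = s ↔
        (τ : ℂ →+* ℂ).comp s = (τ' : ℂ →+* ℂ).comp s := by
    intro F _ s τ τ'
    constructor
    · intro h1
      ext x
      have h2 : τ'.symm (τ (s x)) = s x := RingHom.congr_fun h1 x
      show τ (s x) = τ' (s x)
      rw [← h2, RingEquiv.apply_symm_apply, h2]
    · intro h1
      ext x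
      have h2 : τ (s x) = τ' (s x) := RingHom.congr_fun h1 x
      show τ'.symm (τ (s x)) = s x
      rw [h2, RingEquiv.symm_apply_apply]
  have e12 : ∀ τ τ' : ℂ ≃+* ℂ, (τ : ℂ →+* ℂ).comp (σ₀ i) = (τ' : ℂ →+* ℂ).comp (σ₀ i) ↔
      (τ : ℂ →+* ℂ).comp (σ₀ j) = (τ' : ℂ →+* ℂ).comp (σ₀ j) := by
    intro τ τ'
    rw [← key, ← key]
    exact ⟨stab1 _, stab2 _⟩
  -- (4) all places
  have hex : ∀ σ : K i →+* ℂ, ∃ τ : ℂ ≃+* ℂ, (τ : ℂ →+* ℂ).comp (σ₀ i) = σ ∧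
      (σ = σ₀ i → τ = RingEquiv.refl ℂ) := by
    intro σ
    by_cases h1 : σ = σ₀ i
    · exact ⟨RingEquiv.refl ℂ, by rw [h1]; rfl, fun _ => rfl⟩
    · obtain ⟨τ, hτ⟩ := Helper84.exists_aut (σ₀ i) σ
      exact ⟨τ, hτ, fun h2 => absurd h2 h1⟩
  choose τ hτ hτ1 using hex
  have hid : ∀ {d : ℕ} (A : Matrix (Fin d) (Fin d) ℂ), A.map (RingEquiv.refl ℂ) = A := by
    intro d A
    ext a b
    rfl
  obtain ⟨G, hG⟩ : ∃ G : (K i →+* ℂ) → (Fin 3 → ℂ) →ₗ[ℂ] (Fin 3 → ℂ),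
      ∀ σ y, G σ (fun k => τ σ (y k)) = fun k => τ σ (g₀ y k) := by
    refine ⟨fun σ => Matrix.toLin' ((LinearMap.toMatrix' g₀).map (τ σ)), fun σ y => ?_⟩
    funext k
    have h1 : g₀ y k = ∑ l, LinearMap.toMatrix' g₀ k l * y l := by
      have h2 : g₀ y = LinearMap.toMatrix' g₀ *ᵥ y := by
        rw [← Matrix.toLin'_apply, Matrix.toLin'_toMatrix']
      rw [h2]
      rfl
    rw [h1, map_sum, Matrix.toLin'_apply]
    show ∑ l, (LinearMap.toMatrix' g₀).map (τ σ) k l * τ σ (y l) = _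
    refine Finset.sum_congr rfl fun l _ => ?_
    rw [map_mul, Matrix.map_apply]
  have hyx : ∀ (σ : K i →+* ℂ) (x : Fin 3 → ℂ), (fun k => τ σ ((τ σ).symm (x k))) = x := by
    intro σ x
    funext k
    exact (τ σ).apply_symm_apply _
  refine ⟨fun σ => (τ σ : ℂ →+* ℂ).comp (σ₀ j), fun σ => B.map (τ σ), fun σ => B'.map (τ σ), G,
    ⟨?_, ?_⟩, ?_, ?_, ?_, ?_, ?_, ?_, ?_, ?_⟩
  · intro σ σ' h1
    have h2 := (e12 (τ σ) (τ σ')).2 h1
    rw [hτ, hτ] at h2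
    exact h2
  · intro ρ
    obtain ⟨τ', hτ'⟩ := Helper84.exists_aut (σ₀ j) ρ
    refine ⟨(τ' : ℂ →+* ℂ).comp (σ₀ i), ?_⟩
    have h2 := (e12 (τ ((τ' : ℂ →+* ℂ).comp (σ₀ i))) τ').1 (hτ _)
    exact h2.trans hτ'
  · show (τ (σ₀ i) : ℂ →+* ℂ).comp (σ₀ j) = σ₀ j
    rw [hτ1 _ rfl]
    rfl
  · show B.map (τ (σ₀ i)) = B
    rw [hτ1 _ rfl]
    exact hid B
  · show B'.map (τ (σ₀ i)) = B'
    rw [hτ1 _ rfl]
    exact hid B'
  · intro σ
    have h1 := Qlk_frame (τ σ) hB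
    rw [hτ σ] at h1
    exact h1
  · intro σ
    exact Qlk_frame (τ σ) hB'
  · intro σ
    have hinj : Function.Injective (G σ) := by
      rw [← LinearMap.ker_eq_bot, LinearMap.ker_eq_bot']
      intro x hx
      rw [← hyx σ x, hG] at hx
      have h1 : g₀ (fun k => (τ σ).symm (x k)) = 0 := nz _ (τ σ) fun k => congrFun hx k
      have h2 : (fun k => (τ σ).symm (x k)) = 0 := by
        apply hginj
        rw [h1, map_zero]
      rw [← hyx σ x]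
      funext k
      have h3 : (τ σ).symm (x k) = 0 := congrFun h2 k
      show τ σ ((τ σ).symm (x k)) = 0
      rw [h3, map_zero]
    exact ⟨hinj, LinearMap.injective_iff_surjective.1 hinj⟩
  · intro σ x y
    rw [← hyx σ x, ← hyx σ y, Qlk_cross, hG, hG, hG, hgx, Qlk_cross]
  · intro M hM σ
    have h1 := hg _ (htw M hM (τ σ).symm)
    have h2 : cf ε (h i) σ (B.map (τ σ)) (M ⟨i, σ⟩) = fun k => τ σ (ci (twP (τ σ).symm M) k) := by
      funext k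
      rw [← twi, hτ σ]
    have h3 : cf ε' (h j) ((τ σ : ℂ →+* ℂ).comp (σ₀ j)) (B'.map (τ σ))
        (M ⟨j, (τ σ : ℂ →+* ℂ).comp (σ₀ j)⟩) = fun k => τ σ (cj' (twP (τ σ).symm M) k) := by
      funext k
      rw [← twj]
    show cf ε' (h j) ((τ σ : ℂ →+* ℂ).comp (σ₀ j)) (B'.map (τ σ))
        (M ⟨j, (τ σ : ℂ →+* ℂ).comp (σ₀ j)⟩) = G σ (cf ε (h i) σ (B.map (τ σ)) (M ⟨i, σ⟩))
    rw [h2, h3, hG, h1]

end Pool.Agent.KQ4
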