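import Pool.Agent.KQ4.St

/-!
# KQ4 [Qso]: bijective maps which respect the cross product are orthogonal (helper82)
-/

set_option autoImplicit false

namespace Pool.Agent.KQ4

open Matrix

theorem thm_Qso : St_Qso := by
  intro g hg hc x y
  have key : ∀ z : Fin 3 → ℂ, (g x ⬝ᵥ g y - x ⬝ᵥ y) • z = (g x ⬝ᵥ g z - x ⬝ᵥ z) • y := by
    intro z
    apply hg.1
    have h1 := congrArg g (cross_cross_eq_smul_sub_smul' x y z)
    rw [hc, hc, cross_cross_eq_smul_sub_smul', map_sub, map_smul, map_smul,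
      dotProduct_comm (g y) (g x), dotProduct_comm y x] at h1
    rw [map_smul, map_smul, sub_smul, sub_smul]
    have h2 : (g x ⬝ᵥ g z) • g y = (g x ⬝ᵥ g y) • g z + ((x ⬝ᵥ z) • g y - (x ⬝ᵥ y) • g z) := by
      rw [← h1]
      abel
    rw [h2]
    abel
  have h0 := key (Pi.single 0 1)
  have h1 := key (Pi.single 1 1)
  have a0 := congrFun h0 0
  have a1 := congrFun h0 1
  have b1 := congrFun h1 1
  simp only [Pi.smul_apply, Pi.single_apply, smul_eq_mul] at a0 a1 b1
  norm_num at a0 a1 b1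
  rcases a1 with h | h
  · rw [h, zero_mul] at a0
    exact sub_eq_zero.1 a0
  · rw [h, mul_zero] at b1
    exact sub_eq_zero.1 b1

end Pool.Agent.KQ4
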