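import Pool.Agent.KQ4.St

/-!
# KQ4 [RPA]: Goursat's lemma with links, abstract version
-/

set_option autoImplicit false

namespace Pool.Agent.KQ4

section

variable {𝓐 : Type} [Ring 𝓐] [Algebra ℂ 𝓐] {Q : Type} {E : Q → Type}
  [∀ q, AddCommGroup (E q)] [∀ q, Module ℂ (E q)]

/-- the ideal of the elements of `R` on which the `c q`, `q ∈ s`, vanish -/
def RpaId (R : Submodule ℂ 𝓐) (c : ∀ q, 𝓐 →ₗ[ℂ] E q) (s : Finset Q) : Submodule ℂ 𝓐 where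
  carrier := {X | X ∈ R ∧ ∀ q ∈ s, c q X = 0}
  add_mem' := by
    rintro X Y ⟨h1, h2⟩ ⟨h3, h4⟩
    exact ⟨R.add_mem h1 h3, fun q hq => by rw [map_add, h2 q hq, h4 q hq, add_zero]⟩
  zero_mem' := ⟨R.zero_mem, fun q _ => map_zero _⟩
  smul_mem' := by
    rintro r X ⟨h1, h2⟩
    exact ⟨R.smul_mem r h1, fun q hq => by rw [map_smul, h2 q hq, smul_zero]⟩

variable {R : Submodule ℂ 𝓐} {c : ∀ q, 𝓐 →ₗ[ℂ] E q}

lemma RpaId_mem (s : Finset Q) (X : 𝓐) : X ∈ RpaId R c s ↔ X ∈ R ∧ ∀ q ∈ s, c q X = 0 := Iff.rfl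

lemma RpaId_ideal (hbr : ∀ X ∈ R, ∀ Y ∈ R, X * Y - Y * X ∈ R)
    (h1 : ∀ q, ∀ X ∈ R, ∀ Y ∈ R, c q X = 0 → c q (Y * X - X * Y) = 0) (s : Finset Q) :
    ∀ X ∈ RpaId R c s, ∀ Y ∈ R, Y * X - X * Y ∈ RpaId R c s := by
  rintro X ⟨hX, hX0⟩ Y hY
  exact ⟨hbr Y hY X hX, fun q hq => h1 q X hX Y hY (hX0 q hq)⟩

lemma Rpa_one (hbr : ∀ X ∈ R, ∀ Y ∈ R, X * Y - Y * X ∈ R)
    (h1 : ∀ q, ∀ X ∈ R, ∀ Y ∈ R, c q X = 0 → c q (Y * X - X * Y) = 0)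
    (h2 : ∀ q, ∃ X ∈ R, ∃ Y ∈ R, c q (X * Y - Y * X) ≠ 0)
    (h3 : ∀ q, ∀ 𝔞 : Submodule ℂ 𝓐, 𝔞 ≤ R → (∀ X ∈ 𝔞, ∀ Y ∈ R, Y * X - X * Y ∈ 𝔞) →
      (∃ X ∈ 𝔞, c q X ≠ 0) → ∀ Y ∈ R, ∃ X ∈ 𝔞, c q X = c q Y) (q q' : Q)
    (hl : ¬ ∀ Y ∈ R, c q Y = 0 ↔ c q' Y = 0) : ∃ X ∈ R, c q' X = 0 ∧ c q X ≠ 0 := by
  classical
  by_contra hcon
  push Not at hcon
  have h4 : ∃ Y ∈ R, c q Y = 0 ∧ c q' Y ≠ 0 := by
    by_contra h5
    push Not at h5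
    exact hl fun Y hY => ⟨h5 Y hY, hcon Y hY⟩
  obtain ⟨Y, hY, hY0, hY1⟩ := h4
  obtain ⟨A, hA, B, hB, hAB⟩ := h2 q
  obtain ⟨X, ⟨hX, hX0⟩, hX1⟩ := h3 q' (RpaId R c {q}) (fun X hX => hX.1) (RpaId_ideal hbr h1 {q})
    ⟨Y, ⟨hY, fun r hr => by rw [Finset.mem_singleton.1 hr]; exact hY0⟩, hY1⟩ (A * B - B * A)
    (hbr A hA B hB)
  have h6 := hcon (A * B - B * A - X) (R.sub_mem (hbr A hA B hB) hX) (by
    rw [map_sub, hX1, sub_self])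
  rw [map_sub, hX0 q (Finset.mem_singleton_self q), sub_zero] at h6
  exact hAB h6

lemma Rpa_onto (hbr : ∀ X ∈ R, ∀ Y ∈ R, X * Y - Y * X ∈ R)
    (h1 : ∀ q, ∀ X ∈ R, ∀ Y ∈ R, c q X = 0 → c q (Y * X - X * Y) = 0)
    (h2 : ∀ q, ∃ X ∈ R, ∃ Y ∈ R, c q (X * Y - Y * X) ≠ 0)
    (h3 : ∀ q, ∀ 𝔞 : Submodule ℂ 𝓐, 𝔞 ≤ R → (∀ X ∈ 𝔞, ∀ Y ∈ R, Y * X - X * Y ∈ 𝔞) →
      (∃ X ∈ 𝔞, c q X ≠ 0) → ∀ Y ∈ R, ∃ X ∈ 𝔞, c q X = c q Y) (q : Q) [DecidableEq Q]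
    (s : Finset Q) (hs : ∀ q' ∈ s, ¬ ∀ Y ∈ R, c q Y = 0 ↔ c q' Y = 0) :
    ∀ Y ∈ R, ∃ X ∈ RpaId R c s, c q X = c q Y := by
  induction s using Finset.induction_on with
  | empty =>
    intro Y hY
    exact ⟨Y, ⟨hY, fun q hq => absurd hq (Finset.notMem_empty q)⟩, rfl⟩
  | insert q' s hq' ih =>
    have ih' := ih fun r hr => hs r (Finset.mem_insert_of_mem hr)
    obtain ⟨X, hX, hX0, hX1⟩ := Rpa_one hbr h1 h2 h3 q q' (hs q' (Finset.mem_insert_self _ _))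
    have honto := h3 q (RpaId R c {q'}) (fun X hX => hX.1) (RpaId_ideal hbr h1 {q'})
      ⟨X, ⟨hX, fun r hr => by rw [Finset.mem_singleton.1 hr]; exact hX0⟩, hX1⟩
    obtain ⟨A, hA, B, hB, hAB⟩ := h2 q
    obtain ⟨A', ⟨hA', hA'0⟩, hA'1⟩ := ih' A hA
    obtain ⟨B', ⟨hB', hB'0⟩, hB'1⟩ := honto B hB
    refine h3 q (RpaId R c (insert q' s)) (fun X hX => hX.1) (RpaId_ideal hbr h1 _)
      ⟨A' * B' - B' * A', ⟨hbr A' hA' B' hB', fun r hr => ?_⟩, fun h0 => hAB ?_⟩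
    · rcases Finset.mem_insert.1 hr with rfl | hr
      · exact h1 r B' hB' A' hA' (hB'0 r (Finset.mem_singleton_self r))
      · have h4 := h1 r A' hA' B' hB' (hA'0 r hr)
        rw [← neg_sub, map_neg, h4, neg_zero]
    · -- the bracket depends only on the values
      have e1 : c q (B * (A - A') - (A - A') * B) = 0 :=
        h1 q (A - A') (R.sub_mem hA hA') B hB (by rw [map_sub, hA'1, sub_self])
      have e2 : c q (A' * (B - B') - (B - B') * A') = 0 :=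
        h1 q (B - B') (R.sub_mem hB hB') A' hA' (by rw [map_sub, hB'1, sub_self])
      have e3 : A * B - B * A = -(B * (A - A') - (A - A') * B) + (A' * (B - B') - (B - B') * A') +
          (A' * B' - B' * A') := by noncomm_ring
      rw [e3, map_add, map_add, map_neg, e1, e2, h0, neg_zero, add_zero, add_zero]

end

theorem thm_Rpa : St_Rpa := by
  classical
  intro 𝓐 _ _ R hbr Q _ _ E _ _ c h1 h2 h3 D hD hl
  let S : Setoid Q :=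
    { r := fun q q' => ∀ Y ∈ R, c q Y = 0 ↔ c q' Y = 0
      iseqv :=
        { refl := fun q Y _ => Iff.rfl
          symm := fun h Y hY => (h Y hY).symm
          trans := fun h h' Y hY => (h Y hY).trans (h' Y hY) } }
  have hS : ∀ q q' : Q, S q q' ↔ ∀ Y ∈ R, c q Y = 0 ↔ c q' Y = 0 := fun _ _ => Iff.rfl
  obtain ⟨r, hr, hrr⟩ : ∃ r : Q → Q, (∀ q, S (r q) q) ∧ ∀ q q', S q q' → r q = r q' := by
    refine ⟨fun q => (Quotient.mk S q).out, fun q => Quotient.mk_out q, fun q q' h => ?_⟩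
    show (Quotient.mk S q).out = (Quotient.mk S q').out
    rw [Quotient.sound h]
  -- the elements for the representatives
  have key : ∀ q, ∃ X ∈ R, c q X = D q ∧ ∀ q', ¬ S q q' → c q' X = 0 := by
    intro q
    obtain ⟨Y, hY, hYD⟩ := hD q
    obtain ⟨X, ⟨hX, hX0⟩, hX1⟩ := Rpa_onto hbr h1 h2 h3 q
      (Finset.univ.filter fun q' => ¬ S q q') (fun q' hq' => (Finset.mem_filter.1 hq').2) Y hY
    exact ⟨X, hX, hX1.trans hYD, fun q' hq' => hX0 q' (Finset.mem_filter.2 ⟨Finset.mem_univ _, hq'⟩)⟩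
  choose X hX hXD hX0 using key
  let P : Finset Q := Finset.univ.image r
  refine ⟨∑ p ∈ P, X p, R.sum_mem fun p _ => hX p, fun q => ?_⟩
  -- at the representatives
  have hrep : ∀ q, c (r q) (∑ p ∈ P, X p) = D (r q) := by
    intro q
    rw [map_sum, Finset.sum_eq_single (r q)]
    · exact hXD (r q)
    · intro p hp hpq
      obtain ⟨q', -, rfl⟩ := Finset.mem_image.1 hp
      apply hX0
      intro h4
      apply hpq
      have h5 : S q' q := S.iseqv.trans (S.iseqv.symm (hr q')) (S.iseqv.trans h4 (hr q))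
      exact hrr q' q h5
    · intro h4
      exact absurd (Finset.mem_image_of_mem r (Finset.mem_univ q)) h4
  exact hl (r q) q (hr q) _ (R.sum_mem fun p _ => hX p) (hrep q)

end Pool.Agent.KQ4
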