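import Pool.Agent.KQ4.Frm
import Pool.Agent.KQ4.Qso
import Pool.Agent.KQ4.RPA
import Pool.Agent.KQ4.QAV
import Pool.Agent.KQ4.Qcq
import Pool.Agent.KQ4.Qc1
import Pool.Agent.KQ4.Qcl
import Pool.Agent.KQ4.Qdr
import Pool.Agent.KQ4.Qlk
import Pool.Agent.KQ4.Qhm
import Pool.Agent.KQ4.Ln4
import Pool.Agent.KQ4.Ft4
import Pool.Agent.KQ4.Lq4
import Pool.Agent.KQ4.Dg4
import Pool.Agent.KQ4.Kz4
import Pool.Agent.KTP.Kil

/-!
# KQ4: the Hodge projectors kill the Grothendieck forms, all real fields (helper86)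
-/

set_option autoImplicit false

namespace Pool.Agent.KQ4

/-- **KZ4** without hypotheses. -/
theorem kz4 : St_Kz4 :=
  thm_Kz4 (thm_Dg4 thm_Frm thm_Qcq thm_Rpa thm_Ln4 thm_Ft4
    (thm_Lq4 (thm_Qlk thm_Qcq) (thm_Qhm (thm_Qcl thm_Qc1) thm_Qav thm_Qso) thm_Qdr))
    Pool.Agent.KTP.thm_Kil

end Pool.Agent.KQ4
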