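import Pool.Agent.KTW.StZ

/-!
# KQ4: quadratic spaces of dimension four over real fields. Definitions

The orthogonal Lie algebra of dimension four is the sum of two copies of the one of dimension three.
-/

set_option autoImplicit false

namespace Pool.Agent.KQ4

open Module Matrix NumberField Pool.Agent.Helper7 Pool.Agent.KS Pool.Agent.Ball Pool.Agent.KSE
  Pool.Agent.Helper28.GPC Pool.Agent.KSR Pool.Agent.KSV

/-- the entries of a matrix, zero outside -/
noncomputable def en {m : ℕ} (A : Matrix (Fin m) (Fin m) ℂ) (a b : ℕ) : ℂ :=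
  if h : a < m ∧ b < m then A ⟨a, h.1⟩ ⟨b, h.2⟩ else 0

/-- the coordinates of a skew matrix of size three; for `m = 4`, `ε = 1, -1` the coordinates of the two
components of a skew matrix of size four -/
noncomputable def cq (ε : ℂ) {m : ℕ} (A : Matrix (Fin m) (Fin m) ℂ) : Fin 3 → ℂ :=
  ![en A 2 1 + ε * en A 0 3, en A 0 2 + ε * en A 1 3, en A 1 0 + ε * en A 2 3]

/-- the coordinates of a matrix at a place, with respect to the frame `B` -/
noncomputable def cf (ε : ℂ) {K : Type} [Field K] {m : ℕ} (h : Matrix (Fin m) (Fin m) K)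
    (σ : K →+* ℂ) (B M : Matrix (Fin m) (Fin m) ℂ) : Fin 3 → ℂ :=
  cq ε (Bᵀ * h.map σ * M * B)

/-- `s σ` (`σ` in `S`) are commuting actions of the quaternions on the image of `p` -/
structure QP {S V : Type} [AddCommGroup V] [Module ℂ V]
    (s : S → (Fin 3 → ℂ) →ₗ[ℂ] Module.End ℂ V) (p : Module.End ℂ V) : Prop where
  pp : p * p = p
  ne : p ≠ 0
  ps : ∀ σ x, p * s σ x = s σ x * p
  mul : ∀ σ x y, s σ x * s σ y * p =
    (-(x ⬝ᵥ y) / 4) • p + (1 / 2 : ℂ) • (s σ (crossProduct x y) * p)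
  cc : ∀ σ ρ, σ ≠ ρ → ∀ x y, s σ x * s ρ y = s ρ y * s σ x

end Pool.Agent.KQ4
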