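import Pool.Agent.KQ4.St

/-!
# KQ4, module FRM: orthonormal frames of symmetric matrices over the complex numbers
-/

set_option autoImplicit false

namespace Pool.Agent.KQ4

open Module Matrix NumberField

/-- **FRM.** -/
theorem thm_Frm : St_Frm := by
  classical
  intro m H hs hdet
  let b : LinearMap.BilinForm ℂ (Fin m → ℂ) := Matrix.toBilin' H
  have hb : ∀ x y, b x y = x ⬝ᵥ (H *ᵥ y) := fun x y => Matrix.toBilin'_apply' H x y
  have hsymm : LinearMap.IsSymm b := by
    refine ⟨fun x y => ?_⟩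
    change b x y = b y x
    rw [hb, hb, Matrix.dotProduct_mulVec, ← Matrix.mulVec_transpose, hs, dotProduct_comm]
  obtain ⟨v0, hv0⟩ := LinearMap.BilinForm.exists_orthogonal_basis hsymm
  have hcard : finrank ℂ (Fin m → ℂ) = m := by simp
  let v : Basis (Fin m) ℂ (Fin m → ℂ) := v0.reindex (finCongr hcard)
  have hv : ∀ i j, i ≠ j → b (v i) (v j) = 0 := by
    intro i j hij
    simp only [v, Basis.reindex_apply]
    exact hv0 (fun h => hij ((finCongr hcard).symm.injective h))
  have hne : ∀ i, b (v i) (v i) ≠ 0 := by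
    intro i h0
    have h1 : ∀ j, b (v j) (v i) = 0 := fun j => by
      by_cases h : j = i
      · rw [h]
        exact h0
      · exact hv j i h
    have h2 : b.flip (v i) = 0 := v.ext fun j => by
      rw [LinearMap.zero_apply]
      exact h1 j
    have h3 : H *ᵥ v i = 0 := by
      funext k
      have h4 : b (Pi.single k 1) (v i) = 0 := by
        have := LinearMap.congr_fun h2 (Pi.single k 1)
        rwa [LinearMap.zero_apply] at this
      rw [hb, single_dotProduct, one_mul] at h4
      exact h4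
    have h5 : v i = 0 := by
      have h6 : H⁻¹ *ᵥ (H *ᵥ v i) = v i := by
        rw [Matrix.mulVec_mulVec, Matrix.nonsing_inv_mul _ hdet, Matrix.one_mulVec]
      rw [← h6, h3, Matrix.mulVec_zero]
    exact v.ne_zero i h5
  have hsq : ∀ i, ∃ s : ℂ, b (v i) (v i) = s * s := fun i =>
    IsAlgClosed.exists_eq_mul_self (b (v i) (v i))
  choose s hsq using hsq
  have hs0 : ∀ i, s i ≠ 0 := fun i h => hne i (by rw [hsq, h, mul_zero])
  refine ⟨Matrix.of fun a i => (s i)⁻¹ * v i a, ?_⟩
  ext i j
  have h1 : ((Matrix.of fun a i => (s i)⁻¹ * v i a)ᵀ * H *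
      (Matrix.of fun a i => (s i)⁻¹ * v i a)) i j =
      ((s i)⁻¹ • v i) ⬝ᵥ (H *ᵥ ((s j)⁻¹ • v j)) := by
    rw [Matrix.mul_assoc]
    rfl
  rw [h1, Matrix.mulVec_smul, smul_dotProduct, dotProduct_smul, ← hb]
  by_cases h : i = j
  · subst h
    rw [Matrix.one_apply_eq, hsq, smul_eq_mul, smul_eq_mul]
    field_simp [hs0 i]
  · rw [Matrix.one_apply_ne h, hv i j h, smul_zero, smul_zero]

end Pool.Agent.KQ4
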