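import Pool.Agent.KQ4.St

/-!
# KQ4: LW4
-/

set_option autoImplicit false

namespace Pool.Agent.KQ4

open Module Matrix NumberField Pool.Agent.Helper7 Pool.Agent.KS Pool.Agent.Ball Pool.Agent.KSE
  Pool.Agent.Helper28.GPC Pool.Agent.KSR Pool.Agent.KSV Pool.Agent.K3P Pool.Agent.KTP
  Pool.Agent.KTW

theorem thm_Lw4 (hQlk : St_Qlk) (hQhm : St_Qhm) (hQdr : St_Qdr) : St_Lw4 := by
  intro I J _ _ _ _ e n κ _ _ ϖ P K _ _ c m h t k γ σ₀ FW i j hmi hmj ε ε' hε hε' B B' hB hB'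
    hlink
  have hnei := FW.ne i
  have hnej := FW.ne j
  have hee : ε * ε = 1 := by rcases hε with rfl | rfl <;> norm_num
  have hee' : ε' * ε' = 1 := by rcases hε' with rfl | rfl <;> norm_num
  have hcore : ∀ l, l = i ∨ l = j → ∀ Z, SkP (h l) (σ₀ l) Z →
      ∃ M ∈ KSW.RRE e n P h t γ, M ⟨l, σ₀ l⟩ = Z ∧ ∀ p : PL K, p.2 ≠ σ₀ p.1 → M p = 0 := by
    intro l _ Z hZ
    have hm := FW.m3 l
    exact KSW.RRE_core0 n FW.pi P FW.S γ FW.B FW.A FW.nd FW.real σ₀ FW.sig FW.defi FW.T FW.Tg l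
      (FW.ne l) (by omega) (by omega) Z hZ
  obtain ⟨φ, C, C', g, hφ, -, -, -, hC, hC', hg, hgx, hM⟩ := hQlk I K m h σ₀
    (fun l => KSW.IsoA.h_symm P FW.S FW.real l (σ₀ l)) (fun l => (FW.S l).nd)
    (KSW.RRE e n P h t γ) (fun M hM => hM.1)
    (fun M hM M' hM' => KSW.RRE_bracket hM hM')
    (fun M hM τ => KSW.RRE_twist FW.pi FW.S FW.B hM τ) i j hmi hmj hcore ε ε' hee hee' B B' hB hB'
    hε hε' hlink
  obtain ⟨F, hF0, hF, -⟩ := hQhm (κ (e i)) (κ (e j)) (K i) (K j) (c i) (c j) (m i) (m j) (h i)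
    (h j) (t i) (t j) (FW.S i).conj (FW.S j).conj (FW.S i).herm (FW.S j).herm (FW.S i).nd
    (FW.S j).nd (FW.S i).cliff (FW.S j).cliff (FW.real i) (FW.real j) hmi hmj ε ε' hee hee' φ hφ
    C C' g hC hC' hg hgx
  have hcom : ∀ X : GG κ, IsInv n P γ X → X.2 = 0 → F ∘ₗ X.1 (e i) = X.1 (e j) ∘ₗ F := by
    intro X hX hX2
    obtain ⟨M, hMR, hMX⟩ := KSW.exists_famE FW.S FW.real FW.T X hX hX2
    exact hF _ (mem_bvE n P (e i) (FW.S i) γ X hX hX2 _ (hMX i)) _ (hMX i) _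
      (mem_bvE n P (e j) (FW.S j) γ X hX hX2 _ (hMX j)) _ (hMX j) (fun σ => hM M hMR σ)
  have hspan := hQdr J n κ ϖ FW.pi P k γ FW.B FW.A (e i) (e j) F hcom
  by_contra hcon
  push Not at hcon
  apply hF0
  have h1 : {f : (κ (e i) → ℂ) →ₗ[ℂ] (κ (e j) → ℂ) | IsDRB (P (e i)) (P (e j)) f} ⊆ {0} :=
    fun f hf => hcon f hf
  have h2 := Submodule.span_mono (R := ℂ) h1 hspan
  rw [Submodule.span_zero_singleton] at h2
  exact (Submodule.mem_bot ℂ).1 h2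

end Pool.Agent.KQ4
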