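import Pool.Agent.KQ4.St

/-!
# KQ4, RS4: without morphisms every skew matrix at every place is the value of a symmetry

`Rs4_abs` is the abstract form of Goursat's lemma for families of skew matrices of sizes `3`, `4`,
`≥ 5`: it is used for the families of the values at the Hodge places.
-/

set_option autoImplicit false

namespace Pool.Agent.KQ4

open Module Matrix NumberField Pool.Agent.Helper7 Pool.Agent.KS Pool.Agent.Ball Pool.Agent.KSE
  Pool.Agent.Helper28.GPC Pool.Agent.KSR Pool.Agent.KSV Pool.Agent.K3P Pool.Agent.KTP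
  Pool.Agent.KTW

/-! ### Coordinates with respect to a frame -/

section coord

variable {m : ℕ}

lemma Rs4_en_add (A A' : Matrix (Fin m) (Fin m) ℂ) (a b : ℕ) :
    en (A + A') a b = en A a b + en A' a b := by
  unfold en
  split_ifs
  · rfl
  · rw [add_zero]

lemma Rs4_en_smul (r : ℂ) (A : Matrix (Fin m) (Fin m) ℂ) (a b : ℕ) :
    en (r • A) a b = r * en A a b := by
  unfold en
  split_ifs
  · rfl
  · rw [mul_zero]

/-- the coordinates of `M` with respect to the frame `B` of the form `H`, a linear map -/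
noncomputable def Rs4_cl (ε : ℂ) (H B : Matrix (Fin m) (Fin m) ℂ) :
    Matrix (Fin m) (Fin m) ℂ →ₗ[ℂ] (Fin 3 → ℂ) where
  toFun M := cq ε (Bᵀ * H * M * B)
  map_add' M M' := by
    rw [Matrix.mul_add, Matrix.add_mul]
    funext a
    fin_cases a
    · show en (_ + _) 2 1 + ε * en (_ + _) 0 3 = (en _ 2 1 + ε * en _ 0 3) + (en _ 2 1 + ε * en _ 0 3)
      rw [Rs4_en_add, Rs4_en_add]
      ring
    · show en (_ + _) 0 2 + ε * en (_ + _) 1 3 = (en _ 0 2 + ε * en _ 1 3) + (en _ 0 2 + ε * en _ 1 3)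
      rw [Rs4_en_add, Rs4_en_add]
      ring
    · show en (_ + _) 1 0 + ε * en (_ + _) 2 3 = (en _ 1 0 + ε * en _ 2 3) + (en _ 1 0 + ε * en _ 2 3)
      rw [Rs4_en_add, Rs4_en_add]
      ring
  map_smul' r M := by
    rw [Matrix.mul_smul, Matrix.smul_mul, RingHom.id_apply]
    funext a
    fin_cases a
    · show en (_ • _) 2 1 + ε * en (_ • _) 0 3 = r * (en _ 2 1 + ε * en _ 0 3)
      rw [Rs4_en_smul, Rs4_en_smul]
      ring
    · show en (_ • _) 0 2 + ε * en (_ • _) 1 3 = r * (en _ 0 2 + ε * en _ 1 3)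
      rw [Rs4_en_smul, Rs4_en_smul]
      ring
    · show en (_ • _) 1 0 + ε * en (_ • _) 2 3 = r * (en _ 1 0 + ε * en _ 2 3)
      rw [Rs4_en_smul, Rs4_en_smul]
      ring

lemma Rs4_cl_apply (ε : ℂ) (H B M : Matrix (Fin m) (Fin m) ℂ) :
    Rs4_cl ε H B M = cq ε (Bᵀ * H * M * B) := rfl

lemma Rs4_skew {H B : Matrix (Fin m) (Fin m) ℂ} (hH : Hᵀ = H)
    {Z : Matrix (Fin m) (Fin m) ℂ} (hZ : Zᵀ * H + H * Z = 0) :
    (Bᵀ * H * Z * B)ᵀ = -(Bᵀ * H * Z * B) := by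
  have h1 : Zᵀ * H = -(H * Z) := eq_neg_of_add_eq_zero_left hZ
  rw [Matrix.transpose_mul, Matrix.transpose_mul, Matrix.transpose_mul, Matrix.transpose_transpose,
    hH, ← Matrix.mul_assoc Zᵀ, h1, Matrix.neg_mul, Matrix.mul_neg, Matrix.mul_assoc H,
    ← Matrix.mul_assoc Bᵀ H, ← Matrix.mul_assoc (Bᵀ * H) Z]

/-- brackets become cross products -/
lemma Rs4_br (hQ : St_Qcq) (hm : m = 3 ∨ m = 4) {ε : ℂ} (hε : ε * ε = 1)
    {H B : Matrix (Fin m) (Fin m) ℂ} (hH : Hᵀ = H) (hB : Bᵀ * H * B = 1)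
    {Z Z' : Matrix (Fin m) (Fin m) ℂ} (hZ : Zᵀ * H + H * Z = 0) (hZ' : Z'ᵀ * H + H * Z' = 0) :
    Rs4_cl ε H B (Z * Z' - Z' * Z) = crossProduct (Rs4_cl ε H B Z) (Rs4_cl ε H B Z') := by
  have hB' : B * (Bᵀ * H) = 1 := mul_eq_one_comm.mp hB
  have e : ∀ X Y : Matrix (Fin m) (Fin m) ℂ, Bᵀ * H * (X * Y) * B =
      (Bᵀ * H * X * B) * (Bᵀ * H * Y * B) := by
    intro X Y
    calc Bᵀ * H * (X * Y) * B = Bᵀ * H * X * 1 * Y * B := by
          rw [Matrix.mul_one, ← Matrix.mul_assoc (Bᵀ * H) X Y]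
      _ = Bᵀ * H * X * (B * (Bᵀ * H)) * Y * B := by rw [hB']
      _ = _ := by simp only [Matrix.mul_assoc]
  rw [Rs4_cl_apply, Rs4_cl_apply, Rs4_cl_apply, Matrix.mul_sub, Matrix.sub_mul, e, e]
  exact (hQ m hm ε hε).2.2.1 _ _ (Rs4_skew hH hZ) (Rs4_skew hH hZ')

/-- the coordinates are arbitrary -/
lemma Rs4_onto (hQ : St_Qcq) (hm : m = 3 ∨ m = 4) {ε : ℂ} (hε : ε * ε = 1)
    {H B : Matrix (Fin m) (Fin m) ℂ} (hH : Hᵀ = H) (hB : Bᵀ * H * B = 1) (x : Fin 3 → ℂ) :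
    ∃ Z : Matrix (Fin m) (Fin m) ℂ, Zᵀ * H + H * Z = 0 ∧ Rs4_cl ε H B Z = x ∧
      (m = 4 → Rs4_cl (-ε) H B Z = 0) := by
  obtain ⟨A, hA, hAx, hA4⟩ := (hQ m hm ε hε).2.2.2.1 x
  have e : Bᵀ * H * (B * A * (Bᵀ * H)) * B = A := by
    calc Bᵀ * H * (B * A * (Bᵀ * H)) * B = (Bᵀ * H * B) * A * (Bᵀ * H * B) := by
          simp only [Matrix.mul_assoc]
      _ = A := by rw [hB, Matrix.one_mul, Matrix.mul_one]
  refine ⟨B * A * (Bᵀ * H), ?_, ?_, fun h4 => ?_⟩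
  · rw [Matrix.transpose_mul, Matrix.transpose_mul, Matrix.transpose_mul,
      Matrix.transpose_transpose, hH, hA]
    have e1 : H * B * (-A * Bᵀ) * H = -(H * (B * A * (Bᵀ * H))) := by
      rw [Matrix.neg_mul, Matrix.mul_neg, Matrix.neg_mul]
      congr 1
      simp only [Matrix.mul_assoc]
    rw [e1, neg_add_cancel]
  · rw [Rs4_cl_apply, e, hAx]
  · rw [Rs4_cl_apply, e, hA4 h4]

/-- the coordinates determine a skew matrix -/
lemma Rs4_inj (hQ : St_Qcq) (hm : m = 3 ∨ m = 4) {ε : ℂ} (hε : ε * ε = 1)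
    {H B : Matrix (Fin m) (Fin m) ℂ} (hH : Hᵀ = H) (hB : Bᵀ * H * B = 1)
    {Z : Matrix (Fin m) (Fin m) ℂ} (hZ : Zᵀ * H + H * Z = 0) (h0 : Rs4_cl ε H B Z = 0)
    (h1 : m = 4 → Rs4_cl (-ε) H B Z = 0) : Z = 0 := by
  have hB' : B * (Bᵀ * H) = 1 := mul_eq_one_comm.mp hB
  have h2 : Bᵀ * H * Z * B = 0 := (hQ m hm ε hε).2.2.2.2 _ (Rs4_skew hH hZ) h0 h1
  calc Z = 1 * Z * 1 := by rw [Matrix.one_mul, Matrix.mul_one]
    _ = B * (Bᵀ * H) * Z * (B * (Bᵀ * H)) := by rw [hB']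
    _ = B * (Bᵀ * H * Z * B) * (Bᵀ * H) := by simp only [Matrix.mul_assoc]
    _ = 0 := by rw [h2, Matrix.mul_zero, Matrix.zero_mul]

/-- a subspace of `ℂ³` which is stable under the cross products with all vectors -/
lemma Rs4_sub (W : Submodule ℂ (Fin 3 → ℂ)) (hW : ∀ w ∈ W, ∀ y, crossProduct y w ∈ W)
    (w : Fin 3 → ℂ) (hw : w ∈ W) (hw0 : w ≠ 0) (v : Fin 3 → ℂ) : v ∈ W := by
  obtain ⟨a, ha⟩ : ∃ a, w a ≠ 0 := by
    by_contra h0
    push Not at h0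
    exact hw0 (funext h0)
  have h1 := hW _ (hW w hw v) (Pi.single a 1)
  rw [cross_cross_eq_smul_sub_smul', single_dotProduct, one_mul] at h1
  have h2 := W.add_mem h1 (W.smul_mem (v ⬝ᵥ Pi.single a 1) hw)
  rw [sub_add_cancel] at h2
  have h3 := W.smul_mem (w a)⁻¹ h2
  rwa [smul_smul, inv_mul_cancel₀ ha, one_smul] at h3

/-- skew operators and skew matrices -/
lemma Rs4_skw (H Z : Matrix (Fin m) (Fin m) ℂ) :
    KSP.Skw (Matrix.toBilin' H) (Matrix.toLin' Z) ↔ Zᵀ * H + H * Z = 0 := by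
  have e : ∀ (x y : Fin m → ℂ), Matrix.toBilin' H (Matrix.toLin' Z x) y +
      Matrix.toBilin' H x (Matrix.toLin' Z y) = x ⬝ᵥ ((Zᵀ * H + H * Z) *ᵥ y) := by
    intro x y
    have e1 : Z *ᵥ x ⬝ᵥ H *ᵥ y = x ⬝ᵥ (Zᵀ * H) *ᵥ y := by
      rw [← Matrix.mulVec_mulVec, Matrix.dotProduct_mulVec x Zᵀ, Matrix.vecMul_transpose]
    rw [Matrix.toBilin'_apply', Matrix.toBilin'_apply', Matrix.toLin'_apply, Matrix.toLin'_apply,
      Matrix.add_mulVec, dotProduct_add, Matrix.mulVec_mulVec, e1]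
  constructor
  · intro hZ
    ext a b
    have h1 := hZ (Pi.single a 1) (Pi.single b 1)
    rw [e, single_dotProduct, one_mul, Matrix.mulVec_single_one] at h1
    exact h1
  · intro hZ x y
    rw [e, hZ, Matrix.zero_mulVec, dotProduct_zero]

lemma Rs4_symm {H : Matrix (Fin m) (Fin m) ℂ} (hH : Hᵀ = H) (x y : Fin m → ℂ) :
    Matrix.toBilin' H x y = Matrix.toBilin' H y x := by
  rw [Matrix.toBilin'_apply', Matrix.toBilin'_apply', Matrix.dotProduct_mulVec,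
    ← Matrix.mulVec_transpose, hH, dotProduct_comm]

end coord

/-! ### Goursat's lemma for families -/

/-- the sign of a component -/
noncomputable def Rs4_sg (b : Bool) : ℂ := if b then 1 else -1

lemma Rs4_sg_or (b : Bool) : Rs4_sg b = 1 ∨ Rs4_sg b = -1 := by
  cases b
  · exact Or.inr rfl
  · exact Or.inl rfl

lemma Rs4_sg_sq (b : Bool) : Rs4_sg b * Rs4_sg b = 1 := by
  rcases Rs4_sg_or b with h | h <;> rw [h] <;> norm_num

lemma Rs4_sg_ne {b b' : Bool} (h : b ≠ b') : Rs4_sg b' = -Rs4_sg b := by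
  cases b <;> cases b'
  · exact absurd rfl h
  · show (1 : ℂ) = - -1
    norm_num
  · rfl
  · exact absurd rfl h

section abs

variable {I : Type} {m : I → ℕ} (H B : ∀ i, Matrix (Fin (m i)) (Fin (m i)) ℂ)

/-- the component `q` of a family of matrices -/
noncomputable def Rs4_c (q : I × Bool) : (∀ i, Matrix (Fin (m i)) (Fin (m i)) ℂ) →ₗ[ℂ]
    Matrix (Fin (m q.1)) (Fin (m q.1)) ℂ × (Fin 3 → ℂ) :=
  LinearMap.prod (if m q.1 = 4 then 0 else LinearMap.proj q.1)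
    (if m q.1 = 4 then Rs4_cl (Rs4_sg q.2) (H q.1) (B q.1) ∘ₗ LinearMap.proj q.1 else 0)

variable {H B}

lemma Rs4_c4 {q : I × Bool} (h : m q.1 = 4) (M : ∀ i, Matrix (Fin (m i)) (Fin (m i)) ℂ) :
    Rs4_c H B q M = (0, Rs4_cl (Rs4_sg q.2) (H q.1) (B q.1) (M q.1)) := by
  unfold Rs4_c
  rw [if_pos h, if_pos h]
  rfl

lemma Rs4_cn {q : I × Bool} (h : m q.1 ≠ 4) (M : ∀ i, Matrix (Fin (m i)) (Fin (m i)) ℂ) :
    Rs4_c H B q M = (M q.1, 0) := by
  unfold Rs4_c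
  rw [if_neg h, if_neg h]
  rfl

lemma Rs4_c4_eq {q : I × Bool} (h : m q.1 = 4) (M N : ∀ i, Matrix (Fin (m i)) (Fin (m i)) ℂ) :
    Rs4_c H B q M = Rs4_c H B q N ↔ Rs4_cl (Rs4_sg q.2) (H q.1) (B q.1) (M q.1) =
      Rs4_cl (Rs4_sg q.2) (H q.1) (B q.1) (N q.1) := by
  rw [Rs4_c4 h, Rs4_c4 h]
  exact ⟨fun h1 => (Prod.mk.inj h1).2, fun h1 => by rw [h1]⟩

lemma Rs4_c4_zero {q : I × Bool} (h : m q.1 = 4) (M : ∀ i, Matrix (Fin (m i)) (Fin (m i)) ℂ) :
    Rs4_c H B q M = 0 ↔ Rs4_cl (Rs4_sg q.2) (H q.1) (B q.1) (M q.1) = 0 := by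
  rw [Rs4_c4 h]
  exact ⟨fun h1 => (Prod.mk.inj h1).2, fun h1 => by rw [h1]; rfl⟩

lemma Rs4_cn_eq {q : I × Bool} (h : m q.1 ≠ 4) (M N : ∀ i, Matrix (Fin (m i)) (Fin (m i)) ℂ) :
    Rs4_c H B q M = Rs4_c H B q N ↔ M q.1 = N q.1 := by
  rw [Rs4_cn h, Rs4_cn h]
  exact ⟨fun h1 => (Prod.mk.inj h1).1, fun h1 => by rw [h1]⟩

lemma Rs4_cn_zero {q : I × Bool} (h : m q.1 ≠ 4) (M : ∀ i, Matrix (Fin (m i)) (Fin (m i)) ℂ) :
    Rs4_c H B q M = 0 ↔ M q.1 = 0 := by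
  rw [Rs4_cn h]
  exact ⟨fun h1 => (Prod.mk.inj h1).1, fun h1 => by rw [h1]; rfl⟩

/-- the dimension argument -/
lemma Rs4_dim (R : Submodule ℂ (∀ i, Matrix (Fin (m i)) (Fin (m i)) ℂ)) (l : I) (hl : 5 ≤ m l)
    (hH : (H l)ᵀ = H l) (hd : IsUnit (H l).det)
    (hc : ∀ Z, Zᵀ * H l + H l * Z = 0 → ∃ M ∈ R, M l = Z)
    (Φ : (∀ i, Matrix (Fin (m i)) (Fin (m i)) ℂ) →ₗ[ℂ] (Fin 3 → ℂ)) :
    ∃ M ∈ R, Φ M = 0 ∧ M l ≠ 0 := by
  let z : Fin (m l) := ⟨0, by omega⟩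
  let s : Fin 4 → Fin (m l) := fun k => ⟨(k : ℕ) + 1, by omega⟩
  let A : Fin 4 → Matrix (Fin (m l)) (Fin (m l)) ℂ := fun k =>
    Matrix.single z (s k) 1 - Matrix.single (s k) z 1
  have hAt : ∀ k, (A k)ᵀ = -A k := by
    intro k
    show (Matrix.single z (s k) (1 : ℂ) - Matrix.single (s k) z 1)ᵀ =
      -(Matrix.single z (s k) 1 - Matrix.single (s k) z 1)
    rw [Matrix.transpose_sub, Matrix.transpose_single, Matrix.transpose_single, neg_sub]
  have hZ : ∀ X : Matrix (Fin (m l)) (Fin (m l)) ℂ, H l * ((H l)⁻¹ * X) = X := fun X => by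
    rw [← Matrix.mul_assoc, Matrix.mul_nonsing_inv _ hd, Matrix.one_mul]
  have h1 : ∀ k, ∃ M ∈ R, M l = (H l)⁻¹ * A k := fun k => hc _ (by
    rw [Matrix.transpose_mul, Matrix.transpose_nonsing_inv, hH, hZ, Matrix.mul_assoc,
      Matrix.nonsing_inv_mul _ hd, Matrix.mul_one, hAt, neg_add_cancel])
  choose M hM hMA using h1
  let Ψ : (Fin 4 → ℂ) →ₗ[ℂ] (Fin 3 → ℂ) := Φ ∘ₗ Fintype.linearCombination ℂ M
  have h2 : LinearMap.ker Ψ ≠ ⊥ := LinearMap.ker_ne_bot_of_finrank_lt (by simp)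
  obtain ⟨a, ha, ha0⟩ := (Submodule.ne_bot_iff _).1 h2
  refine ⟨Fintype.linearCombination ℂ M a, ?_, ha, ?_⟩
  · rw [Fintype.linearCombination_apply]
    exact R.sum_mem fun k _ => R.smul_mem _ (hM k)
  · intro h0
    apply ha0
    have h3 : H l * (Fintype.linearCombination ℂ M a l) = ∑ k, a k • A k := by
      rw [Fintype.linearCombination_apply, Finset.sum_apply, Finset.mul_sum]
      refine Finset.sum_congr rfl fun k _ => ?_
      rw [Pi.smul_apply, hMA, Matrix.mul_smul, hZ]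
    rw [h0, Matrix.mul_zero] at h3
    funext k
    have h4 := congrFun (congrFun h3 z) (s k)
    rw [Matrix.zero_apply, Matrix.sum_apply, Finset.sum_eq_single k] at h4
    · rw [Matrix.smul_apply] at h4
      have h5 : A k z (s k) = 1 := by
        show (Matrix.single z (s k) (1 : ℂ) - Matrix.single (s k) z 1 : Matrix (Fin (m l)) (Fin (m l)) ℂ)
          z (s k) = 1
        rw [Matrix.sub_apply, Matrix.single_apply_same, Matrix.single_apply_of_ne, sub_zero]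
        rintro ⟨h6, -⟩
        have := congrArg Fin.val h6
        simp [s, z] at this
      rw [h5, smul_eq_mul, mul_one] at h4
      exact h4.symm
    · intro k' _ hk
      have h5 : A k' z (s k) = 0 := by
        show (Matrix.single z (s k') (1 : ℂ) - Matrix.single (s k') z 1 :
          Matrix (Fin (m l)) (Fin (m l)) ℂ) z (s k) = 0
        rw [Matrix.sub_apply, Matrix.single_apply_of_ne, Matrix.single_apply_of_ne, sub_zero]
        · rintro ⟨h6, -⟩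
          have := congrArg Fin.val h6
          simp [s, z] at this
        · rintro ⟨-, h6⟩
          apply hk
          have := congrArg Fin.val h6
          simp [s] at this
          exact Fin.ext this
      rw [Matrix.smul_apply, h5, smul_zero]
    · intro h5
      exact absurd (Finset.mem_univ k) h5

/-- **Goursat's lemma** for families of skew matrices. -/
theorem Rs4_abs (hQ : St_Qcq) (hRpa : St_Rpa) [Fintype I] [DecidableEq I]
    (hm : ∀ i, m i = 3 ∨ m i = 4 ∨ 5 ≤ m i) (hH : ∀ i, (H i)ᵀ = H i)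
    (hd : ∀ i, IsUnit (H i).det) (hB : ∀ i, (B i)ᵀ * H i * B i = 1)
    (R : Submodule ℂ (∀ i, Matrix (Fin (m i)) (Fin (m i)) ℂ))
    (hbr : ∀ X ∈ R, ∀ Y ∈ R, X * Y - Y * X ∈ R)
    (hsk : ∀ X ∈ R, ∀ i, (X i)ᵀ * H i + H i * X i = 0)
    (hc : ∀ i Z, Zᵀ * H i + H i * Z = 0 → ∃ M ∈ R, M i = Z)
    (N : ∀ i, Matrix (Fin (m i)) (Fin (m i)) ℂ) (hN : ∀ i, (N i)ᵀ * H i + H i * N i = 0)
    (L1 : ∀ i j, i ≠ j → m i ≠ 4 → m j ≠ 4 → (∀ M ∈ R, M i = 0 ↔ M j = 0) →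
      ∀ M ∈ R, M i = N i → M j = N j)
    (L2 : ∀ i j, i ≠ j → (m i = 3 ∨ m i = 4) → (m j = 3 ∨ m j = 4) → ∀ ε ε' : ℂ,
      (ε = 1 ∨ ε = -1) → (ε' = 1 ∨ ε' = -1) →
      (∀ M ∈ R, Rs4_cl ε (H i) (B i) (M i) = 0 ↔ Rs4_cl ε' (H j) (B j) (M j) = 0) →
      ∀ M ∈ R, Rs4_cl ε (H i) (B i) (M i) = Rs4_cl ε (H i) (B i) (N i) →
        Rs4_cl ε' (H j) (B j) (M j) = Rs4_cl ε' (H j) (B j) (N j)) : N ∈ R := by
  have hm3 : ∀ i, 3 ≤ m i := fun i => by have := hm i; omega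
  have hsub : ∀ {i : I} {X Y : Matrix (Fin (m i)) (Fin (m i)) ℂ}, Xᵀ * H i + H i * X = 0 →
      Yᵀ * H i + H i * Y = 0 → (X - Y)ᵀ * H i + H i * (X - Y) = 0 := by
    intro i X Y hX hY
    rw [Matrix.transpose_sub, Matrix.sub_mul, Matrix.mul_sub, sub_add_sub_comm, hX, hY, sub_zero]
  suffices key : ∃ X ∈ R, ∀ q, Rs4_c H B q X = Rs4_c H B q N by
    obtain ⟨X, hX, hXD⟩ := key
    have h1 : X = N := by
      funext i
      by_cases h4 : m i = 4
      · have h5 := (Rs4_c4_eq (q := (i, true)) h4 X N).1 (hXD (i, true))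
        have h6 := (Rs4_c4_eq (q := (i, false)) h4 X N).1 (hXD (i, false))
        have h7 := Rs4_inj hQ (Or.inr h4) (Rs4_sg_sq true) (hH i) (hB i)
          (hsub (hsk X hX i) (hN i)) (by rw [map_sub, sub_eq_zero]; exact h5) (fun _ => by
            have h8 : -Rs4_sg true = Rs4_sg false := (Rs4_sg_ne (by decide)).symm
            rw [h8, map_sub, sub_eq_zero]
            exact h6)
        exact sub_eq_zero.1 h7
      · exact (Rs4_cn_eq (q := (i, true)) h4 X N).1 (hXD (i, true))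
    rw [← h1]
    exact hX
  refine hRpa (∀ i, Matrix (Fin (m i)) (Fin (m i)) ℂ) R hbr (I × Bool)
    (fun q => Matrix (Fin (m q.1)) (Fin (m q.1)) ℂ × (Fin 3 → ℂ)) (Rs4_c H B) ?_ ?_ ?_
    (fun q => Rs4_c H B q N) ?_ ?_
  · -- the kernels are ideals
    intro q X hX Y hY h0
    by_cases h4 : m q.1 = 4
    · rw [Rs4_c4_zero h4] at h0 ⊢
      have h1 := Rs4_br hQ (Or.inr h4) (Rs4_sg_sq q.2) (hH q.1) (hB q.1) (hsk Y hY q.1)
        (hsk X hX q.1)
      rw [h0, map_zero] at h1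
      exact h1
    · rw [Rs4_cn_zero h4] at h0 ⊢
      rw [Pi.sub_apply, Pi.mul_apply, Pi.mul_apply, h0, mul_zero, zero_mul, sub_zero]
  · -- the images are not commutative
    intro q
    by_cases h4 : m q.1 = 4
    · obtain ⟨Z, hZ, hZ1, -⟩ := Rs4_onto hQ (Or.inr h4) (Rs4_sg_sq q.2) (hH q.1) (hB q.1)
        ![1, 0, 0]
      obtain ⟨Z', hZ', hZ'1, -⟩ := Rs4_onto hQ (Or.inr h4) (Rs4_sg_sq q.2) (hH q.1) (hB q.1)
        ![0, 1, 0]
      obtain ⟨M, hM, hMZ⟩ := hc q.1 Z hZ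
      obtain ⟨M', hM', hMZ'⟩ := hc q.1 Z' hZ'
      refine ⟨M, hM, M', hM', fun h0 => ?_⟩
      rw [Rs4_c4_zero h4] at h0
      have h1 := Rs4_br hQ (Or.inr h4) (Rs4_sg_sq q.2) (hH q.1) (hB q.1) (hsk M hM q.1)
        (hsk M' hM' q.1)
      have h2 : (M * M' - M' * M) q.1 = M q.1 * M' q.1 - M' q.1 * M q.1 := rfl
      rw [h2, h1, hMZ, hMZ', hZ1, hZ'1] at h0
      have h3 := congrFun h0 2
      simp [cross_apply] at h3
    · have hq := hm q.1
      obtain ⟨A, C, hA, hC, hAC⟩ := KSP.Goursat.exists_noncomm (hm3 q.1)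
        (Matrix.toBilin' (H q.1)) (Rs4_symm (hH q.1))
        (LinearMap.BilinForm.nondegenerate_toBilin'_of_det_ne_zero' _ (hd q.1).ne_zero)
      rw [← Matrix.toLin'_toMatrix' A, Rs4_skw] at hA
      rw [← Matrix.toLin'_toMatrix' C, Rs4_skw] at hC
      obtain ⟨M, hM, hMA⟩ := hc q.1 _ hA
      obtain ⟨M', hM', hMC⟩ := hc q.1 _ hC
      refine ⟨M, hM, M', hM', fun h0 => hAC ?_⟩
      rw [Rs4_cn_zero h4, Pi.sub_apply, Pi.mul_apply, Pi.mul_apply, hMA, hMC] at h0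
      have h1 := congrArg Matrix.toLin' h0
      rw [map_sub, Matrix.toLin'_mul, Matrix.toLin'_mul, Matrix.toLin'_toMatrix',
        Matrix.toLin'_toMatrix', map_zero] at h1
      exact h1
  · -- the images are simple
    intro q 𝔞 h𝔞 hid hX0 Y hY
    obtain ⟨X, hX, hX0⟩ := hX0
    by_cases h4 : m q.1 = 4
    · have h1 := Rs4_sub (𝔞.map (Rs4_cl (Rs4_sg q.2) (H q.1) (B q.1) ∘ₗ LinearMap.proj q.1)) (by
        rintro w ⟨M, hM, rfl⟩ y
        obtain ⟨Z, hZ, hZ1, -⟩ := Rs4_onto hQ (Or.inr h4) (Rs4_sg_sq q.2) (hH q.1) (hB q.1) y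
        obtain ⟨M', hM', hMZ⟩ := hc q.1 Z hZ
        refine ⟨M' * M - M * M', hid M hM M' hM', ?_⟩
        have h2 := Rs4_br hQ (Or.inr h4) (Rs4_sg_sq q.2) (hH q.1) (hB q.1) (hsk M' hM' q.1)
          (hsk M (h𝔞 hM) q.1)
        rw [hMZ, hZ1] at h2
        rw [← hMZ] at h2
        exact h2) (Rs4_cl (Rs4_sg q.2) (H q.1) (B q.1) (X q.1)) ⟨X, hX, rfl⟩
        (fun h0 => hX0 ((Rs4_c4_zero h4 X).2 h0)) (Rs4_cl (Rs4_sg q.2) (H q.1) (B q.1) (Y q.1))
      obtain ⟨X', hX', hX'Y⟩ := h1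
      exact ⟨X', hX', (Rs4_c4_eq h4 X' Y).2 hX'Y⟩
    · have h3 : m q.1 = 3 ∨ 5 ≤ m q.1 := by have := hm q.1; omega
      have hskw : ∀ M ∈ R, KSP.Skw (Matrix.toBilin' (H q.1)) (Matrix.toLin' (M q.1)) :=
        fun M hM => (Rs4_skw _ _).2 (hsk M hM q.1)
      have h1 := KSP.ideal_top h3 (Matrix.toBilin' (H q.1)) (Rs4_symm (hH q.1))
        (LinearMap.BilinForm.nondegenerate_toBilin'_of_det_ne_zero' _ (hd q.1).ne_zero)
        (𝔞.map ((Matrix.toLin' : Matrix (Fin (m q.1)) (Fin (m q.1)) ℂ ≃ₗ[ℂ] _).toLinearMap ∘ₗ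
          LinearMap.proj q.1)) (by
          rintro _ ⟨M, hM, rfl⟩
          exact hskw M (h𝔞 hM)) (by
          rintro _ ⟨M, hM, rfl⟩ C hC
          rw [← Matrix.toLin'_toMatrix' C, Rs4_skw] at hC
          obtain ⟨M', hM', hMC⟩ := hc q.1 _ hC
          refine ⟨M' * M - M * M', hid M hM M' hM', ?_⟩
          have e : C = Matrix.toLin' (M' q.1) := by rw [hMC, Matrix.toLin'_toMatrix']
          show Matrix.toLin' (M' q.1 * M q.1 - M q.1 * M' q.1) = _
          rw [map_sub, Matrix.toLin'_mul, Matrix.toLin'_mul, e]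
          rfl) (Matrix.toLin' (X q.1)) ⟨X, hX, rfl⟩ (fun h0 => hX0 ((Rs4_cn_zero h4 X).2
            ((LinearEquiv.map_eq_zero_iff _).1 h0))) (Matrix.toLin' (Y q.1)) (hskw Y hY)
      obtain ⟨X', hX', hX'Y⟩ := h1
      exact ⟨X', hX', (Rs4_cn_eq h4 X' Y).2 (Matrix.toLin'.injective hX'Y)⟩
  · -- the values
    intro q
    obtain ⟨M, hM, hMN⟩ := hc q.1 (N q.1) (hN q.1)
    refine ⟨M, hM, ?_⟩
    by_cases h4 : m q.1 = 4
    · rw [Rs4_c4_eq h4, hMN]
    · rw [Rs4_cn_eq h4, hMN]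
  · -- the links
    rintro ⟨i, b⟩ ⟨j, b'⟩ hl X hX hXN
    by_cases hij : i = j
    · subst hij
      by_cases h4 : m i = 4
      · by_cases hb : b = b'
        · subst hb
          exact hXN
        · exfalso
          obtain ⟨Z, hZ, hZ1, hZ2⟩ := Rs4_onto hQ (Or.inr h4) (Rs4_sg_sq b) (hH i) (hB i)
            ![1, 0, 0]
          obtain ⟨M, hM, hMZ⟩ := hc i Z hZ
          have h1 := hl M hM
          rw [Rs4_c4_zero (q := (i, b)) h4, Rs4_c4_zero (q := (i, b')) h4] at h1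
          have h2 : Rs4_cl (Rs4_sg b) (H i) (B i) (M i) = 0 := h1.2 (by
            show Rs4_cl (Rs4_sg b') (H i) (B i) (M i) = 0
            rw [Rs4_sg_ne hb, hMZ]
            exact hZ2 h4)
          rw [hMZ, hZ1] at h2
          have h3 := congrFun h2 0
          simp at h3
      · have h1 := (Rs4_cn_eq (q := (i, b)) h4 X N).1 hXN
        exact (Rs4_cn_eq (q := (i, b')) h4 X N).2 h1
    · by_cases h4 : m i = 4
      · have h5 := (Rs4_c4_eq (q := (i, b)) h4 X N).1 hXN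
        by_cases h4' : m j = 4
        · refine (Rs4_c4_eq (q := (j, b')) h4' X N).2 ?_
          refine L2 i j hij (Or.inr h4) (Or.inr h4') (Rs4_sg b) (Rs4_sg b') (Rs4_sg_or b)
            (Rs4_sg_or b') (fun M hM => ?_) X hX h5
          have h6 := hl M hM
          rwa [Rs4_c4_zero (q := (i, b)) h4, Rs4_c4_zero (q := (j, b')) h4'] at h6
        · refine (Rs4_cn_eq (q := (j, b')) h4' X N).2 ?_
          rcases hm j with h3 | h3 | h3
          · have h7 := L2 i j hij (Or.inr h4) (Or.inl h3) (Rs4_sg b) (Rs4_sg true) (Rs4_sg_or b)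
              (Rs4_sg_or true) (fun M hM => ?_) X hX h5
            · have h8 := Rs4_inj hQ (Or.inl h3) (Rs4_sg_sq true) (hH j) (hB j)
                (hsub (hsk X hX j) (hN j)) (by rw [map_sub, sub_eq_zero]; exact h7)
                (fun h9 => absurd h9 h4')
              exact sub_eq_zero.1 h8
            · have h6 := hl M hM
              rw [Rs4_c4_zero (q := (i, b)) h4, Rs4_cn_zero (q := (j, b')) h4'] at h6
              refine h6.trans ⟨fun h7 => ?_, fun h7 => ?_⟩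
              · have h8 : M j = 0 := h7
                rw [h8, map_zero]
              · exact Rs4_inj hQ (Or.inl h3) (Rs4_sg_sq true) (hH j) (hB j) (hsk M hM j) h7
                  (fun h9 => absurd h9 h4')
          · exact absurd h3 h4'
          · exfalso
            obtain ⟨M, hM, hM0, hMj⟩ := Rs4_dim (H := H) R j h3 (hH j) (hd j) (hc j)
              (Rs4_cl (Rs4_sg b) (H i) (B i) ∘ₗ LinearMap.proj i)
            have h6 := hl M hM
            rw [Rs4_c4_zero (q := (i, b)) h4, Rs4_cn_zero (q := (j, b')) h4'] at h6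
            exact hMj (h6.1 hM0)
      · have h5 := (Rs4_cn_eq (q := (i, b)) h4 X N).1 hXN
        by_cases h4' : m j = 4
        · refine (Rs4_c4_eq (q := (j, b')) h4' X N).2 ?_
          rcases hm i with h3 | h3 | h3
          · refine L2 i j hij (Or.inl h3) (Or.inr h4') (Rs4_sg true) (Rs4_sg b') (Rs4_sg_or true)
              (Rs4_sg_or b') (fun M hM => ?_) X hX ?_
            · have h6 := hl M hM
              rw [Rs4_cn_zero (q := (i, b)) h4, Rs4_c4_zero (q := (j, b')) h4'] at h6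
              refine Iff.trans ⟨fun h7 => ?_, fun h7 => ?_⟩ h6
              · exact Rs4_inj hQ (Or.inl h3) (Rs4_sg_sq true) (hH i) (hB i) (hsk M hM i) h7
                  (fun h9 => absurd h9 h4)
              · have h8 : M i = 0 := h7
                rw [h8, map_zero]
            · have h8 : X i = N i := h5
              rw [h8]
          · exact absurd h3 h4
          · exfalso
            obtain ⟨M, hM, hM0, hMi⟩ := Rs4_dim (H := H) R i h3 (hH i) (hd i) (hc i)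
              (Rs4_cl (Rs4_sg b') (H j) (B j) ∘ₗ LinearMap.proj j)
            have h6 := hl M hM
            rw [Rs4_cn_zero (q := (i, b)) h4, Rs4_c4_zero (q := (j, b')) h4'] at h6
            exact hMi (h6.2 hM0)
        · refine (Rs4_cn_eq (q := (j, b')) h4' X N).2 ?_
          refine L1 i j hij h4 h4' (fun M hM => ?_) X hX h5
          have h6 := hl M hM
          rwa [Rs4_cn_zero (q := (i, b)) h4, Rs4_cn_zero (q := (j, b')) h4'] at h6

end abs

/-- **RS4.**  Without morphisms every skew matrix at every place is the value of a symmetry. -/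
theorem thm_Rs4 (hFrm : St_Frm) (hQcq : St_Qcq) (hRpa : St_Rpa) (hLw4 : St_Lw4)
    (hLx4 : St_Lx4) : St_Rs4 := by
  intro I J _ _ _ _ e n κ _ _ ϖ P K _ _ _ c m h t k γ σ₀ f hHom p Z hZ
  have hm3 : ∀ i, 3 ≤ m i := fun i => by have := f.m3 i; omega
  have hm5 : ∀ i, m i ≠ 5 := fun i => by have := f.m3 i; omega
  have hHs : ∀ i, ((h i).map (σ₀ i))ᵀ = (h i).map (σ₀ i) := fun i => by
    rw [← Matrix.transpose_map, KSW.IsoA.h_symm P f.S f.real i (σ₀ i)]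
  have hHd : ∀ i, IsUnit ((h i).map (σ₀ i)).det := fun i => by
    have h1 : ((h i).map (σ₀ i)).det = σ₀ i (h i).det := by
      rw [RingHom.map_det, RingHom.mapMatrix_apply]
    rw [h1]
    exact IsUnit.mk0 _ ((map_ne_zero (σ₀ i)).2 (f.S i).nd)
  have hfr := fun i => hFrm (m i) ((h i).map (σ₀ i)) (hHs i) (hHd i)
  choose B hB using hfr
  -- the values at the Hodge places
  let R : Submodule ℂ (∀ i, Matrix (Fin (m i)) (Fin (m i)) ℂ) :=
    { carrier := {x | ∃ M ∈ KSW.RRE e n P h t γ, (∀ p : PL K, p.2 ≠ σ₀ p.1 → M p = 0) ∧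
        ∀ i, M ⟨i, σ₀ i⟩ = x i}
      add_mem' := by
        rintro x y ⟨M, hM, h1, h2⟩ ⟨M', hM', h1', h2'⟩
        exact ⟨M + M', Submodule.add_mem _ hM hM', fun p h3 => by
          rw [Pi.add_apply, h1 p h3, h1' p h3, add_zero], fun i => by
          rw [Pi.add_apply, h2, h2', Pi.add_apply]⟩
      zero_mem' := ⟨0, Submodule.zero_mem _, fun _ _ => rfl, fun _ => rfl⟩
      smul_mem' := by
        rintro r x ⟨M, hM, h1, h2⟩
        exact ⟨r • M, Submodule.smul_mem _ r hM, fun p h3 => by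
          rw [Pi.smul_apply, h1 p h3, smul_zero], fun i => by
          rw [Pi.smul_apply, h2, Pi.smul_apply]⟩ }
  have hbr : ∀ X ∈ R, ∀ Y ∈ R, X * Y - Y * X ∈ R := by
    rintro x ⟨M, hM, h1, h2⟩ y ⟨M', hM', h1', h2'⟩
    refine ⟨M * M' - M' * M, KSW.RRE_bracket hM hM', fun p h3 => ?_, fun i => ?_⟩
    · rw [Pi.sub_apply, Pi.mul_apply, Pi.mul_apply, h1 p h3, h1' p h3, mul_zero, sub_zero]
    · rw [Pi.sub_apply, Pi.mul_apply, Pi.mul_apply, h2, h2', Pi.sub_apply, Pi.mul_apply,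
        Pi.mul_apply]
  have hsk : ∀ X ∈ R, ∀ i, (X i)ᵀ * (h i).map (σ₀ i) + (h i).map (σ₀ i) * X i = 0 := by
    rintro x ⟨M, hM, -, h2⟩ i
    have h3 := hM.1 ⟨i, σ₀ i⟩
    rw [h2 i] at h3
    exact h3
  have hc : ∀ i Z, Zᵀ * (h i).map (σ₀ i) + (h i).map (σ₀ i) * Z = 0 → ∃ M ∈ R, M i = Z := by
    intro i Z hZ
    obtain ⟨M, hM, h1, h2⟩ := KSW.RRE_core0 n f.pi P f.S γ f.B f.A f.nd f.real σ₀ f.sig f.defi
      f.T f.Tg i (f.ne i) (hm3 i) (hm5 i) Z hZ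
    exact ⟨fun i => M ⟨i, σ₀ i⟩, ⟨M, hM, h2, fun _ => rfl⟩, h1⟩
  -- the Hodge places
  have main : ∀ (i₀ : I) (Z : Matrix (Fin (m i₀)) (Fin (m i₀)) ℂ), SkP (h i₀) (σ₀ i₀) Z →
      ∃ M ∈ KSW.RRE e n P h t γ, M ⟨i₀, σ₀ i₀⟩ = Z ∧
        ∀ q : PL K, q ≠ ⟨i₀, σ₀ i₀⟩ → M q = 0 := by
    intro i₀ Z hZ
    have hN : ∀ i, ((Pi.single i₀ Z : ∀ i, Matrix (Fin (m i)) (Fin (m i)) ℂ) i)ᵀ *
        (h i).map (σ₀ i) + (h i).map (σ₀ i) *
          (Pi.single i₀ Z : ∀ i, Matrix (Fin (m i)) (Fin (m i)) ℂ) i = 0 := by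
      intro i
      by_cases hi : i = i₀
      · subst hi
        rw [Pi.single_eq_same]
        exact hZ
      · rw [Pi.single_eq_of_ne hi, Matrix.transpose_zero, Matrix.zero_mul, Matrix.mul_zero,
          add_zero]
    have h1 := Rs4_abs hQcq hRpa (H := fun i => (h i).map (σ₀ i)) (B := B)
      (fun i => by have := f.m3 i; omega) hHs hHd hB R hbr hsk hc
      (Pi.single i₀ Z : ∀ i, Matrix (Fin (m i)) (Fin (m i)) ℂ) hN (by
        intro i j hij h4 h4' hl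
        obtain ⟨g, hg, hg0⟩ := hLx4 I J e n κ ϖ P K c m h t k γ σ₀ f i j hij h4 h4'
          (fun M hM h0 => hl (fun i => M ⟨i, σ₀ i⟩) ⟨M, hM, h0, fun _ => rfl⟩)
        exact absurd (hHom i j hij g hg) hg0) (by
        intro i j hij h4 h4' ε ε' hε hε' hl
        obtain ⟨g, hg, hg0⟩ := hLw4 I J e n κ ϖ P K c m h t k γ σ₀ f i j h4 h4' ε ε' hε hε'
          (B i) (B j) (hB i) (hB j)
          (fun M hM h0 => hl (fun i => M ⟨i, σ₀ i⟩) ⟨M, hM, h0, fun _ => rfl⟩)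
        exact absurd (hHom i j hij g hg) hg0)
    obtain ⟨M, hM, h2, h3⟩ := h1
    refine ⟨M, hM, by rw [h3, Pi.single_eq_same], fun q hq => ?_⟩
    by_cases hq2 : q.2 = σ₀ q.1
    · obtain ⟨i, σ⟩ := q
      simp only at hq2
      subst hq2
      have hi : i ≠ i₀ := by
        rintro rfl
        exact hq rfl
      rw [h3, Pi.single_eq_of_ne hi]
    · exact h2 q hq2
  -- all places
  obtain ⟨i, σ⟩ := p
  simp only at hZ Z
  obtain ⟨τ, hτ⟩ := Pool.Agent.Helper84.exists_aut (σ₀ i) σ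
  have hτ' : (τ.symm : ℂ →+* ℂ).comp σ = σ₀ i := by
    rw [← hτ]
    ext x
    exact τ.symm_apply_apply (σ₀ i x)
  have e2 : SkP (h i) (σ₀ i) (Z.map τ.symm) := by
    have h1 := skP_tw (g := h i) τ.symm (σ₀ i) (Z := Z) (by
      have e : ((τ.symm).symm : ℂ →+* ℂ).comp (σ₀ i) = σ := hτ
      rw [e]
      exact hZ)
    exact h1
  obtain ⟨M, hM, hM1, hM2⟩ := main i _ e2
  have h1 := KSW.RRE_twist f.pi f.S f.B hM τ
  have h2 : twP τ M = Pi.single ⟨i, σ⟩ Z := by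
    funext q
    by_cases hq : q = ⟨i, σ⟩
    · subst hq
      rw [Pi.single_eq_same]
      show (M ⟨i, (τ.symm : ℂ →+* ℂ).comp σ⟩).map τ = Z
      rw [hτ', hM1]
      ext a b
      rw [Matrix.map_apply, Matrix.map_apply]
      exact τ.apply_symm_apply (Z a b)
    · rw [Pi.single_eq_of_ne hq]
      show (M ⟨q.1, (τ.symm : ℂ →+* ℂ).comp q.2⟩).map τ = 0
      rw [hM2]
      · exact Matrix.map_zero τ (map_zero τ)
      · intro h3
        apply hq
        obtain ⟨j, ρ⟩ := q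
        have hij : j = i := congrArg Sigma.fst h3
        subst hij
        have h4 : (τ.symm : ℂ →+* ℂ).comp ρ = σ₀ j := eq_of_heq (Sigma.mk.inj h3).2
        have h5 : ρ = σ := by
          rw [← hτ, ← h4]
          ext x
          exact (τ.apply_symm_apply (ρ x)).symm
        rw [h5]
  rw [← h2]
  exact h1

end Pool.Agent.KQ4
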