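import Pool.Agent.KQ4.St
import Pool.Agent.KTW.Spc

/-!
# KQ4: SP4, spectators with commuting actions (helper22)

`W` contains for all skew `Z, Z'` an element with second component `[Z, Z']` which is a bracket, so it acts
as zero on all spectators. With an orthonormal frame `B` (`Bᵀ H B = 1`) every skew `Z` is a combination
of the matrices `B (E_ab - E_ba) B⁻¹`, and these are brackets as there is a third index `c`.
-/

set_option autoImplicit false

namespace Pool.Agent.KQ4

open Module Matrix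

private lemma Sp4_frm {m : ℕ} (H : Matrix (Fin m) (Fin m) ℂ) (hH : Hᵀ = H) (hd : IsUnit H.det) :
    ∃ B : Matrix (Fin m) (Fin m) ℂ, Bᵀ * H * B = 1 := by
  classical
  have h2 : Invertible (2 : ℂ) := invertibleOfNonzero (by norm_num)
  have hs : LinearMap.IsSymm (Matrix.toBilin' H) := ⟨fun x y => KTW.Spc_symm hH x y⟩
  have hn : (Matrix.toBilin' H).Nondegenerate := KTW.Spc_nd hd
  obtain ⟨v, hv⟩ : ∃ v : Basis (Fin m) ℂ (Fin m → ℂ), ∀ i j, i ≠ j →
      Matrix.toBilin' H (v i) (v j) = 0 := by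
    obtain ⟨v, hv⟩ := LinearMap.BilinForm.exists_orthogonal_basis hs
    have h5 : finrank ℂ (Fin m → ℂ) = m := by simp
    refine ⟨v.reindex (finCongr h5), fun i j hij => ?_⟩
    rw [Basis.reindex_apply, Basis.reindex_apply]
    exact hv fun h => hij ((finCongr h5).symm.injective h)
  have hvi : ∀ i, Matrix.toBilin' H (v i) (v i) ≠ 0 := by
    intro i h0
    apply v.ne_zero i
    refine hn.1 _ fun y => ?_
    rw [← v.sum_repr y, map_sum]
    refine Finset.sum_eq_zero fun j _ => ?_
    rw [map_smul]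
    by_cases hij : i = j
    · rw [← hij, h0, smul_zero]
    · rw [hv i j hij, smul_zero]
  choose r hr using fun i => IsAlgClosed.exists_pow_nat_eq (Matrix.toBilin' H (v i) (v i))
    (n := 2) (by norm_num)
  have hr0 : ∀ i, r i ≠ 0 := by
    intro i h
    apply hvi i
    rw [← hr i, h]
    norm_num
  refine ⟨Matrix.of fun a i => (r i)⁻¹ * v i a, ?_⟩
  ext i j
  have e : ((Matrix.of fun a i => (r i)⁻¹ * v i a)ᵀ * H * (Matrix.of fun a i => (r i)⁻¹ * v i a)) i j
      = (r i)⁻¹ * (r j)⁻¹ * Matrix.toBilin' H (v i) (v j) := by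
    rw [Matrix.toBilin'_apply', Matrix.mul_assoc, Matrix.mul_apply, dotProduct, Finset.mul_sum]
    refine Finset.sum_congr rfl fun a _ => ?_
    rw [Matrix.mul_apply, Matrix.mulVec, dotProduct, Finset.mul_sum, Finset.mul_sum, Finset.mul_sum]
    refine Finset.sum_congr rfl fun b _ => ?_
    simp only [Matrix.transpose_apply, Matrix.of_apply]
    ring
  rw [e]
  by_cases hij : i = j
  · subst hij
    rw [← hr i, Matrix.one_apply_eq]
    field_simp [hr0 i]
  · rw [hv i j hij, mul_zero, Matrix.one_apply_ne hij]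

/-- the elementary skew matrices are brackets -/
private lemma Sp4_br {m : ℕ} {a b c : Fin m} (hab : a ≠ b) (hac : a ≠ c) (hbc : b ≠ c) :
    (Matrix.single a c (1 : ℂ) - Matrix.single c a 1) *
      (Matrix.single c b 1 - Matrix.single b c 1) -
      (Matrix.single c b 1 - Matrix.single b c 1) *
      (Matrix.single a c 1 - Matrix.single c a 1) =
      Matrix.single a b (1 : ℂ) - Matrix.single b a 1 := by
  simp only [sub_mul, mul_sub, Matrix.single_mul_single_same, Matrix.single_mul_single_of_ne,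
    ne_eq, hab, hab.symm, hac, hac.symm, hbc, hbc.symm, not_false_eq_true, mul_one]
  simp only [sub_zero, zero_sub, sub_neg_eq_add, zero_add]

/-- **SP4.** -/
theorem thm_Sp4 : St_Sp4 := by
  classical
  intro m H hH hd hm 𝓐 _ _ J κ _ π W hbr hsk hsur hcom
  obtain ⟨B, hB⟩ := Sp4_frm H hH hd
  have hB' : B * (Bᵀ * H) = 1 := mul_eq_one_comm.1 hB
  -- the submodule of second components of elements which act as zero
  let 𝔞 : Submodule ℂ (Matrix (Fin m) (Fin m) ℂ) :=
    { carrier := {Z | ∃ X ∈ W, X.2 = Z ∧ ∀ j, π j X.1 = 0}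
      add_mem' := by
        rintro Z Z' ⟨X, hX, rfl, hX0⟩ ⟨Y, hY, rfl, hY0⟩
        exact ⟨X + Y, W.add_mem hX hY, rfl, fun j => by
          rw [Prod.fst_add, map_add, hX0, hY0, add_zero]⟩
      zero_mem' := ⟨0, W.zero_mem, rfl, fun j => by rw [Prod.fst_zero, map_zero]⟩
      smul_mem' := by
        rintro c Z ⟨X, hX, rfl, hX0⟩
        exact ⟨c • X, W.smul_mem c hX, rfl, fun j => by
          rw [Prod.smul_fst, map_smul, hX0, smul_zero]⟩ }
  have hbr' : ∀ Z Z' : Matrix (Fin m) (Fin m) ℂ, Zᵀ * H + H * Z = 0 → Z'ᵀ * H + H * Z' = 0 →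
      Z * Z' - Z' * Z ∈ 𝔞 := by
    intro Z Z' hZ hZ'
    obtain ⟨X, hX, rfl⟩ := hsur Z hZ
    obtain ⟨Y, hY, rfl⟩ := hsur Z' hZ'
    refine ⟨X * Y - Y * X, hbr X hX Y hY, rfl, fun j => ?_⟩
    rw [Prod.fst_sub, Prod.fst_mul, Prod.fst_mul, map_sub, map_mul, map_mul, hcom j X hX Y hY,
      sub_self]
  -- transport by the frame
  have hskf : ∀ Y : Matrix (Fin m) (Fin m) ℂ, Yᵀ = -Y →
      (B * Y * (Bᵀ * H))ᵀ * H + H * (B * Y * (Bᵀ * H)) = 0 := by
    intro Y hY
    simp only [Matrix.transpose_mul, Matrix.transpose_transpose, hH, hY, Matrix.mul_assoc,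
      Matrix.neg_mul, Matrix.mul_neg]
    exact neg_add_cancel _
  have hmul : ∀ Y Y' : Matrix (Fin m) (Fin m) ℂ,
      (B * Y * (Bᵀ * H)) * (B * Y' * (Bᵀ * H)) = B * (Y * Y') * (Bᵀ * H) := by
    intro Y Y'
    calc (B * Y * (Bᵀ * H)) * (B * Y' * (Bᵀ * H)) = B * Y * (Bᵀ * H * B) * Y' * (Bᵀ * H) := by
          simp only [Matrix.mul_assoc]
      _ = B * (Y * Y') * (Bᵀ * H) := by rw [hB, Matrix.mul_one, Matrix.mul_assoc B]
  have hel : ∀ a b : Fin m, B * (Matrix.single a b (1 : ℂ) - Matrix.single b a 1) * (Bᵀ * H) ∈ 𝔞 := by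
    intro a b
    by_cases hab : a = b
    · rw [hab, sub_self, Matrix.mul_zero, Matrix.zero_mul]
      exact 𝔞.zero_mem
    obtain ⟨c, hc⟩ : ∃ c : Fin m, c ∉ ({a, b} : Finset (Fin m)) := by
      by_contra hcon
      push Not at hcon
      have h1 : (Finset.univ : Finset (Fin m)) ⊆ {a, b} := fun c _ => hcon c
      have h2 := Finset.card_le_card h1
      rw [Finset.card_univ, Fintype.card_fin] at h2
      have h3 := Finset.card_le_two (a := a) (b := b)
      omega
    simp only [Finset.mem_insert, Finset.mem_singleton, not_or] at hc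
    have hsk1 : ∀ i j : Fin m, (Matrix.single i j (1 : ℂ) - Matrix.single j i 1)ᵀ =
        -(Matrix.single i j (1 : ℂ) - Matrix.single j i 1) := by
      intro i j
      rw [Matrix.transpose_sub, Matrix.transpose_single, Matrix.transpose_single, neg_sub]
    have h1 := hbr' _ _ (hskf _ (hsk1 a c)) (hskf _ (hsk1 c b))
    rw [hmul, hmul, ← Matrix.sub_mul, ← Matrix.mul_sub,
      Sp4_br hab (Ne.symm hc.1) (Ne.symm hc.2)] at h1
    exact h1
  intro Z hZ
  have hYs : (Bᵀ * H * Z * B)ᵀ = -(Bᵀ * H * Z * B) := by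
    have h1 : Zᵀ * H = -(H * Z) := eq_neg_of_add_eq_zero_left hZ
    simp only [Matrix.transpose_mul, Matrix.transpose_transpose, hH]
    rw [Matrix.mul_assoc Bᵀ H Z, ← Matrix.mul_assoc Zᵀ H B, h1, Matrix.neg_mul, Matrix.mul_neg,
      Matrix.mul_assoc Bᵀ]
  have hdec : Z = ∑ a, ∑ b, ((Bᵀ * H * Z * B) a b / 2) •
      (B * (Matrix.single a b (1 : ℂ) - Matrix.single b a 1) * (Bᵀ * H)) := by
    have h1 : Z = B * (Bᵀ * H * Z * B) * (Bᵀ * H) := by
      calc Z = B * (Bᵀ * H) * Z * (B * (Bᵀ * H)) := by rw [hB', Matrix.one_mul, Matrix.mul_one]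
        _ = B * (Bᵀ * H * Z * B) * (Bᵀ * H) := by simp only [Matrix.mul_assoc]
    have h2 : Bᵀ * H * Z * B = ∑ a, ∑ b, ((Bᵀ * H * Z * B) a b / 2) •
        (Matrix.single a b (1 : ℂ) - Matrix.single b a 1) := by
      generalize Bᵀ * H * Z * B = Y at hYs
      have hY : ∀ i j, Y j i = -Y i j := fun i j => by
        have := congrFun (congrFun hYs i) j
        rwa [Matrix.transpose_apply, Matrix.neg_apply] at this
      ext i j
      simp only [Matrix.sum_apply, Matrix.smul_apply, Matrix.sub_apply, smul_eq_mul, mul_sub,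
        Finset.sum_sub_distrib, Matrix.single_apply]
      have e1 : ∑ a, ∑ b, Y a b / 2 * (if a = i ∧ b = j then (1 : ℂ) else 0) = Y i j / 2 := by
        rw [Finset.sum_eq_single i, Finset.sum_eq_single j]
        · simp
        · intro b _ hb
          simp [hb]
        · simp
        · intro a _ ha
          exact Finset.sum_eq_zero fun b _ => by simp [ha]
        · simp
      have e2 : ∑ a, ∑ b, Y a b / 2 * (if b = i ∧ a = j then (1 : ℂ) else 0) = Y j i / 2 := by
        rw [Finset.sum_eq_single j, Finset.sum_eq_single i]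
        · simp
        · intro b _ hb
          simp [hb]
        · simp
        · intro a _ ha
          exact Finset.sum_eq_zero fun b _ => by simp [ha]
        · simp
      rw [e1, e2, hY i j]
      ring
    nth_rewrite 1 [h1]
    nth_rewrite 1 [h2]
    simp only [Matrix.mul_sum, Matrix.sum_mul, Matrix.mul_smul, Matrix.smul_mul]
  have hmem : Z ∈ 𝔞 := by
    rw [hdec]
    exact Submodule.sum_mem _ fun a _ => Submodule.sum_mem _ fun b _ =>
      𝔞.smul_mem _ (hel a b)
  exact hmem

end Pool.Agent.KQ4
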