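import Pool.Agent.KQ4.Defs
import Pool.Agent.KTW.StN
import Pool.Agent.KSW.Fin

/-!
# KQ4: Kuga-Satake structures with `m = 4` over real fields. Frozen statements

Every module `Pool/Agent/KQ4/<X>.lean` imports this file and proves `theorem thm_<X> : St_<X>` (with
the hypotheses named in the docstring), namespace `Pool.Agent.KQ4`, own lemmas with names starting with
the name of the module. The docstrings contain the proofs.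

Plan. `RR0 → so(V_i)` is onto also for `m i = 4` (`KSV.coreB`, `KSW.RRE_core0`), but `so(4)` is the sum of two
copies of `so(3)`. With an orthonormal frame `B` at the Hodge place (`Bᵀ H B = 1`) the two components
of `Z` are the vectors `cq ε (Bᵀ H Z B)`, `ε = 1, -1`, and brackets become cross products. A link between
the component `ε` at `(i, σ₀ i)` and the component `ε'` at `(j, σ₀ j)` gives, by the automorphisms of `ℂ`, such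
links at all places (`Qlk`), these give a map of Clifford modules which commutes with the symmetries
(`Qhm`, by averaging over quaternion groups: `Qav`), so de Rham-Betti morphisms (`Qdr`).
-/

set_option autoImplicit false

namespace Pool.Agent.KQ4

open Module Matrix NumberField Pool.Agent.Helper7 Pool.Agent.KS Pool.Agent.Ball Pool.Agent.KSE
  Pool.Agent.Helper28.GPC Pool.Agent.KSR Pool.Agent.KSV Pool.Agent.K3P Pool.Agent.KTP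
  Pool.Agent.KTW
open Pool.Agent.GPC (AbVar)

/-! ### Linear algebra -/

/-- **FRM.**  Orthonormal frames.  PROOF.  An orthogonal basis of the symmetric bilinear form of `H`
(`LinearMap.BilinForm.exists_orthogonal_basis`, `Invertible 2`), divided by square roots of its values
(nonzero because `H` is invertible; `IsSquare` in `ℂ`), as the columns of `B`. -/
def St_Frm : Prop := ∀ (m : ℕ) (H : Matrix (Fin m) (Fin m) ℂ), Hᵀ = H → IsUnit H.det →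
  ∃ B : Matrix (Fin m) (Fin m) ℂ, Bᵀ * H * B = 1

/-- **QSO.**  Bijective linear maps which respect the cross product are orthogonal.  PROOF.
`x × (y × z) = (x·z) y - (x·y) z`.  Apply `g` to it, and use it for `g x, g y, g z`:
`(g x · g z - x · z) g y = (g x · g y - x · y) g z`.  For `y ≠ 0` take `z` linearly independent of `y` (so
`g z` is linearly independent of `g y`): `g x · g y = x · y`. -/
def St_Qso : Prop := ∀ g : (Fin 3 → ℂ) →ₗ[ℂ] (Fin 3 → ℂ), Function.Bijective g →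
  (∀ x y, g (crossProduct x y) = crossProduct (g x) (g y)) → ∀ x y, g x ⬝ᵥ g y = x ⬝ᵥ y

/-- **QCQ.**  The coordinates.  PROOF.  Explicit, entry by entry (`m = 3` or `m = 4` by `subst`,
`Fin.sum_univ_three`, `Fin.sum_univ_four`, `ring`; for `m = 3` the entries `en A _ 3` vanish).  The last two
statements: for `m = 3`, `cq` is a bijection from the skew matrices to `ℂ³`; for `m = 4` the pair
(`cq 1`, `cq (-1)`) is a bijection to `ℂ³ × ℂ³`. -/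
def St_Qcq : Prop := ∀ m : ℕ, (m = 3 ∨ m = 4) → ∀ ε : ℂ, ε * ε = 1 →
  (∀ A A' : Matrix (Fin m) (Fin m) ℂ, cq ε (A + A') = cq ε A + cq ε A') ∧
  (∀ (r : ℂ) (A : Matrix (Fin m) (Fin m) ℂ), cq ε (r • A) = r • cq ε A) ∧
  (∀ A A' : Matrix (Fin m) (Fin m) ℂ, Aᵀ = -A → A'ᵀ = -A' →
    cq ε (A * A' - A' * A) = crossProduct (cq ε A) (cq ε A')) ∧
  (∀ x : Fin 3 → ℂ, ∃ A : Matrix (Fin m) (Fin m) ℂ, Aᵀ = -A ∧ cq ε A = x ∧
    (m = 4 → cq (-ε) A = 0)) ∧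
  ∀ A : Matrix (Fin m) (Fin m) ℂ, Aᵀ = -A → cq ε A = 0 → (m = 4 → cq (-ε) A = 0) → A = 0

/-- **QAV.**  Averaging over quaternion groups.  PROOF.  Put `q_a = 2 s σ e_a`, `q'_a = 2 s' σ e_a`
(`a = 0, 1, 2`): on the image of `p` they square to `-1` and multiply as the quaternion units.  By
induction on a finset `T` of places there is `f ≠ 0` with `f ∘ p = f`, `p' ∘ f = f`,
`f ∘ s σ x = s' σ x ∘ f` for `σ ∈ T`.  Start: `f = p' ∘ f₁ ∘ p ≠ 0` for a map `f₁` of rank one.  Step `σ ∉ T`: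
`Av f = f - ∑ a, q'_a ∘ f ∘ q_a`.  Then `Av f ∘ q_b = q'_b ∘ Av f` (multiplication table), and `Av f`, `f ∘ q_b`
have the properties of `f` (for `T`) again.  If `Av f = 0` and `Av (f ∘ q_b) = 0` for `b = 0, 1, 2`, multiply
the last ones by `- q_b` on the right: `f - ∑ a, χ_b(a) q'_a ∘ f ∘ q_a = 0` with `χ_b(b) = 1`, `χ_b(a) = -1` for
`a ≠ b`; the sum of the four equations is `4 f = 0`. -/
def St_Qav : Prop := ∀ (S V V' : Type) [Fintype S] [DecidableEq S] [AddCommGroup V] [Module ℂ V]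
  [AddCommGroup V'] [Module ℂ V'] (s : S → (Fin 3 → ℂ) →ₗ[ℂ] Module.End ℂ V) (p : Module.End ℂ V)
  (s' : S → (Fin 3 → ℂ) →ₗ[ℂ] Module.End ℂ V') (p' : Module.End ℂ V'), QP s p → QP s' p' →
  ∃ F : V →ₗ[ℂ] V', F ≠ 0 ∧ F ∘ₗ p = F ∧ p' ∘ₗ F = F ∧ ∀ σ x, F ∘ₗ s σ x = s' σ x ∘ₗ F

/-- **RPA.**  Goursat's lemma with links.  `R` is a Lie algebra, the kernels of the `c q` on `R` are ideals
(`h1`), the images are not commutative (`h2`) and simple (`h3`).  PROOF.  `q ~ q'` if `∀ Y ∈ R, c q Y = 0 ↔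
c q' Y = 0` (equivalence relation).  (1) Let `q, q'` be not linked.  Then there is `X ∈ R` with
`c q' X = 0`, `c q X ≠ 0`: otherwise there is `X ∈ R` with `c q X = 0`, `c q' X ≠ 0`, and by `h3` for the ideal
`{X ∈ R, c q X = 0}` it is mapped by `c q'` onto `c q' (R)`; take `Y ∈ R` with `c q Y ≠ 0` (`h2`) and `Y'` in
the ideal with `c q' Y' = c q' Y`: `Y - Y'` has `c q' = 0`, `c q ≠ 0`, contradiction.  By `h3`
`{X ∈ R, c q' X = 0}` is mapped by `c q` onto `c q (R)`.  (2) For a finset `s` of indices, all not linked with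
`q`, the ideal `𝔞 s = {X ∈ R, ∀ q' ∈ s, c q' X = 0}` is mapped by `c q` onto `c q (R)`: induction;
`𝔞 (insert q' s)` contains the `X * Y - Y * X`, `X ∈ 𝔞 s`, `Y ∈ 𝔞 {q'}` (`h1`), and `c q (X * Y - Y * X)`
depends only on `c q X`, `c q Y` (`h1`), so it is not zero for suitable `X, Y` (`h2`); then `h3`.
(3) Choose representatives (`Quotient.out` of the setoid of links).  For every representative `q` there
is `X_q ∈ R` with `c q X_q = D q` and `c q' X_q = 0` for the other representatives; `X = ∑ q, X_q` (over the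
representatives) has `c q X = D q` for the representatives, hence for all `q` by the last hypothesis. -/
def St_Rpa : Prop := ∀ (𝓐 : Type) [Ring 𝓐] [Algebra ℂ 𝓐] (R : Submodule ℂ 𝓐),
  (∀ X ∈ R, ∀ Y ∈ R, X * Y - Y * X ∈ R) → ∀ (Q : Type) [Fintype Q] [DecidableEq Q] (E : Q → Type)
  [∀ q, AddCommGroup (E q)] [∀ q, Module ℂ (E q)] (c : ∀ q, 𝓐 →ₗ[ℂ] E q),
  (∀ q, ∀ X ∈ R, ∀ Y ∈ R, c q X = 0 → c q (Y * X - X * Y) = 0) →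
  (∀ q, ∃ X ∈ R, ∃ Y ∈ R, c q (X * Y - Y * X) ≠ 0) →
  (∀ q, ∀ 𝔞 : Submodule ℂ 𝓐, 𝔞 ≤ R → (∀ X ∈ 𝔞, ∀ Y ∈ R, Y * X - X * Y ∈ 𝔞) →
    (∃ X ∈ 𝔞, c q X ≠ 0) → ∀ Y ∈ R, ∃ X ∈ 𝔞, c q X = c q Y) →
  ∀ D : ∀ q, E q, (∀ q, ∃ X ∈ R, c q X = D q) →
  (∀ q q', (∀ Y ∈ R, c q Y = 0 ↔ c q' Y = 0) → ∀ X ∈ R, c q X = D q → c q' X = D q') →
  ∃ X ∈ R, ∀ q, c q X = D q

/-- **SP4.**  Spectators with commuting actions, all `m ≥ 3`.  PROOF.  The brackets of skew matrices span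
the skew matrices (`m ≥ 3`: with an orthonormal frame, `St_Frm`, the matrices
`E_ab - E_ba` satisfy `[E_ab - E_ba, E_bc - E_cb] = E_ac - E_ca`), and a bracket `[Z, Z']`, `Z = X.2`,
`Z' = X'.2`, is the second component of `X * X' - X' * X`, on which all `π j` vanish. -/
def St_Sp4 : Prop := ∀ (m : ℕ) (H : Matrix (Fin m) (Fin m) ℂ), Hᵀ = H → IsUnit H.det → 3 ≤ m →
  ∀ (𝓐 : Type) [Ring 𝓐] [Algebra ℂ 𝓐] (J : Type) (κ : J → Type) [∀ j, Fintype (κ j)]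
  (π : ∀ j, 𝓐 →ₐ[ℂ] Module.End ℂ (κ j → ℂ)) (W : Submodule ℂ (𝓐 × Matrix (Fin m) (Fin m) ℂ)),
  (∀ X ∈ W, ∀ Y ∈ W, X * Y - Y * X ∈ W) → (∀ X ∈ W, X.2ᵀ * H + H * X.2 = 0) →
  (∀ Z : Matrix (Fin m) (Fin m) ℂ, Zᵀ * H + H * Z = 0 → ∃ X ∈ W, X.2 = Z) →
  (∀ j, ∀ X ∈ W, ∀ Y ∈ W, π j X.1 * π j Y.1 = π j Y.1 * π j X.1) →
  ∀ Z : Matrix (Fin m) (Fin m) ℂ, Zᵀ * H + H * Z = 0 → ∃ X ∈ W, X.2 = Z ∧ ∀ j, π j X.1 = 0

/-! ### Clifford operators -/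

/-- **QC1.**  One place.  PROOF.  `m = 3`: `e = 1`; `m = 4`: `w = T 0 * T 1 * T 2 * T 3`, `w * w = 1`, `w` commutes
with `T a * T b` and anticommutes with `T a`, `e = (1/2) • (1 + ε • w)`.
`s x = -(1/2) • (x 0 • T 1 * T 2 + x 1 • T 2 * T 0 + x 2 • T 0 * T 1)`.  (With
`J 0 = T 1 * T 2, J 1 = T 2 * T 0, J 2 = T 0 * T 1`: `J a * J a = -1`, `J 0 * J 1 = T 1 * T 0 = - J 2` etc.; for `m = 4`
`T 0 * T 3 = - J 0 * w`, `T 1 * T 3 = - J 1 * w`, `T 2 * T 3 = - J 2 * w`, and `w * e = ε • e`; so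
`∑ a b, (A a b / 4) T a * T b = -(1/2) ∑ a, (w_a + u_a w) J a`, with `w_a = en A 2 1, ..`, `u_a = en A a 3`.) -/
def St_Qc1 : Prop := ∀ (𝓐 : Type) [Ring 𝓐] [Algebra ℂ 𝓐] (m : ℕ), (m = 3 ∨ m = 4) →
  ∀ T : Fin m → 𝓐, (∀ a b, T a * T b + T b * T a = if a = b then 2 else 0) →
  ∀ ε : ℂ, ε * ε = 1 → ∃ (s : (Fin 3 → ℂ) →ₗ[ℂ] 𝓐) (e : 𝓐), e * e = e ∧
    (∀ x y, s x * s y * e = (-(x ⬝ᵥ y) / 4) • e + (1 / 2 : ℂ) • (s (crossProduct x y) * e)) ∧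
    (∀ A : Matrix (Fin m) (Fin m) ℂ, Aᵀ = -A →
      (∑ a, ∑ b, (A a b / 4) • (T a * T b)) * e = s (cq ε A) * e) ∧
    (∀ a b, T a * T b * e = e * (T a * T b)) ∧ (∀ x, s x * e = e * s x) ∧
    (e = 1 ∨ ∃ a, e * T a = T a * (1 - e)) ∧
    (∀ y : 𝓐, (∀ a, T a * y = -(y * T a)) → (∀ x, s x * y = y * s x) ∧ e * y = y * e) ∧
    ∀ y : 𝓐, (∀ a, T a * y = y * T a) → (∀ x, s x * y = y * s x) ∧ e * y = y * e

/-- **QCL** (from `St_Qc1`).  All places.  PROOF.  `T σ a = tau (ts t σ) (fun b => B σ b a)`; by `tau_pair` and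
`hB` they satisfy the relations of `St_Qc1`, by `tau_anti` (`cj σ = σ`) those of different places
anticommute.  `s σ, e σ` from `St_Qc1`.  The `e σ` commute, `p` is their product: for every finset `F` of
places there is `p` with `p * p = p`, `p * e σ = p = e σ * p` for `σ ∈ F`, which commutes with everything that
commutes with all `e σ`, and `p ≠ 0`; for the last property: there is `v ≠ 0` with `e σ v = v` for all `σ ∈ F`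
(induction; for a new place `σ`: if `e σ v ≠ 0` take `e σ v`, otherwise `e σ ≠ 1`, take `T σ a v` with
`e σ * T σ a = T σ a * (1 - e σ)`, not zero as `T σ a * T σ a = 1`, and `e ρ` commutes with `T σ a` for `ρ ≠ σ`).
The formula: `A_σ = (B σ)ᵀ * h.map σ * M σ * B σ` is skew (`ActM.skew`), let `X' = ∑ σ, ∑ a, ∑ b, (A_σ a b / 4) •
(T σ a * T σ b) = ∑ σ a b, (A_σ a b / 8) • (T σ a * T σ b - T σ b * T σ a)`.  It is in `bvS t` (`TransA.mem_bvS`) and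
acts by `M` (`TransA.act_gen`, `TransA.WM_mulVec`, `B σ * (B σ)ᵀ * h.map σ = 1`), so `X = X'` (`eq_of_act`).
Multiply `X'` by `p = e σ * p`. -/
def St_Qcl : Prop := ∀ (κ K : Type) [Fintype κ] [DecidableEq κ] [Nonempty κ] [Field K]
  [NumberField K] (c : K →+* K) (m : ℕ) (h : Matrix (Fin m) (Fin m) K)
  (t : Fin m → K → Module.End ℂ (κ → ℂ)), (∀ (σ : K →+* ℂ) (x : K), cj σ x = σ (c x)) →
  (∀ a b, c (h a b) = h b a) → h.det ≠ 0 →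
  (∀ a b x y, t a x * t b y + t b y * t a x =
    (2 * ((Algebra.trace ℚ K (x * c y * h a b) : ℚ) : ℂ)) • 1) →
  (∀ σ : K →+* ℂ, cj σ = σ) → (m = 3 ∨ m = 4) → ∀ ε : ℂ, ε * ε = 1 →
  ∀ B : (K →+* ℂ) → Matrix (Fin m) (Fin m) ℂ, (∀ σ, (B σ)ᵀ * h.map σ * B σ = 1) →
  ∃ (s : (K →+* ℂ) → (Fin 3 → ℂ) →ₗ[ℂ] Module.End ℂ (κ → ℂ)) (p : Module.End ℂ (κ → ℂ)), QP s p ∧
    ∀ X ∈ bvS t, ∀ M, ActM t X M → X * p = p * X ∧
      X * p = (∑ σ, s σ (cf ε h σ (B σ) (M σ))) * p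

/-- **QHM** (from `St_Qcl`, `St_Qav`, `St_Qso`).  The map of Clifford modules.  PROOF.  `s, p` and `s', p'` from
`St_Qcl` for the two structures (the frames at the places of `K'` are `C' (φ⁻¹ ρ)`), and
`s'' σ = s' (φ σ) ∘ₗ g σ`: `QP s'' p'` by `St_Qso`.  `F` from `St_Qav` for `s, s''`.  (1) `F X = F p X = F X p =
F (∑ s σ (x σ)) p = (∑ s'' σ (x σ)) F p = (∑ s' (φ σ) (g σ (x σ))) p' F = Y p' F = Y F`.
(2) `Y F = 0` says `∑ σ, s' (φ σ) (y σ) F = 0` (`y σ` the coordinates of `M' (φ σ)`).  Let `ρ` be a place and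
`x : ℂ³`.  Multiply by `s'' ρ x` on the left, and by `s ρ x` on the right (`F s ρ x = s'' ρ x F`); the difference
is `s' (φ ρ) (y ρ × g ρ x) F = 0` (other places commute; `mul` for the same place).  So
`s' (φ ρ) z F = 0` for `z = y ρ × w`, `w` arbitrary.  Again multiply by `s'' ρ x` on the left and `s ρ x` on the
right and add: `-(1/2) (z · g ρ x) F = 0`, so `z = 0` as `F ≠ 0`; so `y ρ × w = 0` for all `w`, `y ρ = 0`. -/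
def St_Qhm : Prop := ∀ (κ κ' K K' : Type) [Fintype κ] [DecidableEq κ] [Nonempty κ] [Fintype κ']
  [DecidableEq κ'] [Nonempty κ'] [Field K] [NumberField K] [Field K'] [NumberField K']
  (c : K →+* K) (c' : K' →+* K') (m m' : ℕ) (h : Matrix (Fin m) (Fin m) K)
  (h' : Matrix (Fin m') (Fin m') K') (t : Fin m → K → Module.End ℂ (κ → ℂ))
  (t' : Fin m' → K' → Module.End ℂ (κ' → ℂ)),
  (∀ (σ : K →+* ℂ) (x : K), cj σ x = σ (c x)) → (∀ (σ : K' →+* ℂ) (x : K'), cj σ x = σ (c' x)) →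
  (∀ a b, c (h a b) = h b a) → (∀ a b, c' (h' a b) = h' b a) → h.det ≠ 0 → h'.det ≠ 0 →
  (∀ a b x y, t a x * t b y + t b y * t a x =
    (2 * ((Algebra.trace ℚ K (x * c y * h a b) : ℚ) : ℂ)) • 1) →
  (∀ a b x y, t' a x * t' b y + t' b y * t' a x =
    (2 * ((Algebra.trace ℚ K' (x * c' y * h' a b) : ℚ) : ℂ)) • 1) →
  (∀ σ : K →+* ℂ, cj σ = σ) → (∀ σ : K' →+* ℂ, cj σ = σ) → (m = 3 ∨ m = 4) → (m' = 3 ∨ m' = 4) →
  ∀ ε ε' : ℂ, ε * ε = 1 → ε' * ε' = 1 → ∀ φ : (K →+* ℂ) → (K' →+* ℂ), Function.Bijective φ →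
  ∀ (C : (K →+* ℂ) → Matrix (Fin m) (Fin m) ℂ) (C' : (K →+* ℂ) → Matrix (Fin m') (Fin m') ℂ)
    (g : (K →+* ℂ) → (Fin 3 → ℂ) →ₗ[ℂ] (Fin 3 → ℂ)), (∀ σ, (C σ)ᵀ * h.map σ * C σ = 1) →
  (∀ σ, (C' σ)ᵀ * h'.map (φ σ) * C' σ = 1) → (∀ σ, Function.Bijective (g σ)) →
  (∀ σ x y, g σ (crossProduct x y) = crossProduct (g σ x) (g σ y)) →
  ∃ F : (κ → ℂ) →ₗ[ℂ] (κ' → ℂ), F ≠ 0 ∧
    (∀ X ∈ bvS t, ∀ M, ActM t X M → ∀ Y ∈ bvS t', ∀ M', ActM t' Y M' →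
      (∀ σ, cf ε' h' (φ σ) (C' σ) (M' (φ σ)) = g σ (cf ε h σ (C σ) (M σ))) → F ∘ₗ X = Y ∘ₗ F) ∧
    ∀ Y ∈ bvS t', ∀ M', ActM t' Y M' → Y ∘ₗ F = 0 → ∀ σ, cf ε' h' (φ σ) (C' σ) (M' (φ σ)) = 0

/-! ### Links -/

/-- **QLK** (from `St_Qcq`).  A link at the Hodge places gives links at all places.  PROOF.  Write
`c_i M = cf ε (h i) (σ₀ i) B (M ⟨i, σ₀ i⟩)`, `c_j M = cf ε' (h j) (σ₀ j) B' (M ⟨j, σ₀ j⟩)`; `R0` the `M ∈ R` with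
`M p = 0` for `p.2 ≠ σ₀ p.1`.  By `SkP`, `Bᵀ H B = 1` (so `B Bᵀ H = 1`) and `St_Qcq`: `c_i (M * M' - M' * M) =
c_i M × c_i M'` for `M, M' ∈ R`, and `c_i, c_j` are onto `ℂ³` on `R0` (`core`).
(1) The link holds on `R`: `M ∈ R`, `c_i M = 0`; for `N ∈ R0` the bracket `[M, N]` is in `R0` and
`c_i [M, N] = 0`, so `0 = c_j [M, N] = c_j M × c_j N`, all `N`, so `c_j M = 0`.  The converse in the same way.
(2) So there is a bijective linear `g₀ : ℂ³ → ℂ³` with `c_j M = g₀ (c_i M)` for `M ∈ R`, and it respects cross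
products.
(3) If `τ ∘ σ₀ i = σ₀ i`, then `τ ∘ σ₀ j = σ₀ j`: otherwise take by `core` and `St_Qcq` `M ∈ R0` with
`cf ε (h i) (σ₀ i) (B.map τ) (M ⟨i, σ₀ i⟩) ≠ 0` (`B.map τ` is a frame at `σ₀ i` since `τ ∘ σ₀ i = σ₀ i`);
`M' = twP τ.symm M ∈ R` has `M' ⟨i, σ₀ i⟩ = (M ⟨i, σ₀ i⟩).map τ.symm`, so `c_i M' ≠ 0` (apply `τ`), and
`M' ⟨j, σ₀ j⟩ = (M ⟨j, τ ∘ σ₀ j⟩).map τ.symm = 0`, so `c_j M' = 0`, contradiction.  And the other direction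
(compare `KSR/IsoA.lean`, `stab`).  (4) For every `σ` choose `τ σ` with `τ σ ∘ σ₀ i = σ`
(`Helper84.exists_aut`; the identity for `σ = σ₀ i`), `φ σ = τ σ ∘ σ₀ j`, `C σ = B.map (τ σ)`,
`C' σ = B'.map (τ σ)`, `g σ` the linear map of the matrix of `g₀` mapped by `τ σ`.  `φ` is bijective by (3).
The last statement for `M` is `τ σ` applied to `c_j M' = g₀ (c_i M')`, `M' = twP (τ σ).symm M`. -/
def St_Qlk : Prop := ∀ (I : Type) [Fintype I] [DecidableEq I] (K : I → Type) [∀ i, Field (K i)]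
  [∀ i, NumberField (K i)] (m : I → ℕ) (h : ∀ i, Matrix (Fin (m i)) (Fin (m i)) (K i))
  (σ₀ : ∀ i, K i →+* ℂ), (∀ i, (h i)ᵀ = h i) → (∀ i, (h i).det ≠ 0) →
  ∀ R : Submodule ℂ (∀ p : PL K, Matrix (Fin (m p.1)) (Fin (m p.1)) ℂ),
  (∀ M ∈ R, ∀ p : PL K, SkP (h p.1) p.2 (M p)) → (∀ M ∈ R, ∀ M' ∈ R, M * M' - M' * M ∈ R) →
  (∀ M ∈ R, ∀ τ : ℂ ≃+* ℂ, twP τ M ∈ R) → ∀ i j : I, (m i = 3 ∨ m i = 4) → (m j = 3 ∨ m j = 4) →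
  (∀ l, l = i ∨ l = j → ∀ Z, SkP (h l) (σ₀ l) Z →
    ∃ M ∈ R, M ⟨l, σ₀ l⟩ = Z ∧ ∀ p : PL K, p.2 ≠ σ₀ p.1 → M p = 0) →
  ∀ ε ε' : ℂ, ε * ε = 1 → ε' * ε' = 1 → ∀ (B : Matrix (Fin (m i)) (Fin (m i)) ℂ)
    (B' : Matrix (Fin (m j)) (Fin (m j)) ℂ), Bᵀ * (h i).map (σ₀ i) * B = 1 →
  B'ᵀ * (h j).map (σ₀ j) * B' = 1 →
  (ε = 1 ∨ ε = -1) → (ε' = 1 ∨ ε' = -1) →
  (∀ M ∈ R, (∀ p : PL K, p.2 ≠ σ₀ p.1 → M p = 0) →
    (cf ε (h i) (σ₀ i) B (M ⟨i, σ₀ i⟩) = 0 ↔ cf ε' (h j) (σ₀ j) B' (M ⟨j, σ₀ j⟩) = 0)) →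
  ∃ (φ : (K i →+* ℂ) → (K j →+* ℂ)) (C : (K i →+* ℂ) → Matrix (Fin (m i)) (Fin (m i)) ℂ)
    (C' : (K i →+* ℂ) → Matrix (Fin (m j)) (Fin (m j)) ℂ)
    (g : (K i →+* ℂ) → (Fin 3 → ℂ) →ₗ[ℂ] (Fin 3 → ℂ)), Function.Bijective φ ∧ φ (σ₀ i) = σ₀ j ∧
    C (σ₀ i) = B ∧ C' (σ₀ i) = B' ∧ (∀ σ, (C σ)ᵀ * (h i).map σ * C σ = 1) ∧
    (∀ σ, (C' σ)ᵀ * (h j).map (φ σ) * C' σ = 1) ∧ (∀ σ, Function.Bijective (g σ)) ∧
    (∀ σ x y, g σ (crossProduct x y) = crossProduct (g σ x) (g σ y)) ∧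
    ∀ M ∈ R, ∀ σ, cf ε' (h j) (φ σ) (C' σ) (M ⟨j, φ σ⟩) = g σ (cf ε (h i) σ (C σ) (M ⟨i, σ⟩))

/-- **QDR.**  A map which commutes with the symmetries is a combination of de Rham-Betti morphisms.
PROOF.  End of `KSR.hom_of_F` (`Pool/Agent/KSR/HomA.lean`): homotheties give `F ∘ₗ X.1 i = X.1 j ∘ₗ F` for all
symmetries, `bilin_of_inv` for `(P j).ψ ∘ₗ F`, and `(P j).hψnd`. -/
def St_Qdr : Prop := ∀ (J : Type) [Fintype J] [DecidableEq J] (n : J → ℕ) (κ : J → Type)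
  [∀ j, Fintype (κ j)] [∀ j, DecidableEq (κ j)] (ϖ : ℂ), ϖ ≠ 0 → ∀ (P : ∀ j, PData (κ j) ϖ) (k : ℕ)
  (γ : MultilinearMap ℂ (fun _ : Fin (2 * k) => HW κ n) ℂ),
  (∀ v : Fin (2 * k) → HW κ n, (∀ r, IsRatP n P (v r)) → ∃ q : ℚ, γ v = ϖ ^ k * q) →
  (∀ v : Fin (2 * k) → HW κ n, (∀ r i m j, IsAlgebraic ℚ (v r i m j)) → IsAlgebraic ℚ (γ v)) →
  ∀ (i j : J) (F : (κ i → ℂ) →ₗ[ℂ] (κ j → ℂ)),
  (∀ X : GG κ, IsInv n P γ X → X.2 = 0 → F ∘ₗ X.1 i = X.1 j ∘ₗ F) →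
  F ∈ Submodule.span ℂ {f : (κ i → ℂ) →ₗ[ℂ] (κ j → ℂ) | IsDRB (P i) (P j) f}

/-! ### Families, all abelian varieties with Kuga-Satake structure -/

section defs

variable {I : Type} [Fintype I] [DecidableEq I] (n : I → ℕ) {κ : I → Type}
    [∀ i, Fintype (κ i)] [∀ i, DecidableEq (κ i)] {ϖ : ℂ} (P : ∀ i, PData (κ i) ϖ)
    {K : I → Type} [∀ i, Field (K i)] [∀ i, NumberField (K i)] {m : I → ℕ}
    (h : ∀ i, Matrix (Fin (m i)) (Fin (m i)) (K i))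
    (t : ∀ i, Fin (m i) → K i → Module.End ℂ (κ i → ℂ)) {k : ℕ}
    (γ : MultilinearMap ℂ (fun _ : Fin (2 * k) => HW κ n) ℂ) (σ₀ : ∀ i, K i →+* ℂ)

/-- `KTW.Fam` with `3 ≤ m i` -/
structure FamR (c : ∀ i, K i →+* K i) : Prop where
  pi : ϖ ≠ 0
  S : ∀ i, MD (P i) (c i) (h i) (t i)
  B : ∀ v : Fin (2 * k) → HW κ n, (∀ r, IsRatP n P (v r)) → ∃ q : ℚ, γ v = ϖ ^ k * q
  A : ∀ v : Fin (2 * k) → HW κ n, (∀ r i m j, IsAlgebraic ℚ (v r i m j)) → IsAlgebraic ℚ (γ v)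
  nd : ∀ i, HNd (P i)
  real : ∀ i (σ : K i →+* ℂ), cj σ = σ
  sig : ∀ i, Sig2 (CoreR.GR (h i) (σ₀ i)) ∨ Sig2 (-(CoreR.GR (h i) (σ₀ i)))
  defi : ∀ i (σ : K i →+* ℂ), σ ≠ σ₀ i → Definite ((h i).map (cj σ))
  T : ∀ X : GG κ, IsInv n P γ X → ∀ i, ∃ M, ActM (t i) (X.1 i) M
  Tg : ∀ g : (i : I) → Module.End ℂ (κ i → ℂ), IsGrp n P γ g → ∀ i,
    ∃ A : (K i →+* ℂ) → Matrix (Fin (m i)) (Fin (m i)) ℂ, ∀ σ x,
      g i * tau (ts (t i) σ) x = tau (ts (t i) σ) (A σ *ᵥ x) * g i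
  ne : ∀ i, Nonempty (κ i)
  m3 : ∀ i, 3 ≤ m i
  m5 : ∀ i, Ok (P i) (K i) (m i)

end defs

/-- **LN4.**  `KTW.St_Lnk` for `FamR` and `m i, m j ≠ 4`.  PROOF.  Copy `Pool/Agent/KTW/Lnk.lean` (the
hypothesis `m3` is used there for `i, j` only). -/
def St_Ln4 : Prop := ∀ (I : Type) [Fintype I] [DecidableEq I] (n : I → ℕ) (κ : I → Type)
  [∀ i, Fintype (κ i)] [∀ i, DecidableEq (κ i)] (ϖ : ℂ) (P : ∀ i, PData (κ i) ϖ)
  (K : I → Type) [∀ i, Field (K i)] [∀ i, NumberField (K i)] (c : ∀ i, K i →+* K i) (m : I → ℕ)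
  (h : ∀ i, Matrix (Fin (m i)) (Fin (m i)) (K i))
  (t : ∀ i, Fin (m i) → K i → Module.End ℂ (κ i → ℂ)) (k : ℕ)
  (γ : MultilinearMap ℂ (fun _ : Fin (2 * k) => HW κ n) ℂ) (σ₀ : ∀ i, K i →+* ℂ),
  FamR n P h t γ σ₀ c → ∀ i j : I, i ≠ j → m i ≠ 4 → m j ≠ 4 →
  (∀ M ∈ RR0 n P h t γ σ₀, M ⟨i, σ₀ i⟩ = 0 ↔ M ⟨j, σ₀ j⟩ = 0) →
  ∃ f : (κ i → ℂ) →ₗ[ℂ] (κ j → ℂ), IsDRB (P i) (P j) f ∧ f ≠ 0

/-- **FT4.**  `KTW.St_Fth` for `FamR` and `m j ≠ 4`.  PROOF.  Copy `Pool/Agent/KTW/Fth.lean`. -/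
def St_Ft4 : Prop := ∀ (I : Type) [Fintype I] [DecidableEq I] (n : I → ℕ) (κ : I → Type)
  [∀ i, Fintype (κ i)] [∀ i, DecidableEq (κ i)] (ϖ : ℂ) (P : ∀ i, PData (κ i) ϖ)
  (K : I → Type) [∀ i, Field (K i)] [∀ i, NumberField (K i)] (c : ∀ i, K i →+* K i) (m : I → ℕ)
  (h : ∀ i, Matrix (Fin (m i)) (Fin (m i)) (K i))
  (t : ∀ i, Fin (m i) → K i → Module.End ℂ (κ i → ℂ)) (k : ℕ)
  (γ : MultilinearMap ℂ (fun _ : Fin (2 * k) => HW κ n) ℂ) (σ₀ : ∀ i, K i →+* ℂ),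
  FamR n P h t γ σ₀ c → ∀ (Z : ∀ i, Module.End ℂ (κ i → ℂ))
  (N : ∀ i, (K i →+* ℂ) → Matrix (Fin (m i)) (Fin (m i)) ℂ),
  (∀ i, Z i ∈ bvS (t i)) → (∀ i, ActM (t i) (Z i) (N i)) → (∀ i σ, SkP (h i) σ (N i σ)) →
  (∀ i σ, σ ≠ σ₀ i → N i σ = 0) → (∀ i u, Z i u = 0 → u = 0) →
  ∀ (i j : I), m j ≠ 4 → ∀ (f : (κ i → ℂ) →ₗ[ℂ] (κ j → ℂ)), IsDRB (P i) (P j) f → f ≠ 0 →
  (∀ v, Z j (f v) = f (Z i v)) → ∀ M ∈ RR0 n P h t γ σ₀, M ⟨i, σ₀ i⟩ = N i (σ₀ i) →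
  M ⟨j, σ₀ j⟩ = N j (σ₀ j)

/-- **LQ4** (from `St_Qlk`, `St_Qhm`, `St_Qdr`).  Links between components of dimension three.  PROOF.
`St_Qlk` for `R = RRE n P h t γ` (`RRE_bracket`, `RRE_twist`, `coreB` with `Hall5_`, symmetry of `h` from `herm` and
`real` as in `KSW/Iso.lean`, `h_symm`), then `F` from `St_Qhm`.  `F` commutes with the symmetries:
`exists_famE` gives the family `M ∈ RRE` of a symmetry `X` (`X.2 = 0`), `mem_bvE`, and the last statement of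
`St_Qlk`.  So `F ∈ span` by `St_Qdr`. (a) some `IsDRB` map is not zero, otherwise `F = 0`.  (b) Let `M ∈ RR0` with
symmetry `X` and `cf (M ⟨i, σ₀ i⟩) = cf (N i (σ₀ i))`.  `F` commutes with the `Z` (span of the `IsDRB` maps);
`F ∘ (X.1 i - Z i) = 0` by the first property of `F` (with `Y = 0`, `M' = 0`: the coordinates of
`M ⟨i, ·⟩ - N i` are zero at all places); so `(X.1 j - Z j) ∘ F = 0`, and the last property of `F` at `σ₀ i`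
gives the claim (`φ (σ₀ i) = σ₀ j`, `cf` is additive by `St_Qcq`). -/
def St_Lq4 : Prop := ∀ (I : Type) [Fintype I] [DecidableEq I] (n : I → ℕ) (κ : I → Type)
  [∀ i, Fintype (κ i)] [∀ i, DecidableEq (κ i)] (ϖ : ℂ) (P : ∀ i, PData (κ i) ϖ)
  (K : I → Type) [∀ i, Field (K i)] [∀ i, NumberField (K i)] (c : ∀ i, K i →+* K i) (m : I → ℕ)
  (h : ∀ i, Matrix (Fin (m i)) (Fin (m i)) (K i))
  (t : ∀ i, Fin (m i) → K i → Module.End ℂ (κ i → ℂ)) (k : ℕ)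
  (γ : MultilinearMap ℂ (fun _ : Fin (2 * k) => HW κ n) ℂ) (σ₀ : ∀ i, K i →+* ℂ),
  FamR n P h t γ σ₀ c → ∀ i j : I, (m i = 3 ∨ m i = 4) → (m j = 3 ∨ m j = 4) →
  ∀ ε ε' : ℂ, (ε = 1 ∨ ε = -1) → (ε' = 1 ∨ ε' = -1) → ∀ (B : Matrix (Fin (m i)) (Fin (m i)) ℂ)
    (B' : Matrix (Fin (m j)) (Fin (m j)) ℂ), Bᵀ * (h i).map (σ₀ i) * B = 1 →
  B'ᵀ * (h j).map (σ₀ j) * B' = 1 →
  (∀ M ∈ RR0 n P h t γ σ₀, cf ε (h i) (σ₀ i) B (M ⟨i, σ₀ i⟩) = 0 ↔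
    cf ε' (h j) (σ₀ j) B' (M ⟨j, σ₀ j⟩) = 0) →
  (∃ f : (κ i → ℂ) →ₗ[ℂ] (κ j → ℂ), IsDRB (P i) (P j) f ∧ f ≠ 0) ∧
  ∀ (Z : ∀ i, Module.End ℂ (κ i → ℂ)) (N : ∀ i, (K i →+* ℂ) → Matrix (Fin (m i)) (Fin (m i)) ℂ),
  (∀ i, Z i ∈ bvS (t i)) → (∀ i, ActM (t i) (Z i) (N i)) → (∀ i σ, SkP (h i) σ (N i σ)) →
  (∀ i σ, σ ≠ σ₀ i → N i σ = 0) →
  (∀ (f : (κ i → ℂ) →ₗ[ℂ] (κ j → ℂ)), IsDRB (P i) (P j) f → ∀ v, Z j (f v) = f (Z i v)) →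
  ∀ M ∈ RR0 n P h t γ σ₀, cf ε (h i) (σ₀ i) B (M ⟨i, σ₀ i⟩) = cf ε (h i) (σ₀ i) B (N i (σ₀ i)) →
  cf ε' (h j) (σ₀ j) B' (M ⟨j, σ₀ j⟩) = cf ε' (h j) (σ₀ j) B' (N j (σ₀ j))

/-- **DG4** (from `St_Frm`, `St_Qcq`, `St_Rpa`, `St_Ln4`, `St_Ft4`, `St_Lq4`).  The diagonal operator is a
symmetry (`KTW.St_Dgm` for `FamR`).  PROOF.  Frames `B i` at the Hodge places (`St_Frm`).  `St_Rpa` with
`𝓐 = ∀ p : PL K, Matrix ..`, `R = RR0` (a submodule), `Q = I × Bool`,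
`E (i, b) = Matrix (Fin (m i)) (Fin (m i)) ℂ × (Fin 3 → ℂ)` and `c (i, b) M = (M ⟨i, σ₀ i⟩, 0)` if `m i ≠ 4`,
`(0, cf (±1) (h i) (σ₀ i) (B i) (M ⟨i, σ₀ i⟩))` if `m i = 4` (`+1` for `b = true`), `D = c (N)` (`c q` at the family
`N`).  `h1`: brackets.  `h2`, `h3` for `m i ≠ 4`: `coreB`, `KSP.Goursat.exists_noncomm`, `KSP.ideal_top` (as in
`KTW/Lnk.lean`); for `m i = 4`: `coreB`, `St_Qcq` (a subspace of `ℂ³` stable under `x ↦ y × x` for all `y` and not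
zero is everything).  Links between `(i, b)` and `(j, b')`: `i = j`: if `m i ≠ 4` or `b = b'` trivial; if `m i = 4`,
`b ≠ b'`: no link, by `coreB` and `St_Qcq` (`cq ε A = x ≠ 0`, `cq (-ε) A = 0`).  `i ≠ j`: `m i, m j ≠ 4`: `St_Ln4`,
`St_Ft4`.  `m i, m j ∈ {3, 4}`, one of them `4`: `St_Lq4` (for `m = 3`: `cf = 0` iff `M = 0` for skew matrices, and
equality, by `St_Qcq`).  One is `4`, the other `≥ 5`: no link, since the link gives an injective linear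
map from the skew matrices of size `≥ 5` (a space of dimension `≥ 10`) to `ℂ³`: among the
values `E_ab - E_ba` type matrices `H⁻¹ (E_ab - E_ba)` of four pairs `a < b` there is a nonzero combination
`Z` with a preimage `M ∈ RR0` (choose preimages of the four) with `c = 0` at the other place, but
`Z ≠ 0`.  Conclusion: `M ∈ RR0` with `M ⟨i, σ₀ i⟩ = N i (σ₀ i)` for all `i` (for `m i = 4` by `St_Qcq`), then as
in `KTW/Dgm.lean`. -/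
def St_Dg4 : Prop := ∀ (I : Type) [Fintype I] [DecidableEq I] (n : I → ℕ) (κ : I → Type)
  [∀ i, Fintype (κ i)] [∀ i, DecidableEq (κ i)] (ϖ : ℂ) (P : ∀ i, PData (κ i) ϖ)
  (K : I → Type) [∀ i, Field (K i)] [∀ i, NumberField (K i)] (c : ∀ i, K i →+* K i) (m : I → ℕ)
  (h : ∀ i, Matrix (Fin (m i)) (Fin (m i)) (K i))
  (t : ∀ i, Fin (m i) → K i → Module.End ℂ (κ i → ℂ)) (k : ℕ)
  (γ : MultilinearMap ℂ (fun _ : Fin (2 * k) => HW κ n) ℂ) (σ₀ : ∀ i, K i →+* ℂ),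
  FamR n P h t γ σ₀ c → ∀ (Z : ∀ i, Module.End ℂ (κ i → ℂ))
  (N : ∀ i, (K i →+* ℂ) → Matrix (Fin (m i)) (Fin (m i)) ℂ),
  (∀ i, Z i ∈ bvS (t i)) → (∀ i, ActM (t i) (Z i) (N i)) → (∀ i σ, SkP (h i) σ (N i σ)) →
  (∀ i σ, σ ≠ σ₀ i → N i σ = 0) → (∀ i u, Z i u = 0 → u = 0) →
  (∀ (i j : I) (f : (κ i → ℂ) →ₗ[ℂ] (κ j → ℂ)), IsDRB (P i) (P j) f →
    ∀ v, Z j (f v) = f (Z i v)) →
  ∃ X : GG κ, IsInv n P γ X ∧ X.2 = 0 ∧ X.1 = Z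

/-- **KZ4** (from `St_Dg4`, `KTP.St_Kil`).  The Hodge projectors kill the Grothendieck forms, all real
fields.  PROOF.  As `KTW.thm_Klz` (`Pool/Agent/KTW/Klz.lean`), with `St_Dg4` for `St_Dgm`. -/
def St_Kz4 : Prop := ∀ {I : Type} [Fintype I] [DecidableEq I] (A : I → AbVar) {K : I → Type}
  [∀ i, Field (K i)] [∀ i, NumberField (K i)] {c : ∀ i, K i →+* K i} {m : I → ℕ}
  (S : ∀ i, (A i).KugaSatakeMul (K i) (c i) (m i)), (∀ i, (A i).g ≠ 0) → (∀ i, Adm (S i)) →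
  (Subsingleton I ∨ ∀ i, c i = RingHom.id (K i)) →
  ∀ n : I → ℕ, KillZ (fun i => pData (A i)) (fun i => (1 / 2 : ℂ) • 1 - hod (A i)) n

/-! ### Families with an index map -/

section defsW

variable {I J : Type} [Fintype I] [DecidableEq I] [Fintype J] [DecidableEq J] (e : I → J)
  (n : J → ℕ) {κ : J → Type} [∀ j, Fintype (κ j)] [∀ j, DecidableEq (κ j)] {ϖ : ℂ}
  (P : ∀ j, PData (κ j) ϖ) {K : I → Type} [∀ i, Field (K i)] [∀ i, NumberField (K i)] {m : I → ℕ}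
  (h : ∀ i, Matrix (Fin (m i)) (Fin (m i)) (K i))
  (t : ∀ i, Fin (m i) → K i → Module.End ℂ (κ (e i) → ℂ)) {k : ℕ}
  (γ : MultilinearMap ℂ (fun _ : Fin (2 * k) => HW κ n) ℂ) (σ₀ : ∀ i, K i →+* ℂ)

/-- `KTW.FamE` with `m i = 4` and without the conditions on the other abelian varieties -/
structure FamW (c : ∀ i, K i →+* K i) : Prop where
  pi : ϖ ≠ 0
  S : ∀ i, MD (P (e i)) (c i) (h i) (t i)
  B : ∀ v : Fin (2 * k) → HW κ n, (∀ r, IsRatP n P (v r)) → ∃ q : ℚ, γ v = ϖ ^ k * q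
  A : ∀ v : Fin (2 * k) → HW κ n, (∀ r i m j, IsAlgebraic ℚ (v r i m j)) → IsAlgebraic ℚ (γ v)
  nd : ∀ i, HNd (P (e i))
  real : ∀ i (σ : K i →+* ℂ), cj σ = σ
  sig : ∀ i, Sig2 (CoreR.GR (h i) (σ₀ i)) ∨ Sig2 (-(CoreR.GR (h i) (σ₀ i)))
  defi : ∀ i (σ : K i →+* ℂ), σ ≠ σ₀ i → Definite ((h i).map (cj σ))
  T : ∀ X : GG κ, IsInv n P γ X → ∀ i, ∃ M, ActM (t i) (X.1 (e i)) M
  Tg : ∀ g : (j : J) → Module.End ℂ (κ j → ℂ), IsGrp n P γ g → ∀ i,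
    ∃ A : (K i →+* ℂ) → Matrix (Fin (m i)) (Fin (m i)) ℂ, ∀ σ x,
      g (e i) * tau (ts (t i) σ) x = tau (ts (t i) σ) (A σ *ᵥ x) * g (e i)
  ne : ∀ i, Nonempty (κ (e i))
  m3 : ∀ i, m i = 3 ∨ m i = 4 ∨ 6 ≤ m i

end defsW

/-- **LW4** (from `St_Qlk`, `St_Qhm`, `St_Qdr`).  `St_Lq4`, first part, with an index map.  PROOF.  The same,
with `KSW.RRE`, `KSW.RRE_bracket`, `KSW.RRE_twist`, `KSW.RRE_core0`, `KSW.exists_famE`. -/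
def St_Lw4 : Prop := ∀ (I J : Type) [Fintype I] [DecidableEq I] [Fintype J] [DecidableEq J]
  (e : I → J) (n : J → ℕ) (κ : J → Type) [∀ j, Fintype (κ j)] [∀ j, DecidableEq (κ j)] (ϖ : ℂ)
  (P : ∀ j, PData (κ j) ϖ) (K : I → Type) [∀ i, Field (K i)] [∀ i, NumberField (K i)]
  (c : ∀ i, K i →+* K i) (m : I → ℕ) (h : ∀ i, Matrix (Fin (m i)) (Fin (m i)) (K i))
  (t : ∀ i, Fin (m i) → K i → Module.End ℂ (κ (e i) → ℂ)) (k : ℕ)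
  (γ : MultilinearMap ℂ (fun _ : Fin (2 * k) => HW κ n) ℂ) (σ₀ : ∀ i, K i →+* ℂ),
  FamW e n P h t γ σ₀ c → ∀ i j : I, (m i = 3 ∨ m i = 4) → (m j = 3 ∨ m j = 4) →
  ∀ ε ε' : ℂ, (ε = 1 ∨ ε = -1) → (ε' = 1 ∨ ε' = -1) → ∀ (B : Matrix (Fin (m i)) (Fin (m i)) ℂ)
    (B' : Matrix (Fin (m j)) (Fin (m j)) ℂ), Bᵀ * (h i).map (σ₀ i) * B = 1 →
  B'ᵀ * (h j).map (σ₀ j) * B' = 1 →
  (∀ M ∈ KSW.RRE e n P h t γ, (∀ p : PL K, p.2 ≠ σ₀ p.1 → M p = 0) →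
    (cf ε (h i) (σ₀ i) B (M ⟨i, σ₀ i⟩) = 0 ↔ cf ε' (h j) (σ₀ j) B' (M ⟨j, σ₀ j⟩) = 0)) →
  ∃ f : (κ (e i) → ℂ) →ₗ[ℂ] (κ (e j) → ℂ), IsDRB (P (e i)) (P (e j)) f ∧ f ≠ 0

/-- **LX4.**  `St_Ln4` with an index map.  PROOF.  (1) The link holds on `KSW.RRE`: as
`KTW.Lnk_one` (`Pool/Agent/KTW/Lnk.lean`), with `KSW.RRE_core0` for `Lnk_core`.  (2) `KSW.exists_iso`,
`exists_F`, `KSW.hom_of_F` as at the end of the proof of `KSW.not_linkedE` (`Pool/Agent/KSW/Fin.lean`). -/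
def St_Lx4 : Prop := ∀ (I J : Type) [Fintype I] [DecidableEq I] [Fintype J] [DecidableEq J]
  (e : I → J) (n : J → ℕ) (κ : J → Type) [∀ j, Fintype (κ j)] [∀ j, DecidableEq (κ j)] (ϖ : ℂ)
  (P : ∀ j, PData (κ j) ϖ) (K : I → Type) [∀ i, Field (K i)] [∀ i, NumberField (K i)]
  (c : ∀ i, K i →+* K i) (m : I → ℕ) (h : ∀ i, Matrix (Fin (m i)) (Fin (m i)) (K i))
  (t : ∀ i, Fin (m i) → K i → Module.End ℂ (κ (e i) → ℂ)) (k : ℕ)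
  (γ : MultilinearMap ℂ (fun _ : Fin (2 * k) => HW κ n) ℂ) (σ₀ : ∀ i, K i →+* ℂ),
  FamW e n P h t γ σ₀ c → ∀ i j : I, i ≠ j → m i ≠ 4 → m j ≠ 4 →
  (∀ M ∈ KSW.RRE e n P h t γ, (∀ p : PL K, p.2 ≠ σ₀ p.1 → M p = 0) →
    (M ⟨i, σ₀ i⟩ = 0 ↔ M ⟨j, σ₀ j⟩ = 0)) →
  ∃ f : (κ (e i) → ℂ) →ₗ[ℂ] (κ (e j) → ℂ), IsDRB (P (e i)) (P (e j)) f ∧ f ≠ 0

/-- **RS4** (from `St_Frm`, `St_Qcq`, `St_Rpa`, `St_Lw4`, `St_Lx4`).  Without morphisms every skew matrix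
at every place is the value of a symmetry (`KSW.RRE_single` also for `m i = 4`).  PROOF.  `p = ⟨i, σ⟩`.
First `σ = σ₀ i`: as in `St_Dg4`, `St_Rpa` with `R` the `M ∈ KSW.RRE` with `M p = 0` for `p.2 ≠ σ₀ p.1`, `D` the
values `c q` of `Pi.single p Z`; `KSW.RRE_core0` for `coreB`.  Links between `(i, b)` and `(j, b')`,
`i ≠ j`, do not exist: `m i, m j ≠ 4`: `St_Lx4`; `m i, m j ∈ {3, 4}`: `St_Lw4`; otherwise the dimension argument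
of `St_Dg4`.  (`i = j`: as in `St_Dg4`.)  Then general `σ`: `τ ∘ σ₀ i = σ` (`Helper84.exists_aut`),
`Pi.single ⟨i, σ⟩ Z = twP τ (Pi.single ⟨i, σ₀ i⟩ (Z.map τ.symm))`, `KSW.RRE_twist` (compare `KSW.core_at`). -/
def St_Rs4 : Prop := ∀ (I J : Type) [Fintype I] [DecidableEq I] [Fintype J] [DecidableEq J]
  (e : I → J) (n : J → ℕ) (κ : J → Type) [∀ j, Fintype (κ j)] [∀ j, DecidableEq (κ j)] (ϖ : ℂ)
  (P : ∀ j, PData (κ j) ϖ) (K : I → Type) [∀ i, Field (K i)] [∀ i, NumberField (K i)]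
  [DecidableEq (PL K)] (c : ∀ i, K i →+* K i) (m : I → ℕ)
  (h : ∀ i, Matrix (Fin (m i)) (Fin (m i)) (K i))
  (t : ∀ i, Fin (m i) → K i → Module.End ℂ (κ (e i) → ℂ)) (k : ℕ)
  (γ : MultilinearMap ℂ (fun _ : Fin (2 * k) => HW κ n) ℂ) (σ₀ : ∀ i, K i →+* ℂ),
  FamW e n P h t γ σ₀ c →
  (∀ i j, i ≠ j → ∀ f : (κ (e i) → ℂ) →ₗ[ℂ] (κ (e j) → ℂ), IsDRB (P (e i)) (P (e j)) f → f = 0) →
  ∀ (p : PL K) (Z : Matrix (Fin (m p.1)) (Fin (m p.1)) ℂ), SkP (h p.1) p.2 Z →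
  (Pi.single p Z : ∀ p : PL K, Matrix (Fin (m p.1)) (Fin (m p.1)) ℂ) ∈ KSW.RRE e n P h t γ

/-- **KE4** (from `St_Rs4`, `St_Sp4`, `KTW.St_Spc`).  `KTW.St_Kle` with `m i = 4`, then all `C_j` have complex
multiplication.  PROOF.  As `Pool/Agent/KTW/Kle.lean`, with `St_Rs4` for `KSW.RRE_single`, and in `Kle_single`
`St_Spc` if `m i ≠ 4` and `St_Sp4` if `m i = 4`. -/
def St_Ke4 : Prop := ∀ {I J : Type} [Fintype I] [DecidableEq I] [Fintype J] [DecidableEq J]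
  (A : I → AbVar) (C : J → AbVar) {K : I → Type} [∀ i, Field (K i)] [∀ i, NumberField (K i)]
  {c : ∀ i, K i →+* K i} {m : I → ℕ} (S : ∀ i, (A i).KugaSatakeMul (K i) (c i) (m i)),
  (∀ i, (A i).g ≠ 0) → (∀ i, c i = RingHom.id (K i)) → (∀ i, m i = 3 ∨ m i = 4 ∨ 6 ≤ m i) →
  (∀ i j, i ≠ j → ∀ f, (A i).IsMor (A j) f → ∀ v, f v = 0) →
  (∀ i j, (m i ≠ 4 ∧ 2 * (C j).g + 2 ≤ m i) ∨ (C j).IsCM) → ∀ n : I ⊕ J → ℕ,
  KillE (κ := fun j => Fin (Sum.elim A C j).g ⊕ Fin (Sum.elim A C j).g)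
    (fun j => pData (Sum.elim A C j)) Sum.inl (fun i => lt (A i) (S i)) n

end Pool.Agent.KQ4
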